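import Pool.Agent.V7H99.Du
import Pool.Agent.K1H99.FCC.Asm

/-!
# From forms to lattices
-/

set_option autoImplicit false

open Matrix

namespace Pool.Agent.V7H99

open Pool.Agent.K1H99.FCC (N0 rv nsq Qm qf af PD dt rad rad_pos rad_cube dt_pos Fp normalise
  summable_gauss theta_fe uact pp rv_mulVec nsq_zero nsq_nonneg nsq_mul_rm rm rm_mul rm_one rm_det
  Rep nsq_eq det_sq exists_reduced sd PD_Fp Cm Cm_gram Cm_det)

/-- the theta series in terms of a form -/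
lemma theta_rep {A : Matrix (Fin 3) (Fin 3) ℝ} (hA : |A.det| = 1) {p : Fin 6 → ℝ} (h : Rep A p)
    {α : ℝ} : PD p ∧ dt p = 1 ∧ ∑' z : Fin 3 → ℤ, Real.exp (-(Real.pi * α) * nsq A (rv z)) =
      Ps p (α * t0) := by
  obtain ⟨U, hU, e⟩ := h
  have hd : (A * rm U).det ^ 2 = 1 := by
    rw [Matrix.det_mul, rm_det, mul_pow, ← sq_abs A.det, hA]
    rcases Int.isUnit_iff.1 hU with h | h <;> rw [h] <;> norm_num
  have hd0 : (A * rm U).det ≠ 0 := by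
    intro h0
    rw [h0] at hd
    norm_num at hd
  have hdt : dt p = 1 := by rw [← det_sq e, hd]
  have hrad : rad p = 1 := by
    unfold rad
    rw [hdt, Real.one_rpow]
  refine ⟨⟨_, e, hd0⟩, hdt, ?_⟩
  rw [← (zact U hU).tsum_eq]
  unfold Ps
  refine tsum_congr fun n => ?_
  show Real.exp (-(Real.pi * α) * nsq A (rv (U.mulVec n))) = _
  rw [← nsq_mul_rm, nsq_eq e]
  congr 1
  have hk := kk_pos
  unfold vx t0
  rw [hrad]
  field_simp

/-- orthogonal matrices from equal Gram matrices -/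
lemma gram_orth {X Y : Matrix (Fin 3) (Fin 3) ℝ} (h : Xᵀ * X = Yᵀ * Y) (hY : Y.det ≠ 0) :
    ∃ R ∈ Matrix.orthogonalGroup (Fin 3) ℝ, X = R * Y := by
  have hu : IsUnit Y.det := isUnit_iff_ne_zero.2 hY
  refine ⟨X * Y⁻¹, ?_, ?_⟩
  · rw [Matrix.mem_orthogonalGroup_iff', Matrix.transpose_mul]
    have e1 : Y⁻¹ᵀ * Xᵀ * (X * Y⁻¹) = Y⁻¹ᵀ * (Xᵀ * X) * Y⁻¹ := by
      simp only [Matrix.mul_assoc]
    rw [e1, h]
    have e2 : Y⁻¹ᵀ * (Yᵀ * Y) * Y⁻¹ = (Y⁻¹ᵀ * Yᵀ) * (Y * Y⁻¹) := by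
      simp only [Matrix.mul_assoc]
    rw [e2, Matrix.mul_nonsing_inv _ hu, Matrix.mul_one, ← Matrix.transpose_mul,
      Matrix.mul_nonsing_inv _ hu, Matrix.transpose_one]
  · rw [Matrix.mul_assoc, Matrix.nonsing_inv_mul _ hu, Matrix.mul_one]

/-- the body-centred cubic basis -/
noncomputable def Mb : Matrix (Fin 3) (Fin 3) ℝ := !![(1:ℝ), 0, 1/2; 0, 1, 1/2; 0, 0, 1/2]

/-- its dual basis -/
def Md : Matrix (Fin 3) (Fin 3) ℝ := !![1, 0, 0; 0, 1, 0; -1, -1, 2]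

lemma Mb_det : Mb.det = 1 / 2 := by
  unfold Mb
  rw [Matrix.det_fin_three]
  simp

lemma Md_det : Md.det = 2 := by
  unfold Md
  rw [Matrix.det_fin_three]
  simp

lemma Md_Mb : Mdᵀ * Mb = 1 := by
  unfold Md Mb
  ext i j
  fin_cases i <;> fin_cases j <;> simp [Matrix.mul_apply, Fin.sum_univ_three]

/-- the change of basis -/
def Uf : Matrix (Fin 3) (Fin 3) ℤ := !![1, 1, -1; 1, -1, 0; 1, 0, 0]

/-- the contragredient change of basis -/
def Ug : Matrix (Fin 3) (Fin 3) ℤ := !![0, 0, -1; 0, -1, -1; 1, 1, 2]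

lemma Ufu : IsUnit Uf.det := by decide
lemma Ugu : IsUnit Ug.det := by decide

lemma Md_Uf : Md * rm Uf = Cm := by
  unfold Md rm Uf Cm
  ext i j
  fin_cases i <;> fin_cases j <;> simp [Matrix.mul_apply, Fin.sum_univ_three] <;> norm_num

lemma Mb_Ug : Mb * rm Ug = !![1 / 2, 1 / 2, 0; 1 / 2, -1 / 2, 0; 1 / 2, 1 / 2, 1] := by
  unfold Mb rm Ug
  ext i j
  fin_cases i <;> fin_cases j <;> simp [Matrix.mul_apply, Fin.sum_univ_three] <;> norm_num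

lemma Cm_Ug : Cmᵀ * (Mb * rm Ug) = 1 := by
  rw [Mb_Ug]
  unfold Cm
  ext i j
  fin_cases i <;> fin_cases j <;> simp [Matrix.mul_apply, Fin.sum_univ_three] <;> norm_num

/-- the body-centred cubic lattice -/
lemma det_Bm : |(kk • Mb).det| = 1 := by
  rw [Matrix.det_smul, Mb_det, Fintype.card_fin, kk_cube]
  norm_num

lemma Bm_dual : (kk⁻¹ • Md)ᵀ * (kk • Mb) = 1 := by
  have hk := kk_pos
  rw [Matrix.transpose_smul, Matrix.smul_mul, Matrix.mul_smul, smul_smul, inv_mul_cancel₀ hk.ne',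
    one_smul, Md_Mb]

lemma det_Bd : |(kk⁻¹ • Md).det| = 1 := by
  rw [Matrix.det_smul, Md_det, Fintype.card_fin, inv_pow, kk_cube]
  norm_num

lemma Qm_smul (c : ℝ) (p : Fin 6 → ℝ) : Qm (c • p) = c • Qm p := by
  unfold Qm
  ext i j
  fin_cases i <;> fin_cases j <;> simp <;> ring

lemma rep_Bd : Rep (kk⁻¹ • Md) ((kk⁻¹) ^ 2 • Fp) := by
  refine ⟨Uf, Ufu, ?_⟩
  rw [Matrix.smul_mul, Md_Uf, Matrix.transpose_smul, Matrix.smul_mul, Matrix.mul_smul, smul_smul,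
    Cm_gram, Qm_smul]
  congr 1
  ring

lemma Fp_nonneg (i : Fin 6) : 0 ≤ Fp i := by
  unfold Fp
  fin_cases i <;> simp

lemma ps_smul {c : ℝ} (hc : 0 < c) {p : Fin 6 → ℝ} (hp : ∀ i, 0 ≤ p i) (t : ℝ) :
    Ps (c • p) t = Ps p t := by
  unfold Ps
  simp_rw [vx_smul hc hp]

/-- the theta series of the body-centred cubic lattice -/
lemma theta_Bm {β : ℝ} (hβ : 0 < β) :
    ∑' z : Fin 3 → ℤ, Real.exp (-(Real.pi * β) * nsq (kk • Mb) (rv z)) =
      β ^ (-(3 / 2) : ℝ) * Ps Fp (t0 / β) := by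
  have hk := kk_pos
  rw [theta_fe Bm_dual hβ, det_Bm, inv_one, one_mul]
  congr 1
  have h := (theta_rep det_Bd rep_Bd (α := β⁻¹)).2.2
  rw [ps_smul (by positivity) Fp_nonneg] at h
  rw [div_eq_inv_mul t0 β, ← h]
  rfl

/-- the theta series of a lattice -/
lemma theta_A {A : Matrix (Fin 3) (Fin 3) ℝ} (hA : |A.det| = 1) {p : Fin 6 → ℝ}
    (h : Rep (A⁻¹)ᵀ p) {β : ℝ} (hβ : 0 < β) :
    ∑' z : Fin 3 → ℤ, Real.exp (-(Real.pi * β) * nsq A (rv z)) =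
      β ^ (-(3 / 2) : ℝ) * Ps p (t0 / β) := by
  have hA0 : A.det ≠ 0 := by
    intro h0
    rw [h0, abs_zero] at hA
    norm_num at hA
  have hu : IsUnit A.det := isUnit_iff_ne_zero.2 hA0
  have hBA : ((A⁻¹)ᵀ)ᵀ * A = 1 := by
    rw [Matrix.transpose_transpose, Matrix.nonsing_inv_mul _ hu]
  have hdB : |((A⁻¹)ᵀ).det| = 1 := by
    have h1 := congrArg Matrix.det hBA
    rw [Matrix.det_mul, Matrix.det_transpose, Matrix.det_one] at h1
    have h2 := congrArg abs h1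
    rw [abs_mul, hA, mul_one, abs_one] at h2
    exact h2
  rw [theta_fe hBA hβ, hA, inv_one, one_mul]
  congr 1
  have h := (theta_rep hdB h (α := β⁻¹)).2.2
  rw [div_eq_inv_mul t0 β, ← h]
  rfl

/-- the equality case -/
lemma eq_case {A : Matrix (Fin 3) (Fin 3) ℝ} (hA : |A.det| = 1) {c : ℝ} (hc : 0 < c)
    (h : Rep (A⁻¹)ᵀ (c • Fp)) : ∃ R ∈ Matrix.orthogonalGroup (Fin 3) ℝ,
      Set.range (fun z : Fin 3 → ℤ => A.mulVec (fun j => (z j : ℝ))) =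
        Set.range (fun z : Fin 3 → ℤ => (R * (kk • Mb)).mulVec (fun j => (z j : ℝ))) := by
  have hA0 : A.det ≠ 0 := by
    intro h0
    rw [h0, abs_zero] at hA
    norm_num at hA
  have hu : IsUnit A.det := isUnit_iff_ne_zero.2 hA0
  have hBA : ((A⁻¹)ᵀ)ᵀ * A = 1 := by
    rw [Matrix.transpose_transpose, Matrix.nonsing_inv_mul _ hu]
  have hdB : |((A⁻¹)ᵀ).det| = 1 := by
    have h1 := congrArg Matrix.det hBA
    rw [Matrix.det_mul, Matrix.det_transpose, Matrix.det_one] at h1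
    have h2 := congrArg abs h1
    rw [abs_mul, hA, mul_one, abs_one] at h2
    exact h2
  have hk := kk_pos
  have hdt := (theta_rep hdB h (α := 1)).2.1
  -- the scale
  have hc3 : c ^ 3 * 4 = 1 := by
    rw [Pool.Agent.K1H99.FCC.dt_smul] at hdt
    have : dt Fp = 4 := by
      rw [← det_sq Cm_gram, Cm_det]
      norm_num
    rw [this] at hdt
    exact hdt
  have hck : c = (kk⁻¹) ^ 2 := by
    refine (pow_left_inj₀ hc.le (by positivity) (three_ne_zero)).1 ?_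
    have h1 : ((kk⁻¹) ^ 2) ^ 3 = ((kk ^ 3)⁻¹) ^ 2 := by
      rw [← pow_mul, ← inv_pow, ← pow_mul]
    rw [h1, kk_cube]
    linarith
  obtain ⟨U, hU, e⟩ := h
  set B := (A⁻¹)ᵀ with hB
  have e1 : (B * rm U)ᵀ * (B * rm U) = (kk⁻¹ • Cm)ᵀ * (kk⁻¹ • Cm) := by
    rw [e, Qm_smul, ← Cm_gram, Matrix.transpose_smul, Matrix.smul_mul, Matrix.mul_smul, smul_smul,
      hck, sq]
  have hdC : (kk⁻¹ • Cm).det ≠ 0 := by
    rw [Matrix.det_smul, Cm_det]
    have : (kk⁻¹) ^ Fintype.card (Fin 3) ≠ 0 := pow_ne_zero _ (inv_ne_zero hk.ne')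
    exact mul_ne_zero this (by norm_num)
  obtain ⟨R, hR, hX⟩ := gram_orth e1 hdC
  refine ⟨R, hR, ?_⟩
  have hRR : Rᵀ * R = 1 := (Matrix.mem_orthogonalGroup_iff' (Fin 3) ℝ).1 hR
  -- the basis
  have hW : IsUnit (Ug * Uᵀ).det := by
    rw [Matrix.det_mul, Matrix.det_transpose]
    exact Ugu.mul hU
  have hUt : rm Uᵀ = (rm U)ᵀ := by
    unfold rm
    rw [Matrix.transpose_map]
  have hAe : A = R * (kk • Mb) * rm (Ug * Uᵀ) := by
    -- multiply by the transpose of `B * rm U`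
    have hBU : IsUnit (B * rm U).det := by
      rw [hX, Matrix.det_mul]
      have hRd : IsUnit R.det := by
        have := congrArg Matrix.det hRR
        rw [Matrix.det_mul, Matrix.det_transpose, Matrix.det_one] at this
        exact IsUnit.of_mul_eq_one _ this
      exact hRd.mul (isUnit_iff_ne_zero.2 hdC)
    have hl : (B * rm U)ᵀ * A = (B * rm U)ᵀ * (R * (kk • Mb) * rm (Ug * Uᵀ)) := by
      have l1 : (B * rm U)ᵀ * A = (rm U)ᵀ := by
        rw [Matrix.transpose_mul, Matrix.mul_assoc, hBA, Matrix.mul_one]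
      have l2 : (B * rm U)ᵀ * (R * (kk • Mb) * rm (Ug * Uᵀ)) = (rm U)ᵀ := by
        rw [hX, Matrix.transpose_mul, rm_mul, hUt]
        have l3 : (kk⁻¹ • Cm)ᵀ * Rᵀ * (R * (kk • Mb) * (rm Ug * (rm U)ᵀ)) =
            (kk⁻¹ • Cm)ᵀ * (Rᵀ * R) * (kk • Mb) * rm Ug * (rm U)ᵀ := by
          simp only [Matrix.mul_assoc]
        rw [l3, hRR, Matrix.mul_one, Matrix.transpose_smul, Matrix.smul_mul, Matrix.mul_smul,
          smul_smul, inv_mul_cancel₀ hk.ne', one_smul, Matrix.mul_assoc Cmᵀ Mb, Cm_Ug,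
          Matrix.one_mul]
      rw [l1, l2]
    have hut : IsUnit ((B * rm U)ᵀ).det := by
      rw [Matrix.det_transpose]
      exact hBU
    calc A = (((B * rm U)ᵀ)⁻¹ * (B * rm U)ᵀ) * A := by
          rw [Matrix.nonsing_inv_mul _ hut, Matrix.one_mul]
      _ = ((B * rm U)ᵀ)⁻¹ * ((B * rm U)ᵀ * (R * (kk • Mb) * rm (Ug * Uᵀ))) := by
          rw [Matrix.mul_assoc, hl]
      _ = _ := by rw [← Matrix.mul_assoc, Matrix.nonsing_inv_mul _ hut, Matrix.one_mul]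
  have hz : ∀ z : Fin 3 → ℤ, A.mulVec (fun j => (z j : ℝ)) =
      (R * (kk • Mb)).mulVec (rv ((Ug * Uᵀ).mulVec z)) := by
    intro z
    rw [rv_mulVec, Matrix.mulVec_mulVec, ← hAe]
    rfl
  ext x
  constructor
  · rintro ⟨z, rfl⟩
    exact ⟨(Ug * Uᵀ).mulVec z, (hz z).symm⟩
  · rintro ⟨z, rfl⟩
    obtain ⟨w, hw⟩ := (zact (Ug * Uᵀ) hW).surjective z
    refine ⟨w, ?_⟩
    show A.mulVec (fun j => (w j : ℝ)) = _
    rw [hz w]
    have : (Ug * Uᵀ).mulVec w = z := hw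
    rw [this]
    rfl

/-- the statement, given the inequality for reduced forms -/
theorem main_of
    (H : ∀ s1 d1 s2 d2 s3 d3 : ℝ, s2 ≤ s1 → s3 ≤ s2 → 0 ≤ d1 → d1 ≤ s1 → 0 ≤ d2 → d2 ≤ s2 →
      d3 ≤ s3 → -d3 ≤ s3 → PD (sd s1 d1 s2 d2 s3 d3) → ∀ t, t0 < t →
      Tt t < Gs (sd s1 d1 s2 d2 s3 d3) t ∨ ∃ c : ℝ, 0 < c ∧ sd s1 d1 s2 d2 s3 d3 = c • Fp)
    {β : ℝ} (h0 : 0 < β) (h1 : β < 1) {A : Matrix (Fin 3) (Fin 3) ℝ} (hA : |A.det| = 1) :
    (∑' z : Fin 3 → ℤ, Real.exp (-(Real.pi * β) * nsq (kk • Mb) (rv z)) ≤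
      ∑' z : Fin 3 → ℤ, Real.exp (-(Real.pi * β) * nsq A (rv z))) ∧
    (∑' z : Fin 3 → ℤ, Real.exp (-(Real.pi * β) * nsq (kk • Mb) (rv z)) =
      ∑' z : Fin 3 → ℤ, Real.exp (-(Real.pi * β) * nsq A (rv z)) →
      ∃ R ∈ Matrix.orthogonalGroup (Fin 3) ℝ,
      Set.range (fun z : Fin 3 → ℤ => A.mulVec (fun j => (z j : ℝ))) =
        Set.range (fun z : Fin 3 → ℤ => (R * (kk • Mb)).mulVec (fun j => (z j : ℝ)))) := by
  have hA0 : A.det ≠ 0 := by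
    intro h0
    rw [h0, abs_zero] at hA
    norm_num at hA
  have hu : IsUnit A.det := isUnit_iff_ne_zero.2 hA0
  have hB0 : ((A⁻¹)ᵀ).det ≠ 0 := by
    have hBA : ((A⁻¹)ᵀ)ᵀ * A = 1 := by
      rw [Matrix.transpose_transpose, Matrix.nonsing_inv_mul _ hu]
    intro h2
    have h1 := congrArg Matrix.det hBA
    rw [Matrix.det_mul, Matrix.det_transpose, Matrix.det_one, h2, zero_mul] at h1
    exact zero_ne_one h1
  obtain ⟨s1, d1, s2, d2, s3, d3, hrep, c1, c2, c3, c4, c5, c6, c7, c8⟩ := exists_reduced _ hB0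
  have hdB : |((A⁻¹)ᵀ).det| = 1 := by
    have hBA : ((A⁻¹)ᵀ)ᵀ * A = 1 := by
      rw [Matrix.transpose_transpose, Matrix.nonsing_inv_mul _ hu]
    have h1 := congrArg Matrix.det hBA
    rw [Matrix.det_mul, Matrix.det_transpose, Matrix.det_one] at h1
    have h2 := congrArg abs h1
    rw [abs_mul, hA, mul_one, abs_one] at h2
    exact h2
  have hpd := (theta_rep hdB hrep (α := 1)).1
  have hk := kk_pos
  have ht0 : 0 < t0 := mul_pos Real.pi_pos hk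
  have ht : t0 < t0 / β := by
    rw [lt_div_iff₀ h0]
    nlinarith
  have htp : 0 < t0 / β := by positivity
  have hH := H s1 d1 s2 d2 s3 d3 c1 c2 c3 c4 c5 c6 c7 c8 hpd (t0 / β) ht
  rw [theta_Bm h0, theta_A hA hrep h0]
  have hb : 0 < β ^ (-(3 / 2) : ℝ) := Real.rpow_pos_of_pos h0 _
  have he := Real.exp_pos (-(t0 / β))
  rcases hH with hlt | ⟨c, hc, hcF⟩
  · have h2 : Ps Fp (t0 / β) < Ps (sd s1 d1 s2 d2 s3 d3) (t0 / β) := by
      rw [ps_eq PD_Fp htp, ps_eq hpd htp]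
      have h3 : Gs Fp (t0 / β) < Gs (sd s1 d1 s2 d2 s3 d3) (t0 / β) := hlt
      have := mul_lt_mul_of_pos_left h3 he
      linarith
    have h4 := mul_lt_mul_of_pos_left h2 hb
    exact ⟨h4.le, fun h5 => absurd h5 h4.ne⟩
  · rw [hcF, ps_smul hc Fp_nonneg]
    refine ⟨le_rfl, fun _ => ?_⟩
    rw [hcF] at hrep
    exact eq_case hA hc hrep

end Pool.Agent.V7H99
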