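import Pool.Agent.V7H99.Y3a
import Pool.Agent.V7H99.Y3b
import Pool.Agent.V7H99.Ro

/-!
# Certificate, slice 3, upper part
-/

set_option autoImplicit false

namespace Pool.Agent.V7H99

lemma r3_0 : Good (Want I3) rt0 := z3_0

lemma r3_1 : Good (Want I3) rt1 := z3_1

lemma r3_2 : Good (Want I3) rt2 := z3_2

lemma r3_3 : Good (Want I3) rt3 := z3_3

lemma r3_4 : Good (Want I3) rt4 := z3_4

lemma r3_5 : Good (Want I3) rt5 := z3_5

lemma r3_6 : Good (Want I3) rt6 := z3_6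

lemma r3_7 : Good (Want I3) rt7 := z3_7

lemma r3_8 : Good (Want I3) rt8 := z3_8

lemma r3_9 : Good (Want I3) rt9 := z3_9

lemma r3_10 : Good (Want I3) rt10 := z3_10

lemma r3_11 : Good (Want I3) rt11 := z3_11

lemma r3_12 : Good (Want I3) rt12 := z3_12

lemma r3_13 : Good (Want I3) rt13 := z3_13

lemma r3_14 : Good (Want I3) rt14 := z3_14

lemma r3_15 : Good (Want I3) rt15 := z3_15

lemma r3_16 : Good (Want I3) rt16 := z3_16

lemma r3_17 : Good (Want I3) rt17 := z3_17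

lemma r3_18 : Good (Want I3) rt18 := z3_18

lemma r3_19 : Good (Want I3) rt19 := z3_19

lemma r3_20 : Good (Want I3) rt20 := z3_20

lemma r3_21 : Good (Want I3) rt21 := z3_21

lemma r3_22 : Good (Want I3) rt22 := z3_22

lemma r3_23 : Good (Want I3) rt23 := z3_23

lemma r3_24 : Good (Want I3) rt24 := z3_24

lemma r3_25 : Good (Want I3) rt25 := z3_25

lemma r3_26 : Good (Want I3) rt26 := z3_26

lemma r3_27 : Good (Want I3) rt27 := z3_27

lemma r3_28 : Good (Want I3) rt28 := z3_28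

lemma r3_29 : Good (Want I3) rt29 := z3_29

open Pool.Agent.K1H99.FCC (PD sd) in
/-- the slice is complete -/
theorem slice3 {s1 s2 s3 d3 d1 d2 : ℝ} (h12 : s2 ≤ s1) (h23 : s3 ≤ s2)
    (h3 : d3 ≤ s3) (h3' : -d3 ≤ s3) (p1 : 0 ≤ d1) (h1 : d1 ≤ s1) (p2 : 0 ≤ d2) (h2 : d2 ≤ s2)
    (hp : PD (sd s1 d1 s2 d2 s3 d3)) : Want I3 (sd s1 d1 s2 d2 s3 d3) :=
  cone_all r3_0 r3_1 r3_2 r3_3 r3_4 r3_5 r3_6 r3_7 r3_8 r3_9 r3_10 r3_11 r3_12 r3_13 r3_14 r3_15 r3_16 r3_17 r3_18 r3_19 r3_20 r3_21 r3_22 r3_23 r3_24 r3_25 r3_26 r3_27 r3_28 r3_29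
    h12 h23 h3 h3' p1 h1 p2 h2 hp

end Pool.Agent.V7H99
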