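import Pool.Agent.V7H99.Y4a
import Pool.Agent.V7H99.Y4b
import Pool.Agent.V7H99.Ro

/-!
# Certificate, slice 4, upper part
-/

set_option autoImplicit false

namespace Pool.Agent.V7H99

lemma r4_0 : Good (Want I4) rt0 := z4_0

lemma r4_1 : Good (Want I4) rt1 := z4_1

lemma r4_2 : Good (Want I4) rt2 := z4_2

lemma r4_3 : Good (Want I4) rt3 := z4_3

lemma r4_4 : Good (Want I4) rt4 := z4_4

lemma r4_5 : Good (Want I4) rt5 := z4_5

lemma r4_6 : Good (Want I4) rt6 := z4_6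

lemma r4_7 : Good (Want I4) rt7 := z4_7

lemma r4_8 : Good (Want I4) rt8 := z4_8

lemma r4_9 : Good (Want I4) rt9 := z4_9

lemma r4_10 : Good (Want I4) rt10 := z4_10

lemma r4_11 : Good (Want I4) rt11 := z4_11

lemma r4_12 : Good (Want I4) rt12 := z4_12

lemma r4_13 : Good (Want I4) rt13 := z4_13

lemma r4_14 : Good (Want I4) rt14 := z4_14

lemma r4_15 : Good (Want I4) rt15 := z4_15

lemma r4_16 : Good (Want I4) rt16 := z4_16

lemma r4_17 : Good (Want I4) rt17 := z4_17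

lemma r4_18 : Good (Want I4) rt18 := z4_18

lemma r4_19 : Good (Want I4) rt19 := z4_19

lemma r4_20 : Good (Want I4) rt20 := z4_20

lemma r4_21 : Good (Want I4) rt21 := z4_21

lemma r4_22 : Good (Want I4) rt22 := z4_22

lemma r4_23 : Good (Want I4) rt23 := z4_23

lemma r4_24 : Good (Want I4) rt24 := z4_24

lemma r4_25 : Good (Want I4) rt25 := z4_25

lemma r4_26 : Good (Want I4) rt26 := z4_26

lemma r4_27 : Good (Want I4) rt27 := z4_27

lemma r4_28 : Good (Want I4) rt28 := z4_28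

lemma r4_29 : Good (Want I4) rt29 := z4_29

open Pool.Agent.K1H99.FCC (PD sd) in
/-- the slice is complete -/
theorem slice4 {s1 s2 s3 d3 d1 d2 : ℝ} (h12 : s2 ≤ s1) (h23 : s3 ≤ s2)
    (h3 : d3 ≤ s3) (h3' : -d3 ≤ s3) (p1 : 0 ≤ d1) (h1 : d1 ≤ s1) (p2 : 0 ≤ d2) (h2 : d2 ≤ s2)
    (hp : PD (sd s1 d1 s2 d2 s3 d3)) : Want I4 (sd s1 d1 s2 d2 s3 d3) :=
  cone_all r4_0 r4_1 r4_2 r4_3 r4_4 r4_5 r4_6 r4_7 r4_8 r4_9 r4_10 r4_11 r4_12 r4_13 r4_14 r4_15 r4_16 r4_17 r4_18 r4_19 r4_20 r4_21 r4_22 r4_23 r4_24 r4_25 r4_26 r4_27 r4_28 r4_29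
    h12 h23 h3 h3' p1 h1 p2 h2 hp

end Pool.Agent.V7H99
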