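import Pool.Agent.V7H99.Y5a
import Pool.Agent.V7H99.Ro

/-!
# Certificate, slice 5, upper part
-/

set_option autoImplicit false

namespace Pool.Agent.V7H99

lemma r5_0 : Good (Want I5) rt0 := z5_0

lemma r5_1 : Good (Want I5) rt1 := z5_1

lemma r5_2 : Good (Want I5) rt2 := z5_2

lemma r5_3 : Good (Want I5) rt3 := z5_3

lemma r5_4 : Good (Want I5) rt4 := z5_4

lemma r5_5 : Good (Want I5) rt5 := z5_5

lemma r5_6 : Good (Want I5) rt6 := z5_6

lemma r5_7 : Good (Want I5) rt7 := z5_7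

lemma r5_8 : Good (Want I5) rt8 := z5_8

lemma r5_9 : Good (Want I5) rt9 := z5_9

lemma r5_10 : Good (Want I5) rt10 := z5_10

lemma r5_11 : Good (Want I5) rt11 := z5_11

lemma r5_12 : Good (Want I5) rt12 := z5_12

lemma r5_13 : Good (Want I5) rt13 := z5_13

lemma r5_14 : Good (Want I5) rt14 := z5_14

lemma r5_15 : Good (Want I5) rt15 := z5_15

lemma r5_16 : Good (Want I5) rt16 := z5_16

lemma r5_17 : Good (Want I5) rt17 := z5_17

lemma r5_18 : Good (Want I5) rt18 := z5_18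

lemma r5_19 : Good (Want I5) rt19 := z5_19

lemma r5_20 : Good (Want I5) rt20 := z5_20

lemma r5_21 : Good (Want I5) rt21 := z5_21

lemma r5_22 : Good (Want I5) rt22 := z5_22

lemma r5_23 : Good (Want I5) rt23 := z5_23

lemma r5_24 : Good (Want I5) rt24 := z5_24

lemma r5_25 : Good (Want I5) rt25 := z5_25

lemma r5_26 : Good (Want I5) rt26 := z5_26

lemma r5_27 : Good (Want I5) rt27 := z5_27

lemma r5_28 : Good (Want I5) rt28 := z5_28

lemma r5_29 : Good (Want I5) rt29 := z5_29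

open Pool.Agent.K1H99.FCC (PD sd) in
/-- the slice is complete -/
theorem slice5 {s1 s2 s3 d3 d1 d2 : ℝ} (h12 : s2 ≤ s1) (h23 : s3 ≤ s2)
    (h3 : d3 ≤ s3) (h3' : -d3 ≤ s3) (p1 : 0 ≤ d1) (h1 : d1 ≤ s1) (p2 : 0 ≤ d2) (h2 : d2 ≤ s2)
    (hp : PD (sd s1 d1 s2 d2 s3 d3)) : Want I5 (sd s1 d1 s2 d2 s3 d3) :=
  cone_all r5_0 r5_1 r5_2 r5_3 r5_4 r5_5 r5_6 r5_7 r5_8 r5_9 r5_10 r5_11 r5_12 r5_13 r5_14 r5_15 r5_16 r5_17 r5_18 r5_19 r5_20 r5_21 r5_22 r5_23 r5_24 r5_25 r5_26 r5_27 r5_28 r5_29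
    h12 h23 h3 h3' p1 h1 p2 h2 hp

end Pool.Agent.V7H99
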