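import Pool.Agent.V7H99.Sd
import Pool.Agent.K1H99.FCC.LocL

/-!
# Gaussian sums of ternary forms in Selling parameters
-/

set_option autoImplicit false

open Matrix

namespace Pool.Agent.V7H99

open Pool.Agent.K1H99.FCC (N0 rv nsq Qm qf PD dt rad rad_pos rad_cube dt_pos Fp normalise
  summable_gauss sgv two_sum_le qf_neg rad_sum rad_smul qf_nonneg rad_nonneg dt_nonneg PD_Fp rad_Fp
  rad_Fp_pos qf_Fp cc)

/-- the cube root of two -/
noncomputable def kk : ℝ := (2:ℝ) ^ (1 / 3 : ℝ)

lemma kk_pos : 0 < kk := Real.rpow_pos_of_pos (by norm_num) _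

lemma kk_cube : kk ^ 3 = 2 := by
  unfold kk
  rw [← Real.rpow_natCast, ← Real.rpow_mul (by norm_num)]
  norm_num

lemma kk_lo : 1000000 ≤ 793701 * kk := by
  have h := kk_cube
  have hp := kk_pos
  by_contra hc
  push Not at hc
  have h1 : kk < 1000000 / 793701 := by
    rw [lt_div_iff₀ (by norm_num)]
    linarith
  have h2 : kk ^ 3 < (1000000 / 793701) ^ 3 := pow_lt_pow_left₀ h1 hp.le (by norm_num)
  rw [h] at h2
  norm_num at h2

lemma kk_hi : kk ≤ 1259922 / 1000000 := by
  have h := kk_cube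
  have hp := kk_pos
  by_contra hc
  push Not at hc
  have h2 : (1259922 / 1000000 : ℝ) ^ 3 < kk ^ 3 := pow_lt_pow_left₀ hc (by norm_num) (by norm_num)
  rw [h] at h2
  norm_num at h2

/-- the values of the form, normalised by the determinant so that the minimum of the face-centred
cubic form is one -/
noncomputable def vx (p : Fin 6 → ℝ) (n : Fin 3 → ℤ) : ℝ := qf p (rv n) / (kk * rad p)

/-- the Gaussian sum -/
noncomputable def Gs (p : Fin 6 → ℝ) (t : ℝ) : ℝ := ∑' n : N0, Real.exp (-(t * (vx p n.1 - 1)))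

/-- the Gaussian sum of the face-centred cubic form -/
noncomputable def Tt (t : ℝ) : ℝ := Gs Fp t

/-- the critical parameter -/
noncomputable def t0 : ℝ := Real.pi * kk

lemma gs_summable {p : Fin 6 → ℝ} (h : PD p) {t : ℝ} (ht : 0 < t) :
    Summable fun n : N0 => Real.exp (-(t * (vx p n.1 - 1))) := by
  obtain ⟨A, hA, hd⟩ := h
  obtain ⟨A', B', h1, h2, h3, h4⟩ := normalise hA hd
  have hk := kk_pos
  refine (((summable_gauss h1 (c := t / kk) (by positivity)).subtype
    {n : Fin 3 → ℤ | n ≠ 0}).mul_left (Real.exp t)).congr fun n => ?_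
  show Real.exp t * Real.exp (-(t / kk) * nsq A' (rv n.1)) = _
  rw [h3, ← Real.exp_add]
  congr 1
  unfold vx
  rw [mul_comm kk, ← div_div]
  ring

/-- the thirteen vectors -/
def Xs : Fin 13 → Fin 3 → ℤ :=
  ![![1, 1, 1], ![1, 0, 0], ![0, 1, 0], ![0, 0, 1], ![0, 1, 1], ![1, 0, 1], ![1, 1, 0],
    ![2, 1, 1], ![1, 2, 1], ![1, 1, 2], ![1, -1, 0], ![1, 0, -1], ![0, 1, -1]]

lemma Xs0 : ∀ s, sgv Xs s ≠ 0 := by decide
lemma Xsi : Function.Injective (sgv Xs) := by decide

/-- the seven cuts -/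
def Xc : Fin 7 → Fin 3 → ℤ :=
  ![![1, 1, 1], ![1, 0, 0], ![0, 1, 0], ![0, 0, 1], ![0, 1, 1], ![1, 0, 1], ![1, 1, 0]]

lemma Xc0 : ∀ s, sgv Xc s ≠ 0 := by decide
lemma Xci : Function.Injective (sgv Xc) := by decide

lemma vx_neg (p : Fin 6 → ℝ) (n : Fin 3 → ℤ) : vx p (-n) = vx p n := by
  unfold vx
  rw [qf_neg]

lemma gs_ge {p : Fin 6 → ℝ} (h : PD p) {t : ℝ} (ht : 0 < t) :
    2 * ∑ i, Real.exp (-(t * (vx p (Xs i) - 1))) ≤ Gs p t :=
  two_sum_le Xs Xs0 Xsi (fun n => Real.exp (-(t * (vx p n - 1)))) (fun n => by simp only [vx_neg])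
    (fun _ => (Real.exp_pos _).le) (gs_summable h ht)

lemma gs_ge7 {p : Fin 6 → ℝ} (h : PD p) {t : ℝ} (ht : 0 < t) :
    2 * ∑ i, Real.exp (-(t * (vx p (Xc i) - 1))) ≤ Gs p t :=
  two_sum_le Xc Xc0 Xci (fun n => Real.exp (-(t * (vx p n - 1)))) (fun n => by simp only [vx_neg])
    (fun _ => (Real.exp_pos _).le) (gs_summable h ht)

/-- the tangent bound -/
lemma tang {w s : ℝ} (hw0 : 0 ≤ w) (hw : w ≤ Real.exp (-s)) (y : ℝ) :
    w * (1 + s - y) ≤ Real.exp (-y) := by
  rcases le_total 0 (1 + s - y) with h | h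
  · calc w * (1 + s - y) ≤ Real.exp (-s) * (1 + s - y) := mul_le_mul_of_nonneg_right hw h
      _ ≤ Real.exp (-s) * Real.exp (s - y) := by
        refine mul_le_mul_of_nonneg_left ?_ (Real.exp_pos _).le
        have := Real.add_one_le_exp (s - y)
        linarith
      _ = Real.exp (-y) := by
        rw [← Real.exp_add]
        congr 1
        ring
  · exact le_trans (mul_nonpos_of_nonneg_of_nonpos hw0 h) (Real.exp_pos _).le

/-- the entropy bound -/
lemma entropy {m : ℕ} (l z : Fin m → ℝ) (hl : ∀ i, 0 ≤ l i) (hs : ∑ i, l i = 1) :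
    Real.exp (∑ i, l i * (z i - Real.log (l i))) ≤ ∑ i, Real.exp (z i) := by
  set c := ∑ i, l i * (z i - Real.log (l i)) with hc
  have h1 : ∀ i, Real.exp c * (l i * (1 + (z i - Real.log (l i)) - c)) ≤ Real.exp (z i) := by
    intro i
    rcases (hl i).eq_or_lt with h | h
    · rw [← h]
      simp only [zero_mul, mul_zero]
      exact (Real.exp_pos _).le
    · have e : Real.exp (z i) = l i * (Real.exp c * Real.exp (z i - Real.log (l i) - c)) := by
        rw [← Real.exp_add]
        have : c + (z i - Real.log (l i) - c) = z i - Real.log (l i) := by ring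
        rw [this, Real.exp_sub, Real.exp_log h]
        field_simp
      rw [e]
      have h2 := Real.add_one_le_exp (z i - Real.log (l i) - c)
      have h3 := Real.exp_pos c
      calc Real.exp c * (l i * (1 + (z i - Real.log (l i)) - c))
          = l i * (Real.exp c * (z i - Real.log (l i) - c + 1)) := by ring
        _ ≤ _ := mul_le_mul_of_nonneg_left (mul_le_mul_of_nonneg_left h2 h3.le) h.le
  refine le_trans (le_of_eq ?_) (Finset.sum_le_sum fun i _ => h1 i)
  rw [← Finset.mul_sum]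
  have h2 : ∑ i, l i * (1 + (z i - Real.log (l i)) - c) = 1 := by
    have h3 : ∀ i, l i * (1 + (z i - Real.log (l i)) - c) =
        l i + l i * (z i - Real.log (l i)) - l i * c := fun i => by ring
    simp_rw [h3]
    rw [Finset.sum_sub_distrib, Finset.sum_add_distrib, ← Finset.sum_mul, hs, ← hc]
    ring
  rw [h2, mul_one]

/-- the property to be shown on a range of the parameter -/
def Want (I : Set ℝ) (p : Fin 6 → ℝ) : Prop := ∀ t ∈ I, t0 < t →
  Tt t < Gs p t ∨ ∃ c : ℝ, 0 < c ∧ p = c • Fp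

end Pool.Agent.V7H99
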