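import Pool.Agent.V7H99.Shl

/-!
# Bounds for the Gaussian sum of the face-centred cubic form and its first moment
-/

set_option autoImplicit false

open Matrix

namespace Pool.Agent.V7H99

open Pool.Agent.K1H99.FCC (N0 rv cc PD PD_Fp Fp)

lemma th35 : (1 + 2 * (Real.exp (-(35 / 100)) * (1 - Real.exp (-(35 / 100)) ^ 2)⁻¹)) ^ 3 ≤ 55 := by
  set y := Real.exp (-(35 / 100)) with hy
  have h1 : y ≤ 7047 / 10000 := by
    have h := Real.exp_bound' (x := 35 / 100) (by norm_num) (by norm_num) (n := 8) (by norm_num)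
    have h2 : (1:ℝ) / (7047 / 10000) ≤ Real.exp (35 / 100) := by
      refine le_trans ?_ (Real.sum_le_exp_of_nonneg (by norm_num) 8)
      norm_num [Finset.sum_range_succ, Nat.factorial]
    rw [hy, Real.exp_neg, inv_le_comm₀ (Real.exp_pos _) (by norm_num)]
    rw [← one_div]
    exact h2
  have h0 : 0 < y := Real.exp_pos _
  have h2 : 0 < 1 - y ^ 2 := by nlinarith
  have h3 : (1 - y ^ 2)⁻¹ ≤ (1 - (7047 / 10000) ^ 2)⁻¹ := by
    apply inv_anti₀ (by norm_num)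
    nlinarith
  have h4 : y * (1 - y ^ 2)⁻¹ ≤ 7047 / 10000 * (1 - (7047 / 10000) ^ 2)⁻¹ :=
    mul_le_mul h1 h3 (inv_pos.2 h2).le (by norm_num)
  have h5 : 0 ≤ y * (1 - y ^ 2)⁻¹ := mul_nonneg h0.le (inv_pos.2 h2).le
  calc (1 + 2 * (y * (1 - y ^ 2)⁻¹)) ^ 3 ≤
      (1 + 2 * (7047 / 10000 * (1 - (7047 / 10000) ^ 2)⁻¹)) ^ 3 := by
        gcongr
    _ ≤ 55 := by norm_num

lemma exp_neg_le_of {a c : ℝ} (hc : 0 < c) (h : 1 / c ≤ Real.exp a) : Real.exp (-a) ≤ c := by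
  rw [Real.exp_neg, inv_le_comm₀ (Real.exp_pos _) hc, ← one_div]
  exact h

lemma exp9 : Real.exp (-(92 / 10)) ≤ 1 / 8000 := by
  refine exp_neg_le_of (by norm_num) ?_
  have h1 : Real.exp 9 ≤ Real.exp (92 / 10) := Real.exp_le_exp.2 (by norm_num)
  have h2 : Real.exp 9 = Real.exp 1 ^ 9 := by
    rw [← Real.exp_nat_mul]
    norm_num
  have h3 := Real.exp_one_gt_d9
  have h4 : (2718 / 1000 : ℝ) ^ 9 ≤ Real.exp 1 ^ 9 := by
    gcongr
    linarith
  have h5 : (8000:ℝ) ≤ (2718 / 1000) ^ 9 := by norm_num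
  norm_num
  linarith

lemma exp10 : Real.exp (-(109 / 10)) ≤ 1 / 20000 := by
  refine exp_neg_le_of (by norm_num) ?_
  have h1 : Real.exp 10 ≤ Real.exp (109 / 10) := Real.exp_le_exp.2 (by norm_num)
  have h2 : Real.exp 10 = Real.exp 1 ^ 10 := by
    rw [← Real.exp_nat_mul]
    norm_num
  have h3 := Real.exp_one_gt_d9
  have h4 : (2718 / 1000 : ℝ) ^ 10 ≤ Real.exp 1 ^ 10 := by
    gcongr
    linarith
  have h5 : (20000:ℝ) ≤ (2718 / 1000) ^ 10 := by norm_num
  norm_num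
  linarith

lemma x37 {t : ℝ} (ht : 37 / 10 ≤ t) : Real.exp (-t) ≤ 2474 / 100000 := by
  have h1 : Real.exp (-t) ≤ Real.exp (-(37 / 10)) := Real.exp_le_exp.2 (by linarith)
  refine h1.trans (exp_neg_le_of (by norm_num) ?_)
  refine le_trans ?_ (Real.sum_le_exp_of_nonneg (by norm_num) 16)
  norm_num [Finset.sum_range_succ, Nat.factorial]

lemma expk (t : ℝ) (k m : ℕ) (h : m = 2 * k + 2) :
    Real.exp (-(t * ((m : ℝ) / 2 - 1))) = Real.exp (-t) ^ k := by
  rw [← Real.exp_nat_mul]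
  congr 1
  rw [h]
  push_cast
  ring

/-- the upper bound for the Gaussian sum of the face-centred cubic form -/
lemma tt_lt {t : ℝ} (ht : 37 / 10 ≤ t) : Tt t < 12 + 6 * Real.exp (-t) + 24 * Real.exp (-t) ^ 2 +
    13 * Real.exp (-t) ^ 3 := by
  have ht0 : 0 < t := by linarith
  set x := Real.exp (-t) with hx
  have hx0 : 0 < x := Real.exp_pos _
  have hx1 : x ≤ 2474 / 100000 := x37 ht
  set f : ℕ → ℝ := fun m => Real.exp (-(t * ((m : ℝ) / 2 - 1))) with hf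
  have e : ∀ n : N0, Real.exp (-(t * (vx Fp n.1 - 1))) = f (nz (JG n)) := by
    intro n
    rw [hf, vx_Fp]
    simp only
    rw [nz_JG]
  have hs : Summable fun n : N0 => f (nz (JG n)) := by
    simp_rw [← e]
    exact gs_summable PD_Fp ht0
  have h := shell JG JG_inj SD 16 JG_mem f (fun m => (Real.exp_pos _).le) hs
    (K := x ^ 3 * Real.exp (-(92 / 10))) (μ := 35 / 100) (by norm_num) (by positivity)
    (fun m hm => by
      have hm' : (16:ℝ) ≤ m := by exact_mod_cast hm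
      rw [hf, hx, ← Real.exp_nat_mul, ← Real.exp_add, ← Real.exp_add]
      apply Real.exp_le_exp.2
      push_cast
      nlinarith [mul_nonneg (sub_nonneg.2 ht) (show (0:ℝ) ≤ m / 2 - 4 by linarith)])
  have h1 : Tt t = ∑' n : N0, f (nz (JG n)) := tsum_congr e
  rw [h1]
  refine lt_of_le_of_lt h ?_
  rw [sum_SD]
  have k2 : f 2 = 1 := by
    have := expk t 0 2 rfl
    rw [pow_zero] at this
    exact this
  have k4 : f 4 = x := by
    have := expk t 1 4 rfl
    rw [pow_one] at this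
    exact this
  have k6 : f 6 = x ^ 2 := expk t 2 6 rfl
  have k8 : f 8 = x ^ 3 := expk t 3 8 rfl
  have k10 : f 10 = x ^ 4 := expk t 4 10 rfl
  have k12 : f 12 = x ^ 5 := expk t 5 12 rfl
  have k14 : f 14 = x ^ 6 := expk t 6 14 rfl
  rw [k2, k4, k6, k8, k10, k12, k14]
  have h9 := exp9
  have h35 := th35
  have hx3 : 0 < x ^ 3 := by positivity
  have t1 : x ^ 3 * Real.exp (-(92 / 10)) *
      (1 + 2 * (Real.exp (-(35 / 100)) * (1 - Real.exp (-(35 / 100)) ^ 2)⁻¹)) ^ 3 ≤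
      x ^ 3 * (1 / 8000) * 55 := by
    have h10 : 0 ≤ (1 + 2 * (Real.exp (-(35 / 100)) * (1 - Real.exp (-(35 / 100)) ^ 2)⁻¹)) ^ 3 := by
      have h11 : Real.exp (-(35 / 100)) ^ 2 < 1 := by
        have h12 : Real.exp (-(35 / 100)) < 1 := by
          rw [Real.exp_lt_one_iff]
          norm_num
        nlinarith [Real.exp_pos (-(35 / 100))]
      have h13 : 0 ≤ (1 - Real.exp (-(35 / 100)) ^ 2)⁻¹ := inv_nonneg.2 (by linarith)
      positivity
    calc _ ≤ x ^ 3 * (1 / 8000) *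
        (1 + 2 * (Real.exp (-(35 / 100)) * (1 - Real.exp (-(35 / 100)) ^ 2)⁻¹)) ^ 3 := by
          refine mul_le_mul_of_nonneg_right (mul_le_mul_of_nonneg_left h9 hx3.le) h10
      _ ≤ _ := mul_le_mul_of_nonneg_left h35 (by positivity)
  have t2 : 24 * x ^ 4 + 8 * x ^ 5 + 48 * x ^ 6 ≤ 7 / 10 * x ^ 3 := by
    have : 24 * x ^ 4 + 8 * x ^ 5 + 48 * x ^ 6 = x ^ 3 * (24 * x + 8 * x ^ 2 + 48 * x ^ 3) := by ring
    rw [this, mul_comm]
    refine mul_le_mul_of_nonneg_right ?_ hx3.le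
    have hx2 : x ^ 2 ≤ (2474 / 100000) ^ 2 := by gcongr
    have hx3' : x ^ 3 ≤ (2474 / 100000) ^ 3 := by gcongr
    nlinarith
  nlinarith

lemma mt_le {t : ℝ} (ht : 37 / 10 ≤ t) : Mt t ≤ 12 + 12 * Real.exp (-t) + 74 * Real.exp (-t) ^ 2 := by
  have ht0 : 0 < t := by linarith
  set x := Real.exp (-t) with hx
  have hx0 : 0 < x := Real.exp_pos _
  have hx1 : x ≤ 2474 / 100000 := x37 ht
  set f : ℕ → ℝ := fun m => (m : ℝ) / 2 * Real.exp (-(t * ((m : ℝ) / 2 - 1))) with hf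
  have e : ∀ n : N0, (1 / 2 * Real.exp (-(t * ((cc n 0 ^ 2 + cc n 1 ^ 2 + cc n 2 ^ 2) / 2 - 1)))) *
      (cc n 0 ^ 2 + cc n 1 ^ 2 + cc n 2 ^ 2) = f (nz (JG n)) := by
    intro n
    rw [hf]
    simp only
    rw [nz_JG]
    ring
  have hs : Summable fun n : N0 => f (nz (JG n)) := by
    simp_rw [← e]
    exact mt_summable ht0
  have h := shell JG JG_inj SD 16 JG_mem f (fun m => by positivity) hs
    (K := x ^ 2 * (4 * Real.exp (-(109 / 10)))) (μ := 35 / 100) (by norm_num) (by positivity)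
    (fun m hm => by
      have hm' : (16:ℝ) ≤ m := by exact_mod_cast hm
      have h1 : (m : ℝ) / 2 ≤ 4 * Real.exp (m / 8) := by
        have := Real.add_one_le_exp ((m : ℝ) / 8)
        linarith
      have h2 : Real.exp (m / 8) * Real.exp (-(t * ((m : ℝ) / 2 - 1))) ≤
          x ^ 2 * Real.exp (-(109 / 10)) * Real.exp (-(35 / 100) * m) := by
        rw [hx, ← Real.exp_nat_mul, ← Real.exp_add, ← Real.exp_add, ← Real.exp_add]
        apply Real.exp_le_exp.2
        push_cast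
        nlinarith [mul_nonneg (sub_nonneg.2 ht) (show (0:ℝ) ≤ m / 2 - 3 by linarith)]
      have h3 := mul_le_mul_of_nonneg_right h1 (Real.exp_pos (-(t * ((m : ℝ) / 2 - 1)))).le
      calc f m = (m : ℝ) / 2 * Real.exp (-(t * ((m : ℝ) / 2 - 1))) := rfl
        _ ≤ 4 * Real.exp (m / 8) * Real.exp (-(t * ((m : ℝ) / 2 - 1))) := h3
        _ = 4 * (Real.exp (m / 8) * Real.exp (-(t * ((m : ℝ) / 2 - 1)))) := by ring
        _ ≤ 4 * (x ^ 2 * Real.exp (-(109 / 10)) * Real.exp (-(35 / 100) * m)) :=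
          mul_le_mul_of_nonneg_left h2 (by norm_num)
        _ = _ := by ring)
  have h1 : Mt t = ∑' n : N0, f (nz (JG n)) := tsum_congr e
  rw [h1]
  refine h.trans ?_
  rw [sum_SD]
  have k2 : f 2 = 1 := by
    have := expk t 0 2 rfl
    rw [pow_zero] at this
    simp only [hf]
    rw [this]
    norm_num
  have k4 : f 4 = 2 * x := by
    have := expk t 1 4 rfl
    rw [pow_one] at this
    simp only [hf]
    rw [this, ← hx]
    norm_num
  have k6 : f 6 = 3 * x ^ 2 := by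
    simp only [hf]
    rw [expk t 2 6 rfl, ← hx]
    norm_num
  have k8 : f 8 = 4 * x ^ 3 := by
    simp only [hf]
    rw [expk t 3 8 rfl, ← hx]
    norm_num
  have k10 : f 10 = 5 * x ^ 4 := by
    simp only [hf]
    rw [expk t 4 10 rfl, ← hx]
    norm_num
  have k12 : f 12 = 6 * x ^ 5 := by
    simp only [hf]
    rw [expk t 5 12 rfl, ← hx]
    norm_num
  have k14 : f 14 = 7 * x ^ 6 := by
    simp only [hf]
    rw [expk t 6 14 rfl, ← hx]
    norm_num
  rw [k2, k4, k6, k8, k10, k12, k14]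
  have h9 := exp10
  have h35 := th35
  have hx2 : 0 < x ^ 2 := by positivity
  have t1 : x ^ 2 * (4 * Real.exp (-(109 / 10))) *
      (1 + 2 * (Real.exp (-(35 / 100)) * (1 - Real.exp (-(35 / 100)) ^ 2)⁻¹)) ^ 3 ≤
      x ^ 2 * (4 * (1 / 20000)) * 55 := by
    have h10 : 0 ≤ (1 + 2 * (Real.exp (-(35 / 100)) * (1 - Real.exp (-(35 / 100)) ^ 2)⁻¹)) ^ 3 := by
      have h11 : Real.exp (-(35 / 100)) ^ 2 < 1 := by
        have h12 : Real.exp (-(35 / 100)) < 1 := by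
          rw [Real.exp_lt_one_iff]
          norm_num
        nlinarith [Real.exp_pos (-(35 / 100))]
      have h13 : 0 ≤ (1 - Real.exp (-(35 / 100)) ^ 2)⁻¹ := inv_nonneg.2 (by linarith)
      positivity
    calc _ ≤ x ^ 2 * (4 * (1 / 20000)) *
        (1 + 2 * (Real.exp (-(35 / 100)) * (1 - Real.exp (-(35 / 100)) ^ 2)⁻¹)) ^ 3 := by
          refine mul_le_mul_of_nonneg_right (mul_le_mul_of_nonneg_left ?_ hx2.le) h10
          linarith
      _ ≤ _ := mul_le_mul_of_nonneg_left h35 (by positivity)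
  have t2 : 12 * (4 * x ^ 3) + 24 * (5 * x ^ 4) + 8 * (6 * x ^ 5) + 48 * (7 * x ^ 6) ≤
      13 / 10 * x ^ 2 := by
    have : 12 * (4 * x ^ 3) + 24 * (5 * x ^ 4) + 8 * (6 * x ^ 5) + 48 * (7 * x ^ 6) =
      x ^ 2 * (48 * x + 120 * x ^ 2 + 48 * x ^ 3 + 336 * x ^ 4) := by ring
    rw [this, mul_comm]
    refine mul_le_mul_of_nonneg_right ?_ hx2.le
    have hx2' : x ^ 2 ≤ (2474 / 100000) ^ 2 := by gcongr
    have hx3' : x ^ 3 ≤ (2474 / 100000) ^ 3 := by gcongr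
    have hx4' : x ^ 4 ≤ (2474 / 100000) ^ 4 := by gcongr
    nlinarith
  nlinarith

end Pool.Agent.V7H99
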