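import Pool.Agent.V7H99.Du

/-!
# The body-centred cubic form above the critical parameter
-/

set_option autoImplicit false

open Matrix

namespace Pool.Agent.V7H99

open Pool.Agent.K1H99.FCC (N0 rv nsq Qm qf af PD dt rad rad_pos rad_cube dt_pos Fp pp dt_pp
  pd_of_dt PD_Fp Fp_eq normalise nsq_nonneg two_sum_le sgv cc)

lemma vx_nonneg {p : Fin 6 → ℝ} (h : PD p) (n : Fin 3 → ℤ) : 0 ≤ vx p n := by
  obtain ⟨A, hA, hd⟩ := h
  obtain ⟨A', B', h1, h2, h3, h4⟩ := normalise hA hd
  have h5 : vx p n = nsq A' (rv n) / kk := by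
    rw [h3]
    unfold vx
    rw [mul_comm, div_div]
  rw [h5]
  exact div_nonneg (nsq_nonneg _ _) kk_pos.le

/-- summability of the first moment -/
lemma gs_summable1 {p : Fin 6 → ℝ} (h : PD p) {t : ℝ} (ht : 0 < t) :
    Summable fun n : N0 => vx p n.1 * Real.exp (-(t * (vx p n.1 - 1))) := by
  have h1 := (gs_summable h (t := t / 2) (by positivity)).mul_left (4 / t * Real.exp (t / 2))
  refine Summable.of_nonneg_of_le (fun n => mul_nonneg (vx_nonneg h _) (Real.exp_pos _).le)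
    (fun n => ?_) h1
  set y := vx p n.1 with hy
  have hy0 : 0 ≤ y := vx_nonneg h _
  have e1 : Real.exp (-(t * (y - 1))) =
      Real.exp (-(t / 2 * (y - 1))) * (Real.exp (t / 2) * Real.exp (-(t / 2 * y))) := by
    rw [← Real.exp_add, ← Real.exp_add]
    congr 1
    ring
  have e2 : y * Real.exp (-(t / 2 * y)) ≤ 4 / t := by
    have h1 := Real.add_one_le_exp (t / 2 * y)
    have h2 : Real.exp (t / 2 * y) * Real.exp (-(t / 2 * y)) = 1 := by
      rw [← Real.exp_add]
      simp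
    have h3 := Real.exp_pos (-(t / 2 * y))
    rw [le_div_iff₀ ht]
    nlinarith
  rw [e1]
  calc y * (Real.exp (-(t / 2 * (y - 1))) * (Real.exp (t / 2) * Real.exp (-(t / 2 * y))))
      = (Real.exp (t / 2) * Real.exp (-(t / 2 * (y - 1)))) * (y * Real.exp (-(t / 2 * y))) := by
        ring
    _ ≤ (Real.exp (t / 2) * Real.exp (-(t / 2 * (y - 1)))) * (4 / t) :=
        mul_le_mul_of_nonneg_left e2 (by positivity)
    _ = _ := by ring

/-- the body-centred cubic form -/
def Bp : Fin 6 → ℝ := ![1, 1, 1, 1, 1, 1]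

lemma Bp_nonneg (i : Fin 6) : 0 ≤ Bp i := by
  unfold Bp
  fin_cases i <;> simp

lemma dt_Bp : dt Bp = 16 := by
  unfold dt Bp
  simp
  norm_num

lemma PD_Bp : PD Bp := pd_of_dt Bp_nonneg (by rw [dt_Bp]; norm_num)

/-- integral cubic coordinates -/
def JB (n : N0) : ℤ × ℤ × ℤ :=
  (n.1 0 + n.1 1 - n.1 2, n.1 0 - n.1 1 + n.1 2, -n.1 0 + n.1 1 + n.1 2)

lemma JB_inj : Function.Injective JB := by
  intro a b h
  unfold JB at h
  simp only [Prod.mk.injEq] at h
  obtain ⟨h1, h2, h3⟩ := h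
  apply Subtype.ext
  funext i
  fin_cases i
  · show a.1 0 = b.1 0
    omega
  · show a.1 1 = b.1 1
    omega
  · show a.1 2 = b.1 2
    omega

lemma nz_JB_ne (n : N0) : nz (JB n) ≠ 0 := by
  intro h
  obtain ⟨h1, h2, h3⟩ := nz_eq_zero h
  unfold JB at h1 h2 h3
  simp only at h1 h2 h3
  apply n.2
  funext i
  fin_cases i
  · show n.1 0 = 0
    omega
  · show n.1 1 = 0
    omega
  · show n.1 2 = 0
    omega

lemma JB_mem (n : N0) (h : nz (JB n) < 16) : JB n ∈ SB := by
  unfold SB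
  rw [Finset.mem_filter]
  refine ⟨mem_box h, ?_, ?_, nz_JB_ne n, h⟩
  · unfold JB
    simp only
    omega
  · unfold JB
    simp only
    omega

lemma SB_ge : ∀ c ∈ SB, 3 ≤ nz c := by decide +kernel

lemma SD_ge : ∀ c ∈ SD, 2 ≤ nz c := by decide +kernel

lemma JB_ge (n : N0) : 3 ≤ nz (JB n) := by
  by_cases h : nz (JB n) < 16
  · exact SB_ge _ (JB_mem n h)
  · omega

lemma JG_ge (n : N0) : 2 ≤ nz (JG n) := by
  by_cases h : nz (JG n) < 16
  · exact SD_ge _ (JG_mem n h)
  · omega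

lemma vx_Bp (n : N0) : vx Bp n.1 = (nz (JB n) : ℝ) * (kk / 4) := by
  have hk := kk_pos
  have hr : kk * rad Bp = 4 / kk := by
    have hrp : 0 < rad Bp := rad_pos (dt_pos PD_Bp)
    refine (pow_left_inj₀ (by positivity) (by positivity) (three_ne_zero)).1 ?_
    rw [mul_pow, rad_cube (dt_pos PD_Bp).le, dt_Bp, div_pow, kk_cube]
    norm_num
  unfold vx
  rw [hr, nz_cast]
  unfold qf Bp rv JB
  simp
  field_simp
  ring

lemma vx_Fp_ge (n : N0) : 1 ≤ vx Fp n.1 := by
  rw [vx_Fp, ← nz_JG]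
  have : (2:ℝ) ≤ nz (JG n) := by exact_mod_cast JG_ge n
  linarith

lemma t0_lo : 3958155 / 1000000 ≤ t0 := by
  unfold t0
  have h1 := Real.pi_gt_d6
  have h2 := kk_lo
  have h3 := kk_pos
  nlinarith

lemma t0_hi : t0 ≤ 3958163 / 1000000 := by
  unfold t0
  have h1 := Real.pi_lt_d6
  have h2 := kk_hi
  have h3 := kk_pos
  nlinarith [Real.pi_pos]

lemma t0_pos : 0 < t0 := by
  have := t0_lo
  linarith

/-- the second shell of the face-centred cubic form -/
def X3 : Fin 3 → Fin 3 → ℤ := ![![1, 1, 0], ![1, -1, 0], ![1, 1, 2]]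

lemma X3_0 : ∀ s, sgv X3 s ≠ 0 := by decide
lemma X3_i : Function.Injective (sgv X3) := by decide

lemma tt_drop {t : ℝ} (h : t0 ≤ t) : 6 * ((t - t0) * Real.exp (-t)) ≤ Tt t0 - Tt t := by
  have h0 := t0_pos
  have ht : 0 < t := by linarith
  have s1 := gs_summable PD_Fp h0
  have s2 := gs_summable PD_Fp ht
  have h1 := two_sum_le X3 X3_0 X3_i (fun m => Real.exp (-(t0 * (vx Fp m - 1))) -
    Real.exp (-(t * (vx Fp m - 1)))) (fun n => by simp only [vx_neg])
    (fun n => by
      have := vx_Fp_ge n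
      rw [sub_nonneg]
      apply Real.exp_le_exp.2
      nlinarith)
    (s1.sub s2)
  have h2 : ∑' n : N0, (Real.exp (-(t0 * (vx Fp n.1 - 1))) - Real.exp (-(t * (vx Fp n.1 - 1)))) =
      Tt t0 - Tt t := s1.tsum_sub s2
  rw [h2] at h1
  have v2 : ∀ i : Fin 3, qf Fp (rv (X3 i)) = 4 → vx Fp (X3 i) = 2 := by
    intro i h
    unfold vx
    rw [kk_rad_Fp, h]
    norm_num
  have v : ∀ i : Fin 3, vx Fp (X3 i) = 2 := by
    intro i
    apply v2
    fin_cases i <;> (unfold qf Fp rv X3; simp; norm_num)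
  have h3 : (t - t0) * Real.exp (-t) ≤ Real.exp (-t0) - Real.exp (-t) := by
    have e : Real.exp (-t0) = Real.exp (-t) * Real.exp (t - t0) := by
      rw [← Real.exp_add]
      congr 1
      ring
    have := Real.add_one_le_exp (t - t0)
    have h4 := Real.exp_pos (-t)
    rw [e]
    nlinarith
  simp only [v, Fin.sum_univ_three] at h1
  have e1 : -(t0 * (2 - 1)) = -t0 := by ring
  have e2 : -(t * (2 - 1)) = -t := by ring
  rw [e1, e2] at h1
  linarith

lemma exp_lb41 : 16568 / 1000000 ≤ Real.exp (-(41 / 10)) := by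
  have h1 : Real.exp (41 / 10) = Real.exp 1 ^ 4 * Real.exp (1 / 10) := by
    rw [← Real.exp_nat_mul, ← Real.exp_add]
    norm_num
  have h2 : Real.exp (1 / 10) ≤ 110518 / 100000 := by
    refine (Real.exp_bound' (by norm_num) (by norm_num) (n := 6) (by norm_num)).trans ?_
    norm_num [Finset.sum_range_succ, Nat.factorial]
  have h3 : Real.exp 1 ^ 4 ≤ (27182819 / 10000000) ^ 4 := by
    have := Real.exp_one_lt_d9
    gcongr
    linarith
  have h4 : Real.exp (41 / 10) ≤ (27182819 / 10000000) ^ 4 * (110518 / 100000) := by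
    rw [h1]
    exact mul_le_mul h3 h2 (Real.exp_pos _).le (by norm_num)
  rw [Real.exp_neg, le_inv_comm₀ (by norm_num) (Real.exp_pos _)]
  refine h4.trans ?_
  norm_num

lemma tt_t0_ge : 12 + 6 * (16568 / 1000000) ≤ Tt t0 := by
  have h0 := t0_pos
  have h1 := two_sum_le X9 X9_0 X9_i (fun m => Real.exp (-(t0 * (vx Fp m - 1))))
    (fun n => by simp only [vx_neg]) (fun n => (Real.exp_pos _).le) (gs_summable PD_Fp h0)
  have v1 : ∀ i : Fin 9, qf Fp (rv (X9 i)) = 2 → vx Fp (X9 i) = 1 := by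
    intro i h
    unfold vx
    rw [kk_rad_Fp, h]
    norm_num
  have v2 : ∀ i : Fin 9, qf Fp (rv (X9 i)) = 4 → vx Fp (X9 i) = 2 := by
    intro i h
    unfold vx
    rw [kk_rad_Fp, h]
    norm_num
  rw [sumx9', v1 0 (by unfold qf Fp rv X9; simp; norm_num), v1 1 (by unfold qf Fp rv X9; simp; norm_num),
    v1 2 (by unfold qf Fp rv X9; simp; norm_num), v1 3 (by unfold qf Fp rv X9; simp; norm_num),
    v1 4 (by unfold qf Fp rv X9; simp; norm_num), v1 5 (by unfold qf Fp rv X9; simp; norm_num),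
    v2 6 (by unfold qf Fp rv X9; simp; norm_num), v2 7 (by unfold qf Fp rv X9; simp; norm_num),
    v2 8 (by unfold qf Fp rv X9; simp; norm_num)] at h1
  have e1 : Real.exp (-(t0 * (1 - 1))) = 1 := by simp
  have e2 : -(t0 * (2 - 1)) = -t0 := by ring
  rw [e1, e2] at h1
  have h2 := exp_lb41
  have h3 : Real.exp (-(41 / 10)) ≤ Real.exp (-t0) := by
    apply Real.exp_le_exp.2
    have := t0_hi
    linarith
  have h4 : ∑' n : N0, Real.exp (-(t0 * (vx Fp n.1 - 1))) = Tt t0 := rfl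
  rw [h4] at h1
  linarith

/-- upper bounds for exponentials -/
lemma exp_ub {a c : ℝ} (n : ℕ) (ha : 0 ≤ a) (hc : 0 < c)
    (h : 1 / c ≤ ∑ i ∈ Finset.range n, a ^ i / i.factorial) : Real.exp (-a) ≤ c :=
  exp_neg_le_of hc (h.trans (Real.sum_le_exp_of_nonneg ha n))

lemma u4 : Real.exp (-(10288 / 10000)) ≤ 3575 / 10000 := by
  refine exp_ub 12 (by norm_num) (by norm_num) ?_
  norm_num [Finset.sum_range_succ, Nat.factorial]

lemma u8 : Real.exp (-(6015 / 1000)) ≤ 245 / 100000 := by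
  refine exp_ub 24 (by norm_num) (by norm_num) ?_
  norm_num [Finset.sum_range_succ, Nat.factorial]

lemma u11 : Real.exp (-(9755 / 1000)) ≤ 6 / 100000 := by
  refine exp_ub 32 (by norm_num) (by norm_num) ?_
  norm_num [Finset.sum_range_succ, Nat.factorial]

lemma u16 : Real.exp (-(838 / 100)) ≤ 23 / 100000 := by
  refine exp_ub 32 (by norm_num) (by norm_num) ?_
  norm_num [Finset.sum_range_succ, Nat.factorial]

/-- the derivative of the sum of the body-centred cubic form at the critical parameter -/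
noncomputable def DB : ℝ := ∑' n : N0, (vx Bp n.1 - 1) * Real.exp (-(t0 * (vx Bp n.1 - 1)))

lemma db_summable : Summable fun n : N0 => (vx Bp n.1 - 1) * Real.exp (-(t0 * (vx Bp n.1 - 1))) := by
  refine ((gs_summable1 PD_Bp t0_pos).sub (gs_summable PD_Bp t0_pos)).congr fun n => ?_
  ring

lemma db_le (hT : Gs Bp t0 = Tt t0) : DB ≤ 930 / 10000 := by
  have hk1 := kk_lo
  have hk2 := kk_hi
  have hk0 := kk_pos
  have hl := t0_lo
  have hh := t0_hi
  have h0 := t0_pos
  have hs0 := gs_summable PD_Bp h0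
  have hs1 := db_summable
  set f : ℕ → ℝ := fun m => ((m - 3 : ℕ) : ℝ) * Real.exp (-(t0 * ((m : ℝ) * (kk / 4) - 1))) with hf
  have e : ∀ n : N0, (vx Bp n.1 - 1) * Real.exp (-(t0 * (vx Bp n.1 - 1))) +
      (1 - 3 * (kk / 4)) * Real.exp (-(t0 * (vx Bp n.1 - 1))) = kk / 4 * f (nz (JB n)) := by
    intro n
    have h3 := JB_ge n
    rw [vx_Bp, hf]
    simp only
    rw [Nat.cast_sub h3]
    push_cast
    ring
  have hfs' : Summable fun n : N0 => kk / 4 * f (nz (JB n)) :=
    (hs1.add (hs0.mul_left (1 - 3 * (kk / 4)))).congr e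
  have hfs : Summable fun n : N0 => f (nz (JB n)) :=
    (summable_mul_left_iff (by positivity)).1 hfs'
  have e2 : DB + (1 - 3 * (kk / 4)) * Tt t0 = kk / 4 * ∑' n : N0, f (nz (JB n)) := by
    rw [← hT, ← tsum_mul_left]
    unfold DB Gs
    rw [← tsum_mul_left, ← hs1.tsum_add (hs0.mul_left _)]
    exact tsum_congr e
  have h := shell JB JB_inj SB 16 JB_mem f (fun m => by positivity) hfs
    (K := 8 * Real.exp (-(838 / 100))) (μ := 35 / 100) (by norm_num) (by positivity)
    (fun m hm => by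
      have hm' : (16:ℝ) ≤ m := by exact_mod_cast hm
      have h1 : (((m - 3 : ℕ) : ℝ)) ≤ 8 * Real.exp (m / 8) := by
        have h2 := Real.add_one_le_exp ((m : ℝ) / 8)
        have h3 : (((m - 3 : ℕ) : ℝ)) ≤ m := by exact_mod_cast Nat.sub_le m 3
        linarith
      have h2 : Real.exp (m / 8) * Real.exp (-(t0 * ((m : ℝ) * (kk / 4) - 1))) ≤
          Real.exp (-(838 / 100)) * Real.exp (-(35 / 100) * m) := by
        rw [← Real.exp_add, ← Real.exp_add]
        apply Real.exp_le_exp.2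
        have hk3 : 12467 / 10000 ≤ t0 * (kk / 4) := by nlinarith
        nlinarith [mul_nonneg (sub_nonneg.2 hk3) (show (0:ℝ) ≤ m by linarith)]
      calc f m = (((m - 3 : ℕ) : ℝ)) * Real.exp (-(t0 * ((m : ℝ) * (kk / 4) - 1))) := rfl
        _ ≤ 8 * Real.exp (m / 8) * Real.exp (-(t0 * ((m : ℝ) * (kk / 4) - 1))) :=
          mul_le_mul_of_nonneg_right h1 (Real.exp_pos _).le
        _ = 8 * (Real.exp (m / 8) * Real.exp (-(t0 * ((m : ℝ) * (kk / 4) - 1)))) := by ring
        _ ≤ 8 * (Real.exp (-(838 / 100)) * Real.exp (-(35 / 100) * m)) :=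
          mul_le_mul_of_nonneg_left h2 (by norm_num)
        _ = _ := by ring)
  rw [sum_SB] at h
  have f3 : f 3 = 0 := by simp [hf]
  have f4 : f 4 ≤ 3575 / 10000 := by
    refine le_trans ?_ u4
    simp only [hf]
    norm_num
    nlinarith
  have f8 : f 8 ≤ 5 * (245 / 100000) := by
    refine le_trans ?_ (mul_le_mul_of_nonneg_left u8 (by norm_num))
    simp only [hf]
    norm_num
    nlinarith
  have f11 : f 11 ≤ 8 * (6 / 100000) := by
    refine le_trans ?_ (mul_le_mul_of_nonneg_left u11 (by norm_num))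
    simp only [hf]
    norm_num
    nlinarith
  have f12 : f 12 ≤ 9 * (6 / 100000) := by
    refine le_trans ?_ (mul_le_mul_of_nonneg_left u11 (by norm_num))
    simp only [hf]
    norm_num
    nlinarith
  have h35 := th35
  have h11 : 0 ≤ (1 + 2 * (Real.exp (-(35 / 100)) * (1 - Real.exp (-(35 / 100)) ^ 2)⁻¹)) ^ 3 := by
    have h11 : Real.exp (-(35 / 100)) ^ 2 < 1 := by
      have h12 : Real.exp (-(35 / 100)) < 1 := by
        rw [Real.exp_lt_one_iff]
        norm_num
      nlinarith [Real.exp_pos (-(35 / 100))]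
    have h13 : 0 ≤ (1 - Real.exp (-(35 / 100)) ^ 2)⁻¹ := inv_nonneg.2 (by linarith)
    positivity
  have t1 : 8 * Real.exp (-(838 / 100)) *
      (1 + 2 * (Real.exp (-(35 / 100)) * (1 - Real.exp (-(35 / 100)) ^ 2)⁻¹)) ^ 3 ≤
      8 * (23 / 100000) * 55 := by
    refine mul_le_mul ?_ h35 h11 (by norm_num)
    have := u16
    linarith
  have hT2 := tt_t0_ge
  have hD : DB = kk / 4 * ∑' n : N0, f (nz (JB n)) - (1 - 3 * (kk / 4)) * Tt t0 := by linarith
  rw [hD]
  have h20 : ∑' n : N0, f (nz (JB n)) ≤ 24091 / 10000 := by linarith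
  have h21 : kk / 4 * ∑' n : N0, f (nz (JB n)) ≤ kk / 4 * (24091 / 10000) :=
    mul_le_mul_of_nonneg_left h20 (by positivity)
  have h22 : (1 - 3 * (kk / 4)) * (12 + 6 * (16568 / 1000000)) ≤ (1 - 3 * (kk / 4)) * Tt t0 :=
    mul_le_mul_of_nonneg_left hT2 (by linarith)
  linarith

/-- above the critical parameter the body-centred cubic form is worse -/
theorem bcc_gt (hT : Gs Bp t0 = Tt t0) {t : ℝ} (h : t0 < t) (h2 : t ≤ 41 / 10) : Tt t < Gs Bp t := by
  have h0 := t0_pos
  have ht : 0 < t := by linarith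
  have s1 := gs_summable PD_Bp h0
  have s2 := gs_summable PD_Bp ht
  have s3 := db_summable
  have h3 := db_le hT
  have h4 := tt_drop h.le
  have h5 := exp_lb41
  have h6 : Real.exp (-(41 / 10)) ≤ Real.exp (-t) := Real.exp_le_exp.2 (by linarith)
  have h7 : Gs Bp t0 - (t - t0) * DB ≤ Gs Bp t := by
    have h8 : Gs Bp t0 - (t - t0) * DB = ∑' n : N0, (Real.exp (-(t0 * (vx Bp n.1 - 1))) -
        (t - t0) * ((vx Bp n.1 - 1) * Real.exp (-(t0 * (vx Bp n.1 - 1))))) := by
      rw [s1.tsum_sub (s3.mul_left (t - t0)), tsum_mul_left]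
      rfl
    rw [h8]
    refine (s1.sub (s3.mul_left (t - t0))).tsum_le_tsum (fun n => ?_) s2
    set y := vx Bp n.1 - 1 with hy
    have e : Real.exp (-(t * y)) = Real.exp (-(t0 * y)) * Real.exp (-((t - t0) * y)) := by
      rw [← Real.exp_add]
      congr 1
      ring
    have h9 := Real.add_one_le_exp (-((t - t0) * y))
    have h10 := mul_le_mul_of_nonneg_left h9 (Real.exp_pos (-(t0 * y))).le
    rw [e]
    linarith
  have h8 : (t - t0) * DB ≤ (t - t0) * (930 / 10000) := mul_le_mul_of_nonneg_left h3 (by linarith)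
  have h9 : (t - t0) * (16568 / 1000000) ≤ (t - t0) * Real.exp (-t) :=
    mul_le_mul_of_nonneg_left (h5.trans h6) (by linarith)
  have h10 : 0 < t - t0 := by linarith
  linarith

end Pool.Agent.V7H99
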