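import Pool.Agent.K1H99.FCC.Chk

/-!
# The certificate checker for Gaussian sums (simplex bisection in the cone of Selling parameters)
-/

set_option autoImplicit false

namespace Pool.Agent.V7H99

open Pool.Agent.K1H99.FCC

/-- a vertex: Selling parameters, a lower bound for the cube root of the determinant, and a packed
copy of the parameters (used for hints only) -/
structure V where
  a : Nat
  b : Nat
  c : Nat
  d : Nat
  e : Nat
  f : Nat
  g : Nat
  k : Nat

/-- constants of a range of the parameter -/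
structure Par where
  ta : Nat
  cn : Nat
  rn : Nat
  off : Nat
  m1 : Nat
  m2 : Nat
  u1 : Nat
  u2 : Nat
  k1 : Nat
  k2 : Nat
  nb : Nat
  kb : Nat
  fa : Nat
  fb : Nat

/-- the midpoint of two vertices, passed to a continuation which is called with the midpoint only if
it is integral -/
def md (v w : V) (k : V → Nat) : Nat :=
  frc (Nat.add v.a w.a) fun a => frc (Nat.add v.b w.b) fun b => frc (Nat.add v.c w.c) fun c =>
  frc (Nat.add v.d w.d) fun d => frc (Nat.add v.e w.e) fun e => frc (Nat.add v.f w.f) fun f =>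
  bif Nat.beq (Nat.mod a 2) 0 && Nat.beq (Nat.mod b 2) 0 && Nat.beq (Nat.mod c 2) 0 &&
    Nat.beq (Nat.mod d 2) 0 && Nat.beq (Nat.mod e 2) 0 && Nat.beq (Nat.mod f 2) 0 then
    frc (Nat.div a 2) fun a => frc (Nat.div b 2) fun b => frc (Nat.div c 2) fun c =>
    frc (Nat.div d 2) fun d => frc (Nat.div e 2) fun e => frc (Nat.div f 2) fun f =>
    frc (detN a b c d e f) fun D =>
    frc (cbr D 1385714504487) fun g =>
    frc (Nat.div (Nat.add v.k w.k) 2) fun h => k ⟨a, b, c, d, e, f, g, h⟩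
  else 0

/-- table entry -/
def te (T j : Nat) : Nat := (Nat.mod (Nat.shiftRight T (Nat.mul 32 j)) 4294967296)

/-- the linear test at a vertex -/
def tv (A1 A2 k1 k2 L0 L1 L2 L3 L4 L5 : Nat) (v : V) : Bool :=
  frc (Nat.add (Nat.mul L0 v.a) (Nat.add (Nat.mul L1 v.b) (Nat.add (Nat.mul L2 v.c)
    (Nat.add (Nat.mul L3 v.d) (Nat.add (Nat.mul L4 v.e) (Nat.mul L5 v.f)))))) fun l =>
  Nat.ble (Nat.mul k1 l) (Nat.mul A1 v.g) && Nat.ble (Nat.mul k2 l) (Nat.mul A2 v.g)

/-- the test of type A, given the hints -/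
def lA (P : Par) (v0 v1 v2 v3 v4 v5 : V) (j0 j1 j2 j3 j4 j5 j6 j7 j8 j9 j10 j11 j12 : Nat) : Bool :=
  frc (te P.ta j0) fun w0 =>
  frc (te P.ta j1) fun w1 =>
  frc (te P.ta j2) fun w2 =>
  frc (te P.ta j3) fun w3 =>
  frc (te P.ta j4) fun w4 =>
  frc (te P.ta j5) fun w5 =>
  frc (te P.ta j6) fun w6 =>
  frc (te P.ta j7) fun w7 =>
  frc (te P.ta j8) fun w8 =>
  frc (te P.ta j9) fun w9 =>
  frc (te P.ta j10) fun w10 =>
  frc (te P.ta j11) fun w11 =>
  frc (te P.ta j12) fun w12 =>
  frc (Nat.add w0 (Nat.add w1 (Nat.add w2 (Nat.add w3 (Nat.add w4 (Nat.add w5 (Nat.add w6 (Nat.add w7 (Nat.add w8 (Nat.add w9 (Nat.add w10 (Nat.add w11 w12)))))))))))) fun W0 =>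
  frc (Nat.mul 10000 (Nat.add (Nat.mul w0 j0) (Nat.add (Nat.mul w1 j1) (Nat.add (Nat.mul w2 j2) (Nat.add (Nat.mul w3 j3) (Nat.add (Nat.mul w4 j4) (Nat.add (Nat.mul w5 j5) (Nat.add (Nat.mul w6 j6) (Nat.add (Nat.mul w7 j7) (Nat.add (Nat.mul w8 j8) (Nat.add (Nat.mul w9 j9) (Nat.add (Nat.mul w10 j10) (Nat.add (Nat.mul w11 j11) (Nat.mul w12 j12)))))))))))))) fun W1 =>
  frc (Nat.add W1 (Nat.mul P.m1 W0)) fun a1 => frc (Nat.add W1 (Nat.mul P.m2 W0)) fun a2 =>
  Nat.ble P.u1 a1 && Nat.ble P.u2 a2 && Nat.beq P.fa 1 &&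
  frc (Nat.mul 1000000 (Nat.sub a1 P.u1)) fun A1 => frc (Nat.mul 1000000 (Nat.sub a2 P.u2)) fun A2 =>
  frc (Nat.add w0 (Nat.add w1 (Nat.add w5 (Nat.add w6 (Nat.add w8 (Nat.add w9 (Nat.add w10 (Nat.add w11 (Nat.mul 4 w7))))))))) fun L0 =>
  frc (Nat.add w0 (Nat.add w2 (Nat.add w4 (Nat.add w6 (Nat.add w7 (Nat.add w9 (Nat.add w10 (Nat.add w12 (Nat.mul 4 w8))))))))) fun L1 =>
  frc (Nat.add w0 (Nat.add w3 (Nat.add w4 (Nat.add w5 (Nat.add w7 (Nat.add w8 (Nat.add w11 (Nat.add w12 (Nat.mul 4 w9))))))))) fun L2 =>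
  frc (Nat.add w1 (Nat.add w2 (Nat.add w4 (Nat.add w5 (Nat.add w7 (Nat.add w8 (Nat.add w11 (Nat.add w12 (Nat.mul 4 w10))))))))) fun L3 =>
  frc (Nat.add w1 (Nat.add w3 (Nat.add w4 (Nat.add w6 (Nat.add w7 (Nat.add w9 (Nat.add w10 (Nat.add w12 (Nat.mul 4 w11))))))))) fun L4 =>
  frc (Nat.add w2 (Nat.add w3 (Nat.add w5 (Nat.add w6 (Nat.add w8 (Nat.add w9 (Nat.add w10 (Nat.add w11 (Nat.mul 4 w12))))))))) fun L5 =>
  tv A1 A2 P.k1 P.k2 L0 L1 L2 L3 L4 L5 v0 &&
  tv A1 A2 P.k1 P.k2 L0 L1 L2 L3 L4 L5 v1 &&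
  tv A1 A2 P.k1 P.k2 L0 L1 L2 L3 L4 L5 v2 &&
  tv A1 A2 P.k1 P.k2 L0 L1 L2 L3 L4 L5 v3 &&
  tv A1 A2 P.k1 P.k2 L0 L1 L2 L3 L4 L5 v4 &&
  tv A1 A2 P.k1 P.k2 L0 L1 L2 L3 L4 L5 v5

/-- hint number `x` -/
def hj (P : Par) (Z x : Nat) : Nat :=
  Nat.sub (Nat.mod (Nat.shiftRight Z (Nat.add 60 (Nat.mul 128 x))) 18446744073709551616) P.off

/-- the test of type A: `a` codes the weights of the reference point -/
def leafA (P : Par) (v0 v1 v2 v3 v4 v5 : V) (a : Nat) : Bool :=
  frc (Nat.mod (Nat.shiftRight a 0) 8) fun a0 =>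
  frc (Nat.mod (Nat.shiftRight a 3) 8) fun a1 =>
  frc (Nat.mod (Nat.shiftRight a 6) 8) fun a2 =>
  frc (Nat.mod (Nat.shiftRight a 9) 8) fun a3 =>
  frc (Nat.mod (Nat.shiftRight a 12) 8) fun a4 =>
  frc (Nat.mod (Nat.shiftRight a 15) 8) fun a5 =>
  frc (Nat.add (Nat.mul a0 v0.k) (Nat.add (Nat.mul a1 v1.k) (Nat.add (Nat.mul a2 v2.k) (Nat.add (Nat.mul a3 v3.k) (Nat.add (Nat.mul a4 v4.k) (Nat.mul a5 v5.k)))))) fun c =>
  frc (Nat.add (Nat.mul a0 v0.g) (Nat.add (Nat.mul a1 v1.g) (Nat.add (Nat.mul a2 v2.g) (Nat.add (Nat.mul a3 v3.g) (Nat.add (Nat.mul a4 v4.g) (Nat.mul a5 v5.g)))))) fun g =>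
  frc (Nat.div P.cn g) fun h =>
  frc (Nat.mod (Nat.shiftRight c 0) 18446744073709551616) fun c0 =>
  frc (Nat.mod (Nat.shiftRight c 64) 18446744073709551616) fun c1 =>
  frc (Nat.mod (Nat.shiftRight c 128) 18446744073709551616) fun c2 =>
  frc (Nat.mod (Nat.shiftRight c 192) 18446744073709551616) fun c3 =>
  frc (Nat.mod (Nat.shiftRight c 256) 18446744073709551616) fun c4 =>
  frc (Nat.mod (Nat.shiftRight c 320) 18446744073709551616) fun c5 =>
  frc (Nat.add P.rn (Nat.mul h (Nat.add (Nat.mul c0 7083271603906078757501937199839970337257857937141352842436785732787749620564963734575103536656650751233252190080651855409260105529588140142300059154629903179864367673108058977908842870619320834817141161718773734655596920285643537434670870991739605406707655048425795048810366148916528351927833597669602246972080074903350205548974236068536915307244790536245012962320748277149937112882830932218024510856976594382514745115672577) (Nat.add (Nat.mul c1 2410312426921032588580116606028314112912093247945688951359675039065257391591824016533474352905509900144103494451965296484684443235475068582064139409736931226942235203990503160260114156453279601369836205192116965031870357362842655784286154802458162135093785337250438652911281465288712045119000565195446487122518990257532220681932479262014775596010852761863778581467767107204654428898302575701904331031661306262690231016448672433980555935740077715783713394310250497)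 (Nat.add (Nat.mul c2 2410312426921032588580116606028314112919176519549595030117176976265097361929040242741837048151618984915581787730375921514925465647049386948683215579032507193709679288424899302736110052937791115131208910862817966964047501699283366271797817201159293048382710627295081454408792060482711821951622038962271683866894731243814524518561349587689502636669064810475820334849937712252292936500054920743441293148941930517035132570917755062433007698389043976877679648457097217) (Nat.add (Nat.mul c3 2410312426921032588580116606028314112919176519549595030117176976265097361929123506199394363344274386838200700414684598923593627897214051717911567620602657532838803440762557114624565747058240995360252831937051922796143357574101290801715032401200986666546294759624813280309831477955207417953103149246664007880231983043641463289206855907659692588502976548621224785116675632499440644245540003363471126578690541095691479492335285684113840150669321035406296322525888512) (Nat.add (Nat.mul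 c4 2410312426921032588580116606028314112940426334361313266389682787864617272940772184824482449082601641152635580249915984635696752355381230558619042482674913784785696057526070162316138710149193695359379807882907852258985525688774878205792797962258954118091954875584669191953030324067883082489166100742411231717091963017658034691868114090569907129331360408713992467357926362694435483285612831052840843269397637060355124608006387444363873426043665363717849958938836992) (Nat.mul c5 9641249707684130354320466424113256451655456263386661884196202093460869536704470660613481449271820984386582814744116982886024771451836484051111704141643750461230113463056089039225428370825355899774068415679998353798939086636171291197273385505630717082804023378959236021053126394449185768425132732221989303501771527056412658113402612641764722195536130194766414578867418974089152877941346029190166583609472528537397372111139109769047515726196463493506417304872681472)))))))) fun Z =>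
  frc (hj P Z 0) fun j0 =>
  frc (hj P Z 1) fun j1 =>
  frc (hj P Z 2) fun j2 =>
  frc (hj P Z 3) fun j3 =>
  frc (hj P Z 4) fun j4 =>
  frc (hj P Z 5) fun j5 =>
  frc (hj P Z 6) fun j6 =>
  frc (hj P Z 7) fun j7 =>
  frc (hj P Z 8) fun j8 =>
  frc (hj P Z 9) fun j9 =>
  frc (hj P Z 10) fun j10 =>
  frc (hj P Z 11) fun j11 =>
  frc (hj P Z 12) fun j12 =>
  lA P v0 v1 v2 v3 v4 v5 j0 j1 j2 j3 j4 j5 j6 j7 j8 j9 j10 j11 j12

/-- entropy table -/
def ent (n : Nat) : Nat := Nat.mod (Nat.shiftRight 623681897708522953706847912452493697304578241801296946155633504595292661163108927728636414814920290175133915909938055394446989150993440070005120200929106366300160 (Nat.mul 32 n)) 4294967296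

/-- the test of type B at a vertex -/
def tw (c K L0 L1 L2 L3 L4 L5 : Nat) (v : V) : Bool :=
  Nat.ble (Nat.mul c (Nat.add (Nat.mul L0 v.a) (Nat.add (Nat.mul L1 v.b) (Nat.add (Nat.mul L2 v.c)
    (Nat.add (Nat.mul L3 v.d) (Nat.add (Nat.mul L4 v.e) (Nat.mul L5 v.f))))))) (Nat.mul K v.g)

/-- the test of type B: `a` codes the weights of the seven cuts -/
def leafB (P : Par) (v0 v1 v2 v3 v4 v5 : V) (a : Nat) : Bool :=
  frc (Nat.mod (Nat.shiftRight a 0) 32) fun n0 =>
  frc (Nat.mod (Nat.shiftRight a 5) 32) fun n1 =>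
  frc (Nat.mod (Nat.shiftRight a 10) 32) fun n2 =>
  frc (Nat.mod (Nat.shiftRight a 15) 32) fun n3 =>
  frc (Nat.mod (Nat.shiftRight a 20) 32) fun n4 =>
  frc (Nat.mod (Nat.shiftRight a 25) 32) fun n5 =>
  frc (Nat.mod (Nat.shiftRight a 30) 32) fun n6 =>
  Nat.beq (Nat.add n0 (Nat.add n1 (Nat.add n2 (Nat.add n3 (Nat.add n4 (Nat.add n5 n6)))))) 16 &&
  frc (Nat.add (ent n0) (Nat.add (ent n1) (Nat.add (ent n2) (Nat.add (ent n3) (Nat.add (ent n4) (Nat.add (ent n5) (ent n6))))))) fun S =>
  Nat.ble P.kb S &&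
  frc (Nat.mul 10000 (Nat.sub S P.kb)) fun B =>
  frc (Nat.mul 16777216 P.nb) fun A =>
  Nat.ble B A &&
  frc (Nat.mul 1000000 (Nat.sub A B)) fun K =>
  frc (Nat.mul 832255819776 P.nb) fun c =>
  frc (Nat.add n0 (Nat.add n1 (Nat.add n5 n6))) fun L0 =>
  frc (Nat.add n0 (Nat.add n2 (Nat.add n4 n6))) fun L1 =>
  frc (Nat.add n0 (Nat.add n3 (Nat.add n4 n5))) fun L2 =>
  frc (Nat.add n1 (Nat.add n2 (Nat.add n4 n5))) fun L3 =>
  frc (Nat.add n1 (Nat.add n3 (Nat.add n4 n6))) fun L4 =>
  frc (Nat.add n2 (Nat.add n3 (Nat.add n5 n6))) fun L5 =>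
  tw c K L0 L1 L2 L3 L4 L5 v0 &&
  tw c K L0 L1 L2 L3 L4 L5 v1 &&
  tw c K L0 L1 L2 L3 L4 L5 v2 &&
  tw c K L0 L1 L2 L3 L4 L5 v3 &&
  tw c K L0 L1 L2 L3 L4 L5 v4 &&
  tw c K L0 L1 L2 L3 L4 L5 v5

/-- the vertex lies in the local region of the face-centred cubic form -/
def inF (v : V) : Bool :=
  frc (Nat.add v.a (Nat.add v.b (Nat.add v.e v.f))) fun t =>
  frc (Nat.mul 23 t) fun h => frc (Nat.mul 17 t) fun l => frc (Nat.mul 3 t) fun m =>
  Nat.ble (Nat.mul 80 v.c) m && Nat.ble (Nat.mul 80 v.d) m &&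
  Nat.ble (Nat.mul 80 v.a) h && Nat.ble l (Nat.mul 80 v.a) &&
  Nat.ble (Nat.mul 80 v.b) h && Nat.ble l (Nat.mul 80 v.b) &&
  Nat.ble (Nat.mul 80 v.e) h && Nat.ble l (Nat.mul 80 v.e) &&
  Nat.ble (Nat.mul 80 v.f) h && Nat.ble l (Nat.mul 80 v.f)

/-- the vertex lies in the local region of the body-centred cubic form -/
def inB (v : V) : Bool :=
  frc (Nat.add v.a (Nat.add v.b (Nat.add v.c (Nat.add v.d (Nat.add v.e v.f))))) fun t =>
  frc (Nat.mul 23 t) fun h => frc (Nat.mul 17 t) fun l =>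
  Nat.ble (Nat.mul 120 v.a) h && Nat.ble l (Nat.mul 120 v.a) &&
  Nat.ble (Nat.mul 120 v.b) h && Nat.ble l (Nat.mul 120 v.b) &&
  Nat.ble (Nat.mul 120 v.c) h && Nat.ble l (Nat.mul 120 v.c) &&
  Nat.ble (Nat.mul 120 v.d) h && Nat.ble l (Nat.mul 120 v.d) &&
  Nat.ble (Nat.mul 120 v.e) h && Nat.ble l (Nat.mul 120 v.e) &&
  Nat.ble (Nat.mul 120 v.f) h && Nat.ble l (Nat.mul 120 v.f)

/-- the test of type C -/
def leafC (v0 v1 v2 v3 v4 v5 : V) : Bool :=
  inF v0 && inF v1 && inF v2 && inF v3 && inF v4 && inF v5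

/-- the test of type D -/
def leafD (P : Par) (v0 v1 v2 v3 v4 v5 : V) : Bool :=
  Nat.beq P.fb 1 && inB v0 && inB v1 && inB v2 && inB v3 && inB v4 && inB v5

/-- the checker: reads base-32 digits, returns the remaining code or `0` -/
def go (P : Par) : Nat → V → V → V → V → V → V → Nat → Nat
  | 0, _, _, _, _, _, _, _ => 0
  | n + 1, v0, v1, v2, v3, v4, v5, code =>
    frc (Nat.mod code 32) fun dg => frc (Nat.div code 32) fun rest =>
    match dg with
    | 0 => md v0 v1 fun m => frz (go P n m v1 v2 v3 v4 v5 rest) fun r => go P n v0 m v2 v3 v4 v5 r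
    | 1 => md v0 v2 fun m => frz (go P n m v1 v2 v3 v4 v5 rest) fun r => go P n v0 v1 m v3 v4 v5 r
    | 2 => md v0 v3 fun m => frz (go P n m v1 v2 v3 v4 v5 rest) fun r => go P n v0 v1 v2 m v4 v5 r
    | 3 => md v0 v4 fun m => frz (go P n m v1 v2 v3 v4 v5 rest) fun r => go P n v0 v1 v2 v3 m v5 r
    | 4 => md v0 v5 fun m => frz (go P n m v1 v2 v3 v4 v5 rest) fun r => go P n v0 v1 v2 v3 v4 m r
    | 5 => md v1 v2 fun m => frz (go P n v0 m v2 v3 v4 v5 rest) fun r => go P n v0 v1 m v3 v4 v5 r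
    | 6 => md v1 v3 fun m => frz (go P n v0 m v2 v3 v4 v5 rest) fun r => go P n v0 v1 v2 m v4 v5 r
    | 7 => md v1 v4 fun m => frz (go P n v0 m v2 v3 v4 v5 rest) fun r => go P n v0 v1 v2 v3 m v5 r
    | 8 => md v1 v5 fun m => frz (go P n v0 m v2 v3 v4 v5 rest) fun r => go P n v0 v1 v2 v3 v4 m r
    | 9 => md v2 v3 fun m => frz (go P n v0 v1 m v3 v4 v5 rest) fun r => go P n v0 v1 v2 m v4 v5 r
    | 10 => md v2 v4 fun m => frz (go P n v0 v1 m v3 v4 v5 rest) fun r => go P n v0 v1 v2 v3 m v5 r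
    | 11 => md v2 v5 fun m => frz (go P n v0 v1 m v3 v4 v5 rest) fun r => go P n v0 v1 v2 v3 v4 m r
    | 12 => md v3 v4 fun m => frz (go P n v0 v1 v2 m v4 v5 rest) fun r => go P n v0 v1 v2 v3 m v5 r
    | 13 => md v3 v5 fun m => frz (go P n v0 v1 v2 m v4 v5 rest) fun r => go P n v0 v1 v2 v3 v4 m r
    | 14 => md v4 v5 fun m => frz (go P n v0 v1 v2 v3 m v5 rest) fun r => go P n v0 v1 v2 v3 v4 m r
    | 15 => frc (Nat.mod rest 262144) fun a => bif leafA P v0 v1 v2 v3 v4 v5 a then Nat.div rest 262144 else 0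
    | 16 => frc (Nat.mod rest 34359738368) fun a => bif leafB P v0 v1 v2 v3 v4 v5 a then Nat.div rest 34359738368 else 0
    | 17 => bif leafC v0 v1 v2 v3 v4 v5 then rest else 0
    | 18 => bif leafD P v0 v1 v2 v3 v4 v5 then rest else 0
    | _ => 0

end Pool.Agent.V7H99
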