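import Pool.Agent.V7H99.LcF

/-!
# The functional equation and the body-centred cubic form
-/

set_option autoImplicit false

open Matrix

namespace Pool.Agent.V7H99

open Pool.Agent.K1H99.FCC (N0 rv nsq Qm qf af PD dt rad rad_pos rad_cube dt_pos Fp normalise
  summable_gauss theta_fe uact pp rv_mulVec nsq_zero nsq_nonneg)

/-- the full theta series -/
noncomputable def Ps (p : Fin 6 → ℝ) (t : ℝ) : ℝ := ∑' n : Fin 3 → ℤ, Real.exp (-(t * vx p n))

lemma ps_summable {p : Fin 6 → ℝ} (h : PD p) {t : ℝ} (ht : 0 < t) :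
    Summable fun n : Fin 3 → ℤ => Real.exp (-(t * vx p n)) := by
  obtain ⟨A, hA, hd⟩ := h
  obtain ⟨A', B', h1, h2, h3, h4⟩ := normalise hA hd
  have hk := kk_pos
  refine (summable_gauss h1 (c := t / kk) (by positivity)).congr fun n => ?_
  rw [h3]
  congr 1
  unfold vx
  rw [mul_comm kk, ← div_div]
  ring

lemma tsum_split {f : (Fin 3 → ℤ) → ℝ} (hf : Summable f) :
    ∑' n, f n = f 0 + ∑' n : N0, f n.1 := by
  rw [hf.tsum_eq_add_tsum_ite 0]
  congr 1
  have h : ∑' n : N0, f n.1 = ∑' n, Set.indicator {n : Fin 3 → ℤ | n ≠ 0} f n :=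
    tsum_subtype {n : Fin 3 → ℤ | n ≠ 0} f
  rw [h]
  refine tsum_congr fun n => ?_
  by_cases hn : n = 0
  · simp [hn]
  · simp [hn]

lemma vx_zero (p : Fin 6 → ℝ) : vx p 0 = 0 := by
  unfold vx qf rv
  simp

lemma ps_eq {p : Fin 6 → ℝ} (h : PD p) {t : ℝ} (ht : 0 < t) :
    Ps p t = 1 + Real.exp (-t) * Gs p t := by
  unfold Ps
  rw [tsum_split (ps_summable h ht), vx_zero]
  unfold Gs
  rw [← tsum_mul_left]
  congr 1
  · simp
  · refine tsum_congr fun n => ?_
    rw [← Real.exp_add]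
    congr 1
    ring

/-- functional equation -/
lemma ps_fe {p : Fin 6 → ℝ} (h : PD p) {t : ℝ} (ht : 0 < t) :
    Ps p t = (t / t0) ^ (-(3 / 2) : ℝ) *
      ∑' y : Fin 3 → ℤ, Real.exp (-(t0 ^ 2 / t * (af p (rv y) / (kk * rad p ^ 2)))) := by
  obtain ⟨A, hA, hd⟩ := h
  obtain ⟨A', B', h1, h2, h3, h4⟩ := normalise hA hd
  have hk := kk_pos
  have ht0 : 0 < t0 := mul_pos Real.pi_pos hk
  have hr : 0 < rad p := rad_pos (dt_pos ⟨A, hA, hd⟩)
  have hfe := theta_fe h1 (t := t / t0) (by positivity)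
  rw [h2, inv_one, one_mul] at hfe
  have e1 : Ps p t = ∑' n : Fin 3 → ℤ, Real.exp (-(Real.pi * (t / t0)) * nsq A' (rv n)) := by
    refine tsum_congr fun n => ?_
    rw [h3]
    congr 1
    unfold vx t0
    have := Real.pi_pos
    field_simp
  rw [e1, hfe]
  congr 1
  refine tsum_congr fun y => ?_
  rw [h4]
  congr 1
  unfold t0
  have := Real.pi_pos
  field_simp

/-- change of variables -/
noncomputable def zact (U : Matrix (Fin 3) (Fin 3) ℤ) (hU : IsUnit U.det) :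
    (Fin 3 → ℤ) ≃ (Fin 3 → ℤ) where
  toFun n := U.mulVec n
  invFun n := U⁻¹.mulVec n
  left_inv n := by
    show U⁻¹.mulVec (U.mulVec n) = n
    rw [Matrix.mulVec_mulVec, Matrix.nonsing_inv_mul _ hU, Matrix.one_mulVec]
  right_inv n := by
    show U.mulVec (U⁻¹.mulVec n) = n
    rw [Matrix.mulVec_mulVec, Matrix.mul_nonsing_inv _ hU, Matrix.one_mulVec]

/-- the change of variables for the dual form -/
def VV : Matrix (Fin 3) (Fin 3) ℤ := !![1, 1, 1; 0, 1, 0; 1, 1, 0]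

lemma VVu : IsUnit VV.det := by decide

/-- the real change of variables -/
def vm (y : Fin 3 → ℝ) : Fin 3 → ℝ := ![y 0 + y 1 + y 2, y 1, y 0 + y 1]

lemma rv_VV (y : Fin 3 → ℤ) : rv (VV.mulVec y) = vm (rv y) := by
  unfold rv vm VV
  funext i
  fin_cases i <;> simp [Matrix.mulVec, dotProduct, Fin.sum_univ_three]

/-- the functional equation when the dual form is known -/
lemma ps_dual {p q : Fin 6 → ℝ} (h : PD p) {ν : ℝ} (hν : 0 < ν)
    (haf : ∀ y : Fin 3 → ℝ, af p y = ν * qf q (vm y)) (hq : 0 < dt q)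
    (hdt : ν ^ 3 * dt q = dt p ^ 2) {t : ℝ} (ht : 0 < t) :
    Ps p t = (t / t0) ^ (-(3 / 2) : ℝ) * Ps q (t0 ^ 2 / t) := by
  rw [ps_fe h ht]
  congr 1
  unfold Ps
  rw [← (zact VV VVu).tsum_eq fun y : Fin 3 → ℤ => Real.exp (-(t0 ^ 2 / t * vx q y))]
  refine tsum_congr fun y => ?_
  congr 2
  have hr : 0 < rad p := rad_pos (dt_pos h)
  have hrq : 0 < rad q := rad_pos hq
  have hk := kk_pos
  have e : rad p ^ 2 = ν * rad q := by
    refine (pow_left_inj₀ (by positivity) (by positivity) (three_ne_zero)).1 ?_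
    have h1 := rad_cube (dt_pos h).le
    have h2 := rad_cube hq.le
    calc (rad p ^ 2) ^ 3 = (rad p ^ 3) ^ 2 := by ring
      _ = ν ^ 3 * dt q := by rw [h1, hdt]
      _ = (ν * rad q) ^ 3 := by rw [mul_pow, h2]
  rw [e, haf]
  show t0 ^ 2 / t * (ν * qf q (vm (rv y)) / (kk * (ν * rad q))) = t0 ^ 2 / t * vx q (VV.mulVec y)
  unfold vx
  rw [rv_VV]
  field_simp

/-- positive definiteness of the dual form -/
lemma pd_dual {p q : Fin 6 → ℝ} (h : PD p) {ν : ℝ} (hν : 0 < ν)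
    (haf : ∀ y : Fin 3 → ℝ, af p y = ν * qf q (vm y)) : PD q := by
  have hr : 0 < rad p := rad_pos (dt_pos h)
  obtain ⟨A, hA, hd⟩ := h
  obtain ⟨A', B', h1, h2, h3, h4⟩ := normalise hA hd
  set c : ℝ := rad p / Real.sqrt ν with hc
  have hs : 0 < Real.sqrt ν := Real.sqrt_pos.2 hν
  have hs2 : Real.sqrt ν ^ 2 = ν := Real.sq_sqrt hν.le
  have hc0 : 0 < c := by rw [hc]; positivity
  have hc2 : c ^ 2 = rad p ^ 2 / ν := by rw [hc, div_pow, hs2]
  set Vi : Matrix (Fin 3) (Fin 3) ℝ := !![0, -1, 1; 0, 1, 0; 1, 0, -1] with hVi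
  have hVd : Vi.det = -1 := by
    rw [hVi, Matrix.det_fin_three]
    simp
  have hB : B'.det ≠ 0 := by
    intro h0
    have := congrArg Matrix.det h1
    rw [Matrix.det_mul, Matrix.det_transpose, h0, zero_mul, Matrix.det_one] at this
    exact zero_ne_one this
  have hx : ∀ x : Fin 3 → ℝ, nsq (c • (B' * Vi)) x = qf q x := by
    intro x
    have e1 : nsq (c • (B' * Vi)) x = c ^ 2 * nsq B' (Vi.mulVec x) := by
      unfold nsq
      rw [Finset.mul_sum]
      refine Finset.sum_congr rfl fun i _ => ?_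
      rw [Matrix.smul_mulVec, Pi.smul_apply, smul_eq_mul, Matrix.mulVec_mulVec]
      ring
    have e2 : vm (Vi.mulVec x) = x := by
      rw [hVi]
      unfold vm
      funext i
      fin_cases i <;> simp [Matrix.mulVec, dotProduct, Fin.sum_univ_three]
    rw [e1, h4, haf, e2, hc2]
    field_simp
  refine ⟨c • (B' * Vi), ?_, ?_⟩
  · set C := c • (B' * Vi) with hC
    have hx' : ∀ x : Fin 3 → ℝ, x ⬝ᵥ ((Cᵀ * C).mulVec x) = qf q x := by
      intro x
      rw [← Pool.Agent.K1H99.FCC.nsq_eq_dot, hx]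
    have hsym : ∀ i j, (Cᵀ * C) i j = (Cᵀ * C) j i := by
      intro i j
      simp only [Matrix.mul_apply, Matrix.transpose_apply]
      exact Finset.sum_congr rfl fun k _ => mul_comm _ _
    generalize Cᵀ * C = G at hx' hsym ⊢
    have g0 := hx' ![1, 0, 0]
    have g1 := hx' ![0, 1, 0]
    have g2 := hx' ![0, 0, 1]
    have g3 := hx' ![1, 1, 0]
    have g4 := hx' ![1, 0, 1]
    have g5 := hx' ![0, 1, 1]
    have s1 := hsym 1 0
    have s2 := hsym 2 0
    have s3 := hsym 2 1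
    simp [Matrix.mulVec, dotProduct, Fin.sum_univ_three, qf] at g0 g1 g2 g3 g4 g5
    unfold Qm
    ext i j
    fin_cases i <;> fin_cases j <;> simp <;> linarith
  · rw [Matrix.det_smul, Matrix.det_mul, hVd]
    have : c ^ Fintype.card (Fin 3) ≠ 0 := pow_ne_zero _ hc0.ne'
    exact mul_ne_zero this (mul_ne_zero hB (by norm_num))

end Pool.Agent.V7H99
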