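import Pool.Agent.V7H99.SdA

/-!
# Soundness of the leaves of type B
-/

set_option autoImplicit false

open Matrix

namespace Pool.Agent.V7H99

open Pool.Agent.K1H99.FCC (N0 rv nsq Qm qf PD dt rad rad_pos rad_cube dt_pos Fp
  rad_sum qf_nonneg rad_nonneg dt_nonneg frc_eq)

/-- coefficients of the linear form -/
def CV (u : Fin 7 → ℝ) : Fin 6 → ℝ :=
  ![(u 0 + (u 1 + (u 5 + u 6))),
    (u 0 + (u 2 + (u 4 + u 6))),
    (u 0 + (u 3 + (u 4 + u 5))),
    (u 1 + (u 2 + (u 4 + u 5))),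
    (u 1 + (u 3 + (u 4 + u 6))),
    (u 2 + (u 3 + (u 5 + u 6)))]

lemma sumx7 (f : Fin 7 → ℝ) : ∑ i, f i = (f 0 + (f 1 + (f 2 + (f 3 + (f 4 + (f 5 + f 6)))))) := by
  simp only [Fin.sum_univ_castSucc, Fin.sum_univ_zero, zero_add]
  simp only [← add_assoc]
  rfl

lemma bl_CV (u : Fin 7 → ℝ) (p : Fin 6 → ℝ) : bl (CV u) p = ∑ i, u i * qf p (rv (Xc i)) := by
  rw [sumx7]
  unfold bl CV qf rv Xc
  simp
  ring

lemma tw_spec {c K L0 L1 L2 L3 L4 L5 : Nat} {v : V}
    (h : tw c K L0 L1 L2 L3 L4 L5 v = true) :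
    (c:ℝ) * bl ![L0, L1, L2, L3, L4, L5] (wv v) ≤ K * v.g := by
  unfold tw at h
  simp only [Nat.add_eq, Nat.mul_eq] at h
  have h1 := Nat.le_of_ble_eq_true h
  rify at h1
  unfold bl wv
  simp only [Matrix.cons_val]
  exact h1

/-- upper bounds for `n log n` -/
def EntOK : Prop := ∀ n : Nat, n ≤ 16 → 1048576 * ((n:ℝ) * Real.log n) ≤ ent n

lemma leafB_spec {P : Par} {v0 v1 v2 v3 v4 v5 : V} {a : Nat}
    (h : leafB P v0 v1 v2 v3 v4 v5 a = true) :
    ∃ (n : Fin 7 → Nat) (K : ℝ), ∑ i, (n i : ℝ) = 16 ∧ (∀ i, n i ≤ 16) ∧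
      (P.kb : ℝ) ≤ ∑ i, (ent (n i) : ℝ) ∧ 0 ≤ K ∧
      K = 1000000 * (16777216 * P.nb - 10000 * (∑ i, (ent (n i) : ℝ) - P.kb)) ∧
      ∀ i, (832255819776 * P.nb : ℝ) * bl (CV fun x => (n x : ℝ)) (wv (![v0, v1, v2, v3, v4, v5] i)) ≤
          K * (![v0, v1, v2, v3, v4, v5] i).g := by
  unfold leafB at h
  simp only [frc_eq] at h
  generalize Nat.mod (Nat.shiftRight a 0) 32 = n0 at h
  generalize Nat.mod (Nat.shiftRight a 5) 32 = n1 at h
  generalize Nat.mod (Nat.shiftRight a 10) 32 = n2 at h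
  generalize Nat.mod (Nat.shiftRight a 15) 32 = n3 at h
  generalize Nat.mod (Nat.shiftRight a 20) 32 = n4 at h
  generalize Nat.mod (Nat.shiftRight a 25) 32 = n5 at h
  generalize Nat.mod (Nat.shiftRight a 30) 32 = n6 at h
  simp only [Bool.and_eq_true, Nat.add_eq, Nat.mul_eq, Nat.sub_eq] at h
  obtain ⟨hN, hS, hBA, ⟨⟨⟨⟨⟨h0, h1⟩, h2⟩, h3⟩, h4⟩, h5⟩⟩ := h
  have hN := Nat.eq_of_beq_eq_true hN
  have hS := Nat.le_of_ble_eq_true hS
  have hBA := Nat.le_of_ble_eq_true hBA
  have eS : (((ent n0 + (ent n1 + (ent n2 + (ent n3 + (ent n4 + (ent n5 + ent n6)))))) : ℕ) : ℝ) = ∑ i, (ent (![n0, n1, n2, n3, n4, n5, n6] i) : ℝ) := by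
    rw [sumx7]
    push_cast
    simp only [Matrix.cons_val]
  have eK : ((1000000 * (16777216 * P.nb - 10000 * ((ent n0 + (ent n1 + (ent n2 + (ent n3 + (ent n4 + (ent n5 + ent n6)))))) - P.kb)) : ℕ) : ℝ) =
      1000000 * (16777216 * P.nb - 10000 * (∑ i, (ent (![n0, n1, n2, n3, n4, n5, n6] i) : ℝ) - P.kb)) := by
    rw [← eS, Nat.cast_mul, Nat.cast_sub hBA, Nat.cast_mul, Nat.cast_mul, Nat.cast_sub hS]
    norm_num
  refine ⟨![n0, n1, n2, n3, n4, n5, n6], _, ?_, ?_, ?_, Nat.cast_nonneg (1000000 * (16777216 * P.nb - 10000 * ((ent n0 + (ent n1 + (ent n2 + (ent n3 + (ent n4 + (ent n5 + ent n6)))))) - P.kb))), eK, ?_⟩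
  · rw [sumx7]
    simp only [Matrix.cons_val]
    have h6 := congrArg (Nat.cast (R := ℝ)) hN
    push_cast at h6
    exact h6
  · intro i
    fin_cases i
    · show n0 ≤ 16
      omega
    · show n1 ≤ 16
      omega
    · show n2 ≤ 16
      omega
    · show n3 ≤ 16
      omega
    · show n4 ≤ 16
      omega
    · show n5 ≤ 16
      omega
    · show n6 ≤ 16
      omega
  · rw [← eS]
    exact_mod_cast hS
  · have e : (CV fun x => ((![n0, n1, n2, n3, n4, n5, n6] x : ℕ) : ℝ)) = ![(((n0 + (n1 + (n5 + n6))) : ℕ) : ℝ),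
      (((n0 + (n2 + (n4 + n6))) : ℕ) : ℝ),
      (((n0 + (n3 + (n4 + n5))) : ℕ) : ℝ),
      (((n1 + (n2 + (n4 + n5))) : ℕ) : ℝ),
      (((n1 + (n3 + (n4 + n6))) : ℕ) : ℝ),
      (((n2 + (n3 + (n5 + n6))) : ℕ) : ℝ)] := by
      unfold CV
      push_cast
      simp only [Matrix.cons_val]
    rw [e]
    have ec : ((832255819776 * P.nb : ℕ) : ℝ) = 832255819776 * P.nb := by push_cast; ring
    rw [← ec]
    intro i
    fin_cases i
    · exact tw_spec h0
    · exact tw_spec h1
    · exact tw_spec h2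
    · exact tw_spec h3
    · exact tw_spec h4
    · exact tw_spec h5

/-- validity of the constants used by the leaves of type B -/
structure ParB (P : Par) (t1 : ℝ) : Prop where
  nb : (P.nb : ℝ) = 10000 * t1
  kb : ∃ T : ℝ, 0 < T ∧ (∀ t, t1 ≤ t → Tt t < T) ∧ (P.kb : ℝ) ≤ 16777216 * Real.log (32 / T)

theorem leafB_sound (hE : EntOK) {P : Par} {t1 : ℝ} (ht1 : 0 < t1) (hP : ParB P t1)
    {I : Set ℝ} (hI : ∀ t ∈ I, t1 ≤ t)
    (v0 v1 v2 v3 v4 v5 : V) (a : Nat) (h0 : Val v0) (h1 : Val v1) (h2 : Val v2) (h3 : Val v3)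
    (h4 : Val v4) (h5 : Val v5) (h : leafB P v0 v1 v2 v3 v4 v5 a = true) :
    Good (Want I) ![v0, v1, v2, v3, v4, v5] := by
  obtain ⟨n, K, hn, hn16, hkS, hK0, hK, hv⟩ := leafB_spec h
  set v : Fin 6 → V := ![v0, v1, v2, v3, v4, v5] with hvd
  have hval : ∀ i, Val (v i) := by
    intro i
    fin_cases i
    · exact h0
    · exact h1
    · exact h2
    · exact h3
    · exact h4
    · exact h5
  intro l hl hp t ht _
  left
  have htt := hI t ht
  set p := ∑ i, l i • wv (v i) with hpdef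
  have hd := dt_pos hp
  have hr := rad_pos hd
  have htpos : 0 < t := lt_of_lt_of_le ht1 htt
  have hk := kk_pos
  have hklo := kk_lo
  obtain ⟨T, hT0, hTt, hkb⟩ := hP.kb
  set S : ℝ := ∑ i, (ent (n i) : ℝ) with hS
  set L : ℝ := bl (CV fun x => (n x : ℝ)) p with hL
  have hg : ∑ i, l i * ((v i).g : ℝ) ≤ rad p := by
    refine le_trans ?_ (rad_sum Finset.univ l (fun i => wv (v i)) hl fun i => wv_nonneg _)
    exact Finset.sum_le_sum fun i _ => mul_le_mul_of_nonneg_left (rad_wv (hval i)) (hl i)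
  have hLs : L = ∑ i, l i * bl (CV fun x => (n x : ℝ)) (wv (v i)) := bl_sum _ _ _
  have s1 : 832255819776 * P.nb * L ≤ K * rad p := by
    refine le_trans ?_ (mul_le_mul_of_nonneg_left hg hK0)
    rw [hLs, Finset.mul_sum, Finset.mul_sum]
    refine Finset.sum_le_sum fun i _ => ?_
    have := mul_le_mul_of_nonneg_left (hv i) (hl i)
    linarith
  set y : ℝ := L / (kk * rad p) with hy
  have s2 : 10485760000 * t1 * y ≤ 10000 * (16777216 * t1 - (S - P.kb)) := by
    rw [hy, ← mul_div_assoc, div_le_iff₀ (by positivity)]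
    rw [hP.nb] at s1
    rw [hK, hP.nb] at s1
    have hK2 : 0 ≤ 16777216 * t1 - (S - P.kb) := by
      rw [hK, hP.nb] at hK0
      linarith
    have s3 := mul_le_mul_of_nonneg_right hklo (mul_nonneg hK2 hr.le)
    nlinarith
  have s4 : t1 * y ≤ 16 * t1 - (S - P.kb) / 1048576 := by
    rw [le_sub_iff_add_le]
    rw [← sub_nonneg] at s2 ⊢
    have : (16 * t1 - (t1 * y + (S - P.kb) / 1048576)) * 10485760000 =
      10000 * (16777216 * t1 - (S - P.kb)) - 10485760000 * t1 * y := by ring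
    nlinarith
  have hSk : 0 ≤ S - P.kb := sub_nonneg.2 hkS
  have s5 : t * y ≤ 16 * t - (S - P.kb) / 1048576 := by
    have h6 : 0 ≤ 16 - y := by
      by_contra hc
      push Not at hc
      nlinarith
    nlinarith
  -- entropy
  set lam : Fin 7 → ℝ := fun i => (n i : ℝ) / 16 with hlam
  have hl0 : ∀ i, 0 ≤ lam i := fun i => by positivity
  have hl1 : ∑ i, lam i = 1 := by
    rw [hlam, ← Finset.sum_div, hn]
    norm_num
  have hent := entropy lam (fun i => -(t * (vx p (Xc i) - 1))) hl0 hl1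
  have hc : Real.log (T / 2) ≤ ∑ i, lam i * (-(t * (vx p (Xc i) - 1)) - Real.log (lam i)) := by
    have e1 : ∀ i, lam i * Real.log (lam i) ≤
        (ent (n i) : ℝ) / 16777216 - lam i * Real.log 16 := by
      intro i
      have h6 := hE (n i) (hn16 i)
      rcases Nat.eq_zero_or_pos (n i) with h7 | h7
      · have h8 : lam i = 0 := by
          simp only [hlam, h7]
          norm_num
        rw [h8, zero_mul, zero_mul, sub_zero]
        positivity
      · have h8 : Real.log (lam i) = Real.log (n i) - Real.log 16 := by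
          simp only [hlam]
          rw [Real.log_div (by positivity) (by norm_num)]
        rw [h8]
        simp only [hlam]
        have : (n i : ℝ) / 16 * Real.log (n i) ≤ (ent (n i) : ℝ) / 16777216 := by
          rw [le_div_iff₀ (by norm_num)]
          linarith
        linarith
    have e2 : ∑ i, lam i * (-(t * (vx p (Xc i) - 1)) - Real.log (lam i)) =
        t - t * y / 16 - ∑ i, lam i * Real.log (lam i) := by
      have e3 : ∀ i, lam i * (-(t * (vx p (Xc i) - 1)) - Real.log (lam i)) =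
          t * lam i - t * (((n i : ℝ) * qf p (rv (Xc i))) / (kk * rad p)) / 16 -
            lam i * Real.log (lam i) := by
        intro i
        simp only [hlam]
        unfold vx
        ring
      simp_rw [e3]
      rw [Finset.sum_sub_distrib, Finset.sum_sub_distrib, ← Finset.mul_sum, hl1, mul_one,
        ← Finset.sum_div, ← Finset.mul_sum, ← Finset.sum_div, ← bl_CV]
    have e4 := Finset.sum_le_sum fun i (_ : i ∈ Finset.univ) => e1 i
    rw [Finset.sum_sub_distrib, ← Finset.sum_div, ← Finset.sum_mul, hl1, one_mul] at e4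
    rw [e2]
    have e5 : Real.log (32 / T) = Real.log 16 - Real.log (T / 2) := by
      rw [Real.log_div (by norm_num) hT0.ne', Real.log_div hT0.ne' (by norm_num),
        show (32:ℝ) = 16 * 2 by norm_num, Real.log_mul (by norm_num) (by norm_num)]
      ring
    rw [e5] at hkb
    linarith
  have hG := gs_ge7 hp htpos
  have h9 : T / 2 ≤ Real.exp (∑ i, lam i * (-(t * (vx p (Xc i) - 1)) - Real.log (lam i))) := by
    rw [← Real.exp_log (show 0 < T / 2 by positivity)]
    exact Real.exp_le_exp.2 hc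
  have h10 := hTt t htt
  linarith

end Pool.Agent.V7H99
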