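import Pool.Agent.V7H99.Cs
import Pool.Agent.V7H99.SdB

/-!
# The entropy table
-/

set_option autoImplicit false

namespace Pool.Agent.V7H99

lemma log_le_of {n : ℕ} {c : ℝ} (hn : 0 < n) (k : ℕ) (hc : 0 ≤ c)
    (h : (n : ℝ) ≤ ∑ i ∈ Finset.range k, c ^ i / i.factorial) : Real.log n ≤ c :=
  (Real.log_le_iff_le_exp (by exact_mod_cast hn)).2 (h.trans (Real.sum_le_exp_of_nonneg hc k))

lemma ent_ok : EntOK := by
  intro n hn
  have key : ∀ (n k e : ℕ) (c : ℝ), 0 < n → 0 ≤ c →
      (n : ℝ) ≤ ∑ i ∈ Finset.range k, c ^ i / i.factorial → 1048576 * ((n : ℝ) * c) ≤ e →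
      1048576 * ((n : ℝ) * Real.log n) ≤ e := by
    intro n k e c hn hc h1 h2
    have h3 := log_le_of hn k hc h1
    refine le_trans ?_ h2
    gcongr
  interval_cases n
  · simp
  · simp
  · refine (key 2 9 1453636 (6931476593 / 10000000000) (by norm_num) (by norm_num) ?_ ?_).trans ?_
    · norm_num [Finset.sum_range_succ, Nat.factorial]
    · norm_num
    · exact_mod_cast (show 1453636 ≤ ent 2 by decide +kernel)
  · refine (key 3 10 3455937 (10986127853 / 10000000000) (by norm_num) (by norm_num) ?_ ?_).trans ?_
    · norm_num [Finset.sum_range_succ, Nat.factorial]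
    · norm_num
    · exact_mod_cast (show 3455937 ≤ ent 3 by decide +kernel)
  · refine (key 4 12 5814541 (13862946033 / 10000000000) (by norm_num) (by norm_num) ?_ ?_).trans ?_
    · norm_num [Finset.sum_range_succ, Nat.factorial]
    · norm_num
    · exact_mod_cast (show 5814541 ≤ ent 4 by decide +kernel)
  · refine (key 5 12 8438091 (16094381332 / 10000000000) (by norm_num) (by norm_num) ?_ ?_).trans ?_
    · norm_num [Finset.sum_range_succ, Nat.factorial]
    · norm_num
    · exact_mod_cast (show 8438091 ≤ ent 5 by decide +kernel)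
  · refine (key 6 13 11272777 (17917596499 / 10000000000) (by norm_num) (by norm_num) ?_ ?_).trans ?_
    · norm_num [Finset.sum_range_succ, Nat.factorial]
    · norm_num
    · exact_mod_cast (show 11272777 ≤ ent 6 by decide +kernel)
  · refine (key 7 13 14283044 (19459103175 / 10000000000) (by norm_num) (by norm_num) ?_ ?_).trans ?_
    · norm_num [Finset.sum_range_succ, Nat.factorial]
    · norm_num
    · exact_mod_cast (show 14283044 ≤ ent 7 by decide +kernel)
  · refine (key 8 14 17443621 (20794416666 / 10000000000) (by norm_num) (by norm_num) ?_ ?_).trans ?_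
    · norm_num [Finset.sum_range_succ, Nat.factorial]
    · norm_num
    · exact_mod_cast (show 17443621 ≤ ent 8 by decide +kernel)
  · refine (key 9 14 20735614 (21972247229 / 10000000000) (by norm_num) (by norm_num) ?_ ?_).trans ?_
    · norm_num [Finset.sum_range_succ, Nat.factorial]
    · norm_num
    · exact_mod_cast (show 20735614 ≤ ent 9 by decide +kernel)
  · refine (key 10 15 24144356 (23025852203 / 10000000000) (by norm_num) (by norm_num) ?_ ?_).trans ?_
    · norm_num [Finset.sum_range_succ, Nat.factorial]
    · norm_num
    · exact_mod_cast (show 24144356 ≤ ent 10 by decide +kernel)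
  · refine (key 11 15 27658131 (23978953794 / 10000000000) (by norm_num) (by norm_num) ?_ ?_).trans ?_
    · norm_num [Finset.sum_range_succ, Nat.factorial]
    · norm_num
    · exact_mod_cast (show 27658131 ≤ ent 11 by decide +kernel)
  · refine (key 12 15 31267363 (24849067529 / 10000000000) (by norm_num) (by norm_num) ?_ ?_).trans ?_
    · norm_num [Finset.sum_range_succ, Nat.factorial]
    · norm_num
    · exact_mod_cast (show 31267363 ≤ ent 12 by decide +kernel)
  · refine (key 13 15 34964078 (25649494758 / 10000000000) (by norm_num) (by norm_num) ?_ ?_).trans ?_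
    · norm_num [Finset.sum_range_succ, Nat.factorial]
    · norm_num
    · exact_mod_cast (show 34964078 ≤ ent 13 by decide +kernel)
  · refine (key 14 16 38741532 (26390574319 / 10000000000) (by norm_num) (by norm_num) ?_ ?_).trans ?_
    · norm_num [Finset.sum_range_succ, Nat.factorial]
    · norm_num
    · exact_mod_cast (show 38741532 ≤ ent 14 by decide +kernel)
  · refine (key 15 16 42593948 (27080502827 / 10000000000) (by norm_num) (by norm_num) ?_ ?_).trans ?_
    · norm_num [Finset.sum_range_succ, Nat.factorial]
    · norm_num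
    · exact_mod_cast (show 42593948 ≤ ent 15 by decide +kernel)
  · refine (key 16 16 46516321 (27725887894 / 10000000000) (by norm_num) (by norm_num) ?_ ?_).trans ?_
    · norm_num [Finset.sum_range_succ, Nat.factorial]
    · norm_num
    · exact_mod_cast (show 46516321 ≤ ent 16 by decide +kernel)

end Pool.Agent.V7H99
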