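import Mathlib

/-!
# Local minimality: elementary estimates
-/

set_option autoImplicit false

namespace Pool.Agent.V7H99

/-- the cubic invariant of three numbers of sum zero -/
lemma b_bound {b1 b2 b3 s : ℝ} (h : b1 + b2 + b3 = 0) (hs : s = b1 ^ 2 + b2 ^ 2 + b3 ^ 2)
    (hs1 : s ≤ 1 / 64) : |b1 * b2 * b3| ≤ 1702 / 100000 * s := by
  have h3 : b3 = -b1 - b2 := by linarith
  have e : s ^ 3 - 54 * (b1 * b2 * b3) ^ 2 = 2 * ((b1 - b2) * (b2 - b3) * (b3 - b1)) ^ 2 := by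
    rw [hs, h3]
    ring
  have h0 : 0 ≤ s := by rw [hs]; positivity
  have h1 : 54 * (b1 * b2 * b3) ^ 2 ≤ s ^ 3 := by
    have := sq_nonneg ((b1 - b2) * (b2 - b3) * (b3 - b1))
    linarith
  have h2 : s ^ 3 ≤ 1 / 64 * s ^ 2 := by
    have : s ^ 3 = s * s ^ 2 := by ring
    rw [this]
    exact mul_le_mul_of_nonneg_right hs1 (sq_nonneg s)
  apply abs_le_of_sq_le_sq _ (by positivity)
  nlinarith [sq_nonneg s]

lemma m_bound {m1 m2 m3 q : ℝ} (hq : q = m1 ^ 2 + m2 ^ 2 + m3 ^ 2) (hq1 : q ≤ 1 / 42) :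
    |m1 * m2 * m3| ≤ 298 / 10000 * q := by
  have h0 : 0 ≤ q := by rw [hq]; positivity
  have h1 : 27 * (m1 * m2 * m3) ^ 2 ≤ q ^ 3 := by
    rw [hq]
    have := sq_nonneg (m1 ^ 2 - m2 ^ 2)
    nlinarith [mul_nonneg (sq_nonneg m1) (sq_nonneg (m2 ^ 2 - m3 ^ 2)),
      mul_nonneg (sq_nonneg m2) (sq_nonneg (m1 ^ 2 - m3 ^ 2)),
      mul_nonneg (sq_nonneg m3) (sq_nonneg (m1 ^ 2 - m2 ^ 2)),
      mul_nonneg (add_nonneg (add_nonneg (sq_nonneg m1) (sq_nonneg m2)) (sq_nonneg m3))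
        (add_nonneg (add_nonneg (sq_nonneg (m1 ^ 2 - m2 ^ 2)) (sq_nonneg (m2 ^ 2 - m3 ^ 2)))
          (sq_nonneg (m1 ^ 2 - m3 ^ 2)))]
  have h2 : q ^ 3 ≤ 1 / 42 * q ^ 2 := by
    have : q ^ 3 = q * q ^ 2 := by ring
    rw [this]
    exact mul_le_mul_of_nonneg_right hq1 (sq_nonneg q)
  apply abs_le_of_sq_le_sq _ (by positivity)
  nlinarith [sq_nonneg q]

lemma e_bound {b1 b2 b3 m1 m2 m3 s q : ℝ} (h : b1 + b2 + b3 = 0)
    (hs : s = b1 ^ 2 + b2 ^ 2 + b3 ^ 2) (hs1 : s ≤ 1 / 64) (hq : q = m1 ^ 2 + m2 ^ 2 + m3 ^ 2) :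
    |b1 * m1 ^ 2 + b2 * m2 ^ 2 + b3 * m3 ^ 2| ≤ 1021 / 10000 * q := by
  have key : ∀ a b c : ℝ, a + b + c = 0 → a ^ 2 + b ^ 2 + c ^ 2 ≤ 1 / 64 →
      |a| ≤ 1021 / 10000 := by
    intro a b c h1 h2
    have hc : c = -a - b := by linarith
    rw [hc] at h2
    apply abs_le_of_sq_le_sq _ (by norm_num)
    nlinarith [sq_nonneg (a + 2 * b)]
  have k1 := key b1 b2 b3 h (by rw [← hs]; exact hs1)
  have k2 := key b2 b1 b3 (by linarith) (by linarith)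
  have k3 := key b3 b1 b2 (by linarith) (by linarith)
  rw [abs_le] at k1 k2 k3 ⊢
  constructor <;> nlinarith [sq_nonneg m1, sq_nonneg m2, sq_nonneg m3,
    mul_nonneg (sub_nonneg.2 k1.1) (sq_nonneg m1), mul_nonneg (sub_nonneg.2 k1.2) (sq_nonneg m1),
    mul_nonneg (sub_nonneg.2 k2.1) (sq_nonneg m2), mul_nonneg (sub_nonneg.2 k2.2) (sq_nonneg m2),
    mul_nonneg (sub_nonneg.2 k3.1) (sq_nonneg m3), mul_nonneg (sub_nonneg.2 k3.2) (sq_nonneg m3)]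

/-- bounds for the trace part -/
lemma h_bound {h s q b mu E : ℝ} (h0 : 0 ≤ h) (s0 : 0 ≤ s) (q0 : 0 ≤ q) (s1 : s ≤ 1 / 64)
    (q1 : q ≤ 1 / 42) (hb : |b| ≤ 1702 / 100000 * s) (hm : |mu| ≤ 298 / 10000 * q)
    (hE : |E| ≤ 1021 / 10000 * q)
    (hrel : 3 * h + 3 * h ^ 2 + h ^ 3 = (1 + h) * (s / 2 + q) - b - 2 * mu + E) :
    h ≤ 1726 / 10000 * s + 39 / 100 * q ∧ h ≤ 12 / 1000 ∧
      s / 2 + q - 3 * h ≤ 172 / 10000 * s + 163 / 1000 * q := by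
  rw [abs_le] at hb hm hE
  have hH : h ≤ 1726 / 10000 * s + 39 / 100 * q := by
    by_contra hc
    push Not at hc
    set H := 1726 / 10000 * s + 39 / 100 * q with hHd
    have hH0 : 0 ≤ H := by positivity
    have h1 : 0 < h - H := by linarith
    -- monotonicity
    have h2 : 0 ≤ (h - H) * (3 * (h + H) + h ^ 2 + h * H + H ^ 2) := by positivity
    have h3 : 3 * h ^ 2 + h ^ 3 - (3 * H ^ 2 + H ^ 3) =
        (h - H) * (3 * (h + H) + h ^ 2 + h * H + H ^ 2) := by ring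
    have h4 : 3 * H - (s / 2 + q) = 178 / 10000 * s + 17 / 100 * q := by rw [hHd]; ring
    have h5 : 0 ≤ H * (3 * H - (s / 2 + q)) := by
      rw [h4]
      positivity
    have h6 : (h - H) * (s / 2 + q) ≤ (h - H) * 1 :=
      mul_le_mul_of_nonneg_left (by linarith) h1.le
    have h7 : 0 ≤ H ^ 3 := by positivity
    nlinarith
  refine ⟨hH, by linarith, ?_⟩
  have hh : h ≤ 12 / 1000 := by linarith
  have h8 : (s / 2 + q - 3 * h) * (1 + h) = h ^ 3 + b + 2 * mu - E := by linarith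
  have h9 : h ^ 3 ≤ 1 / 4000 * h := by
    have : h ^ 3 = h ^ 2 * h := by ring
    rw [this]
    exact mul_le_mul_of_nonneg_right (by nlinarith) h0
  rcases le_total (s / 2 + q - 3 * h) 0 with hn | hn
  · have : 0 ≤ 172 / 10000 * s + 163 / 1000 * q := by positivity
    linarith
  · have h10 : s / 2 + q - 3 * h ≤ (s / 2 + q - 3 * h) * (1 + h) := by nlinarith
    linarith

end Pool.Agent.V7H99
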