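import Pool.Agent.V7H99.Lc1

/-!
# Local minimality: the inequality for moderate values of the parameter
-/

set_option autoImplicit false

namespace Pool.Agent.V7H99

lemma cs_pos {t x : ℝ} (t1 : 38 / 10 ≤ t) (t2 : t ≤ 12) (x0 : 0 ≤ x)
    (xlo : t ≤ 44 / 10 → 12277 / 1000000 * (1 + (44 / 10 - t) + (44 / 10 - t) ^ 2 / 2) ≤ x) :
    1 / 100 ≤ t ^ 2 / 2 - 2069 / 1000 * t - 5604 / 1000000 * t ^ 3 +
      x * (4 * t ^ 2 - 2355 / 1000 * t - 21577 / 1000000 * t ^ 3) := by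
  have hc : 0 ≤ 4 * t ^ 2 - 2355 / 1000 * t - 21577 / 1000000 * t ^ 3 := by
    have e : 4 * t ^ 2 - 2355 / 1000 * t - 21577 / 1000000 * t ^ 3 =
        t * (4 * t - 2355 / 1000 - 21577 / 1000000 * t ^ 2) := by ring
    rw [e]
    refine mul_nonneg (by linarith) ?_
    nlinarith
  rcases le_total t (44 / 10) with h | h
  · have h1 := mul_le_mul_of_nonneg_right (xlo h) hc
    refine le_trans ?_ (add_le_add (le_refl _) h1)
    set u := 44 / 10 - t with hu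
    have ht : t = 44 / 10 - u := by rw [hu]; ring
    have u0 : 0 ≤ u := by rw [hu]; linarith
    have u1 : u ≤ 6 / 10 := by rw [hu]; linarith
    rw [ht]
    nlinarith [mul_nonneg u0 (sub_nonneg.2 u1), mul_nonneg (mul_nonneg u0 u0) (sub_nonneg.2 u1),
      mul_nonneg (mul_nonneg (mul_nonneg u0 u0) u0) (sub_nonneg.2 u1),
      mul_nonneg (mul_nonneg (mul_nonneg (mul_nonneg u0 u0) u0) u0) (sub_nonneg.2 u1)]
  · have h1 : 0 ≤ x * (4 * t ^ 2 - 2355 / 1000 * t - 21577 / 1000000 * t ^ 3) := mul_nonneg x0 hc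
    have h2 : 1 / 100 ≤ t / 2 - 2069 / 1000 - 5604 / 1000000 * t ^ 2 := by
      nlinarith [mul_nonneg (sub_nonneg.2 h) (sub_nonneg.2 t2)]
    have h3 : t ^ 2 / 2 - 2069 / 1000 * t - 5604 / 1000000 * t ^ 3 =
        t * (t / 2 - 2069 / 1000 - 5604 / 1000000 * t ^ 2) := by ring
    rw [h3]
    nlinarith

lemma cq_pos {t x : ℝ} (t1 : 38 / 10 ≤ t) (t2 : t ≤ 12) (x0 : 0 ≤ x) (x1 : x ≤ 224 / 10000) :
    1 / 100 ≤ 2 * t ^ 2 - 10616 / 10000 * (4 * t + 4 * t * x + 74 / 3 * t * x ^ 2) -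
      12915 / 100000 * t ^ 3 - 4875 / 100000 * t ^ 3 * x := by
  have hx2 : x ^ 2 ≤ 224 / 10000 * x := by nlinarith
  have e : 2 * t ^ 2 - 10616 / 10000 * (4 * t + 4 * t * x + 74 / 3 * t * x ^ 2) -
      12915 / 100000 * t ^ 3 - 4875 / 100000 * t ^ 3 * x =
      t * (2 * t - 10616 / 10000 * (4 + 4 * x + 74 / 3 * x ^ 2) - 12915 / 100000 * t ^ 2 -
        4875 / 100000 * t ^ 2 * x) := by ring
  rw [e]
  have h1 : 4 + 4 * x + 74 / 3 * x ^ 2 ≤ 4103 / 1000 := by nlinarith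
  have h2 : t ^ 2 * x ≤ t ^ 2 * (224 / 10000) := mul_le_mul_of_nonneg_left x1 (sq_nonneg t)
  have h3 : 1 / 100 ≤ 2 * t - 10616 / 10000 * (4103 / 1000) - 12915 / 100000 * t ^ 2 -
      4875 / 100000 * (t ^ 2 * (224 / 10000)) := by
    nlinarith [mul_nonneg (sub_nonneg.2 t1) (sub_nonneg.2 t2)]
  nlinarith

/-- the inequality for moderate values of the parameter -/
theorem core1 {t x h s q b mu E : ℝ} (t1 : 38 / 10 ≤ t) (t2 : t ≤ 12) (x0 : 0 ≤ x)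
    (x1 : x ≤ 224 / 10000)
    (xlo : t ≤ 44 / 10 → 12277 / 1000000 * (1 + (44 / 10 - t) + (44 / 10 - t) ^ 2 / 2) ≤ x)
    (h0 : 0 ≤ h) (s0 : 0 ≤ s) (q0 : 0 ≤ q) (s1 : s ≤ 1 / 64)
    (q1 : q ≤ 1 / 42) (hb : |b| ≤ 1702 / 100000 * s) (hm : |mu| ≤ 298 / 10000 * q)
    (hE : |E| ≤ 1021 / 10000 * q)
    (hrel : 3 * h + 3 * h ^ 2 + h ^ 3 = (1 + h) * (s / 2 + q) - b - 2 * mu + E) :
    1 / 100 * (s + q) ≤ -t * h * (12 + 12 * x + 74 * x ^ 2) + t ^ 2 * (1 / 2 + 4 * x) * s +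
      2 * t ^ 2 * q + t ^ 2 * h ^ 2 * (6 + 12 * x) - 2 * t ^ 3 * h ^ 3 - t ^ 3 / 2 * (h * s) +
      t ^ 3 / 4 * b - 2 * t ^ 3 * (h * q) + t ^ 3 * E - 8 * t ^ 3 * x * (b + h * s + h ^ 3) := by
  obtain ⟨hH, hh, hD⟩ := h_bound h0 s0 q0 s1 q1 hb hm hE hrel
  rw [abs_le] at hb hm hE
  have ht0 : 0 < t := by linarith
  have ht3 : 0 < t ^ 3 := by positivity
  set K := t * (12 + 12 * x + 74 * x ^ 2) / 3 with hK
  have hK0 : 0 ≤ K := by rw [hK]; positivity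
  have hKe : K = 4 * t + 4 * t * x + 74 / 3 * t * x ^ 2 := by rw [hK]; ring
  have hx2 : x ^ 2 ≤ 224 / 10000 * x := by nlinarith
  set D := s / 2 + q - 3 * h with hDd
  have e1 : -t * h * (12 + 12 * x + 74 * x ^ 2) =
      -K * (s / 2 + q) - K * (h * D) + K * h ^ 3 + K * b + 2 * K * mu - K * E := by
    have h3 : 3 * h = s / 2 + q + h * D - h ^ 3 - b - 2 * mu + E := by
      rw [hDd]
      linarith
    have : -t * h * (12 + 12 * x + 74 * x ^ 2) = -K * (3 * h) := by rw [hK]; ring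
    rw [this, h3]
    ring
  rw [e1]
  -- the individual bounds
  have b1 : K * (h * D) ≤ K * (12 / 1000 * (172 / 10000 * s + 163 / 1000 * q)) := by
    refine mul_le_mul_of_nonneg_left ?_ hK0
    have hp : 0 ≤ 172 / 10000 * s + 163 / 1000 * q := by positivity
    calc h * D ≤ h * (172 / 10000 * s + 163 / 1000 * q) := mul_le_mul_of_nonneg_left hD h0
      _ ≤ _ := mul_le_mul_of_nonneg_right hh hp
  have b2 : 0 ≤ K * h ^ 3 := by positivity
  have b3 : 0 ≤ t ^ 2 * h ^ 2 * (6 + 12 * x) - 2 * t ^ 3 * h ^ 3 - 8 * t ^ 3 * x * h ^ 3 := by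
    have e : t ^ 2 * h ^ 2 * (6 + 12 * x) - 2 * t ^ 3 * h ^ 3 - 8 * t ^ 3 * x * h ^ 3 =
        t ^ 2 * h ^ 2 * (6 + 12 * x - 2 * (t * h) - 8 * x * (t * h)) := by ring
    rw [e]
    refine mul_nonneg (by positivity) ?_
    have : t * h ≤ 12 * (12 / 1000) := mul_le_mul t2 hh h0 (by norm_num)
    have h4 : 0 ≤ t * h := by positivity
    nlinarith
  have b4 : -(1702 / 100000 * s * (K + t ^ 3 / 4)) ≤ b * (K + t ^ 3 / 4 - 8 * t ^ 3 * x) := by
    have c0 : 0 ≤ K + t ^ 3 / 4 - 8 * t ^ 3 * x := by nlinarith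
    have c1 : K + t ^ 3 / 4 - 8 * t ^ 3 * x ≤ K + t ^ 3 / 4 := by
      have : 0 ≤ 8 * t ^ 3 * x := by positivity
      linarith
    have h5 := mul_le_mul_of_nonneg_right hb.1 c0
    have h6 : 1702 / 100000 * s * (K + t ^ 3 / 4 - 8 * t ^ 3 * x) ≤
        1702 / 100000 * s * (K + t ^ 3 / 4) := mul_le_mul_of_nonneg_left c1 (by positivity)
    linarith
  have b5 : -(1021 / 10000 * q * t ^ 3) ≤ E * (t ^ 3 - K) := by
    have c0 : 0 ≤ t ^ 3 - K := by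
      rw [hKe]
      have : t ^ 3 - (4 * t + 4 * t * x + 74 / 3 * t * x ^ 2) =
        t * (t ^ 2 - (4 + 4 * x + 74 / 3 * x ^ 2)) := by ring
      rw [this]
      refine mul_nonneg ht0.le ?_
      nlinarith
    have h5 := mul_le_mul_of_nonneg_right hE.1 c0
    have h6 : 1021 / 10000 * q * (t ^ 3 - K) ≤ 1021 / 10000 * q * t ^ 3 :=
      mul_le_mul_of_nonneg_left (by linarith) (by positivity)
    linarith
  have b6 : -(596 / 10000 * (K * q)) ≤ 2 * K * mu := by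
    have := mul_le_mul_of_nonneg_left hm.1 hK0
    linarith
  have b7 : (t ^ 3 / 2 + 8 * t ^ 3 * x) * (h * s) ≤
      (t ^ 3 / 2 + 8 * t ^ 3 * x) * (1726 / 640000 * s + 39 / 6400 * q) := by
    refine mul_le_mul_of_nonneg_left ?_ (by positivity)
    have h5 := mul_le_mul_of_nonneg_right hH s0
    have h6 : (1726 / 10000 * s + 39 / 100 * q) * s ≤
        (1726 / 10000 * s + 39 / 100 * q) * (1 / 64) :=
      mul_le_mul_of_nonneg_left s1 (by positivity)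
    linarith
  have b8 : 2 * t ^ 3 * (h * q) ≤ 24 / 1000 * t ^ 3 * q := by
    have := mul_le_mul_of_nonneg_right hh q0
    nlinarith
  -- assembling
  have hs := cs_pos t1 t2 x0 xlo
  have hq := cq_pos t1 t2 x0 x1
  have f1 : (t ^ 2 / 2 - 2069 / 1000 * t - 5604 / 1000000 * t ^ 3 +
      x * (4 * t ^ 2 - 2355 / 1000 * t - 21577 / 1000000 * t ^ 3)) ≤
      t ^ 2 * (1 / 2 + 4 * x) - K / 2 - 1702 / 100000 * (K + t ^ 3 / 4) -
        (t ^ 3 / 2 + 8 * t ^ 3 * x) * (1726 / 640000) - K * (12 / 1000 * (172 / 10000)) := by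
    rw [hKe]
    have h5 : t * x ^ 2 ≤ t * (224 / 10000 * x) := mul_le_mul_of_nonneg_left hx2 ht0.le
    have h6 : 0 ≤ t * x := by positivity
    have h7 : 0 ≤ t ^ 3 * x := by positivity
    linarith
  have f2 : 2 * t ^ 2 - 10616 / 10000 * (4 * t + 4 * t * x + 74 / 3 * t * x ^ 2) -
      12915 / 100000 * t ^ 3 - 4875 / 100000 * t ^ 3 * x ≤
      2 * t ^ 2 - K - 1021 / 10000 * t ^ 3 - 596 / 10000 * K -
        (t ^ 3 / 2 + 8 * t ^ 3 * x) * (39 / 6400) - 24 / 1000 * t ^ 3 -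
        K * (12 / 1000 * (163 / 1000)) := by
    rw [← hKe]
    have h7 : 0 ≤ t ^ 3 * x := by positivity
    nlinarith
  have g1 := mul_le_mul_of_nonneg_right (hs.trans f1) s0
  have g2 := mul_le_mul_of_nonneg_right (hq.trans f2) q0
  nlinarith

end Pool.Agent.V7H99
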