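import Pool.Agent.V7H99.Lc1

/-!
# Local minimality: elementary inequalities for the exponential function
-/

set_option autoImplicit false

namespace Pool.Agent.V7H99

lemma nonneg_of_deriv {f f' : ℝ → ℝ} (hf : ∀ x, HasDerivAt f (f' x) x) (h0 : f 0 = 0)
    (hp : ∀ x, 0 ≤ x → 0 ≤ f' x) {x : ℝ} (hx : 0 ≤ x) : 0 ≤ f x := by
  have hm : MonotoneOn f (Set.Ici 0) := by
    refine monotoneOn_of_deriv_nonneg (convex_Ici 0) (fun y _ => (hf y).continuousAt.continuousWithinAt)
      (fun y _ => (hf y).differentiableAt.differentiableWithinAt) fun y hy => ?_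
    rw [interior_Ici] at hy
    rw [(hf y).deriv]
    exact hp y (le_of_lt hy)
  have := hm (Set.mem_Ici.2 le_rfl) (Set.mem_Ici.2 hx) hx
  rwa [h0] at this

lemma hd_exp (x : ℝ) : HasDerivAt (fun y : ℝ => Real.exp (-y)) (-Real.exp (-x)) x := by
  have := (hasDerivAt_neg x).exp
  simpa using this

lemma exp_p1 (y : ℝ) : 0 ≤ Real.exp (-y) - 1 + y := by
  have := Real.add_one_le_exp (-y)
  linarith

lemma exp_p2 {y : ℝ} (hy : 0 ≤ y) : Real.exp (-y) ≤ 1 - y + y ^ 2 / 2 := by
  have h := nonneg_of_deriv (f := fun y : ℝ => 1 - y + y ^ 2 / 2 - Real.exp (-y))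
    (f' := fun y => Real.exp (-y) - 1 + y) (fun x => by
      have h1 : HasDerivAt (fun y : ℝ => 1 - y + y ^ 2 / 2) (0 - 1 + (2 * x) / 2) x := by
        have h2 : HasDerivAt (fun y : ℝ => y ^ 2) (2 * x) x := by
          simpa using hasDerivAt_pow 2 x
        exact ((hasDerivAt_const x (1:ℝ)).sub (hasDerivAt_id x)).add (h2.div_const 2)
      have h3 := h1.sub (hd_exp x)
      refine h3.congr_deriv ?_
      ring) (by simp) (fun x _ => exp_p1 x) hy
  linarith

/-- the cubic lower bound -/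
lemma exp_p3 (y : ℝ) : 1 - y + y ^ 2 / 2 - y ^ 3 / 6 ≤ Real.exp (-y) := by
  rcases le_total 0 y with hy | hy
  · have h := nonneg_of_deriv
      (f := fun y : ℝ => Real.exp (-y) - (1 - y + y ^ 2 / 2 - y ^ 3 / 6))
      (f' := fun y => 1 - y + y ^ 2 / 2 - Real.exp (-y)) (fun x => by
        have h1 : HasDerivAt (fun y : ℝ => 1 - y + y ^ 2 / 2 - y ^ 3 / 6)
            (0 - 1 + (2 * x) / 2 - (3 * x ^ 2) / 6) x := by
          have h2 : HasDerivAt (fun y : ℝ => y ^ 2) (2 * x) x := by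
            simpa using hasDerivAt_pow 2 x
          have h3 : HasDerivAt (fun y : ℝ => y ^ 3) (3 * x ^ 2) x := by
            simpa using hasDerivAt_pow 3 x
          exact (((hasDerivAt_const x (1:ℝ)).sub (hasDerivAt_id x)).add (h2.div_const 2)).sub
            (h3.div_const 6)
        have h3 := (hd_exp x).sub h1
        refine h3.congr_deriv ?_
        ring) (by simp) (fun x hx => by have := exp_p2 hx; linarith) hy
    linarith
  · have h := Real.sum_le_exp_of_nonneg (x := -y) (by linarith) 4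
    simp only [Finset.sum_range_succ, Finset.sum_range_zero, Nat.factorial] at h
    norm_num at h
    nlinarith

lemma exp_q {y : ℝ} (hy : 0 ≤ y) : 0 ≤ (2 + y) * Real.exp (-y) + y - 2 := by
  have h := nonneg_of_deriv (f := fun y : ℝ => (2 + y) * Real.exp (-y) + y - 2)
    (f' := fun y => 1 - (1 + y) * Real.exp (-y)) (fun x => by
      have h1 : HasDerivAt (fun y : ℝ => 2 + y) (0 + 1) x :=
        (hasDerivAt_const x (2:ℝ)).add (hasDerivAt_id x)
      have h3 := (((h1.mul (hd_exp x)).add (hasDerivAt_id x)).sub (hasDerivAt_const x (2:ℝ)))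
      refine h3.congr_deriv ?_
      ring) (by norm_num) (fun x _ => by
      have h1 := Real.add_one_le_exp x
      have h2 : Real.exp x * Real.exp (-x) = 1 := by rw [← Real.exp_add]; simp
      have h3 := Real.exp_pos (-x)
      nlinarith) hy
  simpa using h

/-- the quadratic lower bound -/
lemma phi_ge {y Y : ℝ} (hY : 0 ≤ Y) (hy : y ≤ Y) :
    y ^ 2 / (2 + Y) ≤ Real.exp (-y) - 1 + y := by
  rcases le_total 0 y with h | h
  · have h1 := exp_q h
    have h2 : y ^ 2 / (2 + Y) ≤ y ^ 2 / (2 + y) :=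
      div_le_div_of_nonneg_left (sq_nonneg y) (by linarith) (by linarith)
    refine h2.trans ?_
    rw [div_le_iff₀ (by linarith)]
    nlinarith
  · have h1 := Real.quadratic_le_exp_of_nonneg (x := -y) (by linarith)
    have h2 : y ^ 2 / (2 + Y) ≤ y ^ 2 / 2 :=
      div_le_div_of_nonneg_left (sq_nonneg y) (by norm_num) (by linarith)
    refine h2.trans ?_
    nlinarith

/-- the inequality for large values of the parameter -/
theorem core2 {t M h s q S2 : ℝ} (t1 : 12 ≤ t) (hM : M ≤ 12001 / 1000)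
    (h0 : 0 ≤ h) (s0 : 0 ≤ s) (q0 : 0 ≤ q) (hH : h ≤ 1726 / 10000 * s + 39 / 100 * q)
    (hS : s / 2 + 2 * q ≤ S2) :
    1 / 100 * (s + q) ≤ -t * h * M + 2 * (t ^ 2 * S2 / (2 + 22 / 100 * t)) := by
  have ht0 : 0 < t := by linarith
  have hd : 0 < 2 + 22 / 100 * t := by positivity
  have h1 : t * h * M ≤ t * (1726 / 10000 * s + 39 / 100 * q) * (12001 / 1000) := by
    have h2 : 0 ≤ t * h := by positivity
    have h3 : t * h ≤ t * (1726 / 10000 * s + 39 / 100 * q) := mul_le_mul_of_nonneg_left hH ht0.le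
    calc t * h * M ≤ t * h * (12001 / 1000) := mul_le_mul_of_nonneg_left hM h2
      _ ≤ _ := mul_le_mul_of_nonneg_right h3 (by norm_num)
  have h4 : t ^ 2 * (s / 2 + 2 * q) / (2 + 22 / 100 * t) ≤ t ^ 2 * S2 / (2 + 22 / 100 * t) := by
    gcongr
  have h5 : 25 / 10 ≤ t / (2 + 22 / 100 * t) := by
    rw [le_div_iff₀ hd]
    linarith
  have h6 : t ^ 2 * (s / 2 + 2 * q) / (2 + 22 / 100 * t) =
      t * (s / 2 + 2 * q) * (t / (2 + 22 / 100 * t)) := by
    field_simp
  have h7 : t * (s / 2 + 2 * q) * (25 / 10) ≤ t * (s / 2 + 2 * q) * (t / (2 + 22 / 100 * t)) :=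
    mul_le_mul_of_nonneg_left h5 (by positivity)
  have h8 : 12 * s ≤ t * s := mul_le_mul_of_nonneg_right t1 s0
  have h9 : 12 * q ≤ t * q := mul_le_mul_of_nonneg_right t1 q0
  nlinarith

end Pool.Agent.V7H99
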