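import Pool.Agent.V7H99.An
import Pool.Agent.V7H99.Lc3

/-!
# Local minimality: the Gaussian sum near the face-centred cubic form
-/

set_option autoImplicit false

open Matrix

namespace Pool.Agent.V7H99

open Pool.Agent.K1H99.FCC (N0 rv nsq Qm qf PD dt rad rad_pos rad_cube dt_pos Fp sgv two_sum_le qf_neg
  PD_Fp rad_Fp rad_Fp_pos qf_Fp cc pp qf_pp dt_pp Fp_eq sym_sum uact M1 M1u M2 M2u M3 M3u cc1 cc2 cc3)

lemma kk_rad_Fp : kk * rad Fp = 2 := by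
  have h1 : (kk * rad Fp) ^ 3 = 2 ^ 3 := by
    rw [mul_pow, kk_cube, rad_Fp]
    norm_num
  exact (pow_left_inj₀ (mul_pos kk_pos rad_Fp_pos).le (by norm_num) (by norm_num)).1 h1

lemma vx_Fp (n : N0) : vx Fp n.1 = (cc n 0 ^ 2 + cc n 1 ^ 2 + cc n 2 ^ 2) / 2 := by
  unfold vx
  rw [kk_rad_Fp, qf_Fp]

/-- the first moment -/
noncomputable def Mt (t : ℝ) : ℝ := ∑' n : N0, (1 / 2 * Real.exp (-(t * ((cc n 0 ^ 2 + cc n 1 ^ 2 +
  cc n 2 ^ 2) / 2 - 1)))) * (cc n 0 ^ 2 + cc n 1 ^ 2 + cc n 2 ^ 2)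

lemma mt_summable {t : ℝ} (ht : 0 < t) : Summable fun n : N0 =>
    (1 / 2 * Real.exp (-(t * ((cc n 0 ^ 2 + cc n 1 ^ 2 + cc n 2 ^ 2) / 2 - 1)))) *
      (cc n 0 ^ 2 + cc n 1 ^ 2 + cc n 2 ^ 2) := by
  have h := (gs_summable PD_Fp (t := t / 2) (by positivity)).mul_left (2 / t * Real.exp (t / 2))
  refine Summable.of_nonneg_of_le (fun n => by positivity) (fun n => ?_) h
  rw [vx_Fp]
  set y := cc n 0 ^ 2 + cc n 1 ^ 2 + cc n 2 ^ 2 with hy
  have hy0 : 0 ≤ y := by positivity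
  have e1 : Real.exp (-(t * (y / 2 - 1))) =
      Real.exp (-(t / 2 * (y / 2 - 1))) * (Real.exp (t / 2) * Real.exp (-(t / 4 * y))) := by
    rw [← Real.exp_add, ← Real.exp_add]
    congr 1
    ring
  have e2 : y * Real.exp (-(t / 4 * y)) ≤ 4 / t := by
    have h1 := Real.add_one_le_exp (t / 4 * y)
    have h2 : Real.exp (t / 4 * y) * Real.exp (-(t / 4 * y)) = 1 := by
      rw [← Real.exp_add]
      simp
    have h3 := Real.exp_pos (-(t / 4 * y))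
    rw [le_div_iff₀ ht]
    nlinarith
  rw [e1]
  have h4 := Real.exp_pos (-(t / 2 * (y / 2 - 1)))
  have h5 := Real.exp_pos (t / 2)
  calc 1 / 2 * (Real.exp (-(t / 2 * (y / 2 - 1))) * (Real.exp (t / 2) *
        Real.exp (-(t / 4 * y)))) * y
      = 1 / 2 * (Real.exp (t / 2) * Real.exp (-(t / 2 * (y / 2 - 1)))) *
        (y * Real.exp (-(t / 4 * y))) := by ring
    _ ≤ 1 / 2 * (Real.exp (t / 2) * Real.exp (-(t / 2 * (y / 2 - 1)))) * (4 / t) :=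
        mul_le_mul_of_nonneg_left e2 (by positivity)
    _ = _ := by ring

/-- nine vectors of the first two shells -/
def X9 : Fin 9 → Fin 3 → ℤ :=
  ![![1, 0, 1], ![0, -1, -1], ![1, 1, 1], ![0, 0, -1], ![1, 0, 0], ![0, 1, 0],
    ![1, 1, 0], ![1, -1, 0], ![1, 1, 2]]

lemma X9_0 : ∀ s, sgv X9 s ≠ 0 := by decide
lemma X9_i : Function.Injective (sgv X9) := by decide

lemma sumx9' (f : Fin 9 → ℝ) : ∑ i, f i = f 0 + f 1 + f 2 + f 3 + f 4 + f 5 + f 6 + f 7 + f 8 := by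
  simp only [Fin.sum_univ_castSucc, Fin.sum_univ_zero, zero_add]
  rfl

/-- the remainder of the exponential function -/
noncomputable def ph (y : ℝ) : ℝ := Real.exp (-y) - 1 + y

lemma ph_nonneg (y : ℝ) : 0 ≤ ph y := exp_p1 y

/-- the Gaussian sum near the face-centred cubic form -/
lemma gs_loc {d1 d2 d3 w1 w2 w3 : ℝ} (hd : d1 + d2 + d3 = 0)
    (hp : PD (pp d1 d2 d3 w1 w2 w3)) {ρ : ℝ} (hρ : ρ = rad Fp / rad (pp d1 d2 d3 w1 w2 w3))
    {t : ℝ} (ht : 0 < t) :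
    Tt t - t * (ρ - 1) * Mt t +
      2 * (ph (t * (ρ * (1 - d1 / 2 + w1) - 1)) + ph (t * (ρ * (1 - d1 / 2 - w1) - 1)) +
        ph (t * (ρ * (1 - d2 / 2 + w2) - 1)) + ph (t * (ρ * (1 - d2 / 2 - w2) - 1)) +
        ph (t * (ρ * (1 - d3 / 2 + w3) - 1)) + ph (t * (ρ * (1 - d3 / 2 - w3) - 1)) +
        Real.exp (-t) * (ph (2 * t * (ρ * (1 + d1) - 1)) + ph (2 * t * (ρ * (1 + d2) - 1)) +
          ph (2 * t * (ρ * (1 + d3) - 1)))) ≤ Gs (pp d1 d2 d3 w1 w2 w3) t := by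
  set p := pp d1 d2 d3 w1 w2 w3 with hpdef
  have hr : 0 < rad p := rad_pos (dt_pos hp)
  have hF := rad_Fp_pos
  have hk := kk_pos
  have hρ0 : 0 < ρ := by rw [hρ]; positivity
  have ha : ∀ n : Fin 3 → ℤ, vx p n = ρ * qf p (rv n) / 2 := by
    intro n
    unfold vx
    rw [hρ, ← kk_rad_Fp]
    field_simp
  have hsym := sym_sum (c := cc) (φ := fun x => 1 / 2 * Real.exp (-(t * (x / 2 - 1))))
    (uact M1 M1u) (uact M2 M2u) (uact M3 M3u) cc1 cc2 cc3 (fun n => by positivity)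
    (mt_summable ht) (ρ * (1 + d1) - 1) (ρ * (1 + d2) - 1) (ρ * (1 + d3) - 1)
    (ρ * w3) (ρ * w2) (ρ * w1)
  have hterm : ∀ n : N0, (1 / 2 * Real.exp (-(t * ((cc n 0 ^ 2 + cc n 1 ^ 2 + cc n 2 ^ 2) / 2 - 1)))) *
      ((ρ * (1 + d1) - 1) * cc n 0 ^ 2 + (ρ * (1 + d2) - 1) * cc n 1 ^ 2 +
      (ρ * (1 + d3) - 1) * cc n 2 ^ 2 + 2 * (ρ * w3) * cc n 0 * cc n 1 +
      2 * (ρ * w2) * cc n 0 * cc n 2 + 2 * (ρ * w1) * cc n 1 * cc n 2) =
      (vx p n.1 - vx Fp n.1) * Real.exp (-(t * (vx Fp n.1 - 1))) := by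
    intro n
    rw [ha, vx_Fp, hpdef, qf_pp]
    ring
  simp only [hterm] at hsym
  obtain ⟨hs3, he3⟩ := hsym
  have he3' : ∑' n : N0, (vx p n.1 - vx Fp n.1) * Real.exp (-(t * (vx Fp n.1 - 1))) =
      (ρ - 1) * Mt t := by
    rw [he3]
    have : (ρ * (1 + d1) - 1 + (ρ * (1 + d2) - 1) + (ρ * (1 + d3) - 1)) / 3 = ρ - 1 := by
      have : d3 = -(d1 + d2) := by linarith
      rw [this]
      ring
    rw [this]
    rfl
  have hs1 := gs_summable hp ht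
  have hs2 := gs_summable PD_Fp ht
  set f : (Fin 3 → ℤ) → ℝ := fun m => Real.exp (-(t * (vx p m - 1))) -
    Real.exp (-(t * (vx Fp m - 1))) + t * ((vx p m - vx Fp m) * Real.exp (-(t * (vx Fp m - 1))))
    with hf
  have hfs : HasSum (fun n : N0 => f n.1) (Gs p t - Tt t + t * ((ρ - 1) * Mt t)) := by
    rw [← he3']
    exact (hs1.hasSum.sub hs2.hasSum).add (hs3.hasSum.mul_left t)
  have hfe' : ∀ m, f m = Real.exp (-(t * (vx Fp m - 1))) * ph (t * (vx p m - vx Fp m)) := by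
    intro m
    simp only [hf]
    unfold ph
    have : Real.exp (-(t * (vx p m - 1))) =
        Real.exp (-(t * (vx Fp m - 1))) * Real.exp (-(t * (vx p m - vx Fp m))) := by
      rw [← Real.exp_add]
      congr 1
      ring
    rw [this]
    ring
  have hf0 : ∀ n : N0, 0 ≤ f n.1 := by
    intro n
    rw [hfe']
    exact mul_nonneg (Real.exp_pos _).le (ph_nonneg _)
  have hfe : ∀ m, f (-m) = f m := by
    intro m
    simp only [hf, vx_neg]
  have h2 := two_sum_le X9 X9_0 X9_i f hfe hf0 hfs.summable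
  rw [hfs.tsum_eq] at h2
  have key1 : ∀ (i : Fin 9) (y : ℝ), vx Fp (X9 i) = 1 → vx p (X9 i) = ρ * y →
      f (X9 i) = ph (t * (ρ * y - 1)) := by
    intro i y h3 h4
    rw [hfe', h3, h4]
    simp
  have key2 : ∀ (i : Fin 9) (y : ℝ), vx Fp (X9 i) = 2 → vx p (X9 i) = 2 * (ρ * y) →
      f (X9 i) = Real.exp (-t) * ph (2 * t * (ρ * y - 1)) := by
    intro i y h3 h4
    rw [hfe', h3, h4]
    congr 2
    · ring
    · ring
  have hd3 : d3 = -(d1 + d2) := by linarith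
  have hq : ∀ (i : Fin 9) (q : Fin 6 → ℝ), qf q (rv (X9 i)) =
      q 0 * rv (X9 i) 0 ^ 2 + q 1 * rv (X9 i) 1 ^ 2 + q 2 * rv (X9 i) 2 ^ 2 +
      q 3 * (rv (X9 i) 0 - rv (X9 i) 1) ^ 2 + q 4 * (rv (X9 i) 0 - rv (X9 i) 2) ^ 2 +
      q 5 * (rv (X9 i) 1 - rv (X9 i) 2) ^ 2 := fun _ _ => rfl
  have v1 : ∀ i : Fin 9, qf Fp (rv (X9 i)) = 2 → vx Fp (X9 i) = 1 := by
    intro i h
    unfold vx
    rw [kk_rad_Fp, h]
    norm_num
  have v2 : ∀ i : Fin 9, qf Fp (rv (X9 i)) = 4 → vx Fp (X9 i) = 2 := by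
    intro i h
    unfold vx
    rw [kk_rad_Fp, h]
    norm_num
  have k0 := key1 0 (1 - d1 / 2 + w1) (v1 _ (by rw [hq]; unfold Fp rv X9; simp; try norm_num))
    (by rw [ha, hq, hpdef]; unfold pp rv X9; rw [hd3]; simp; ring)
  have k1 := key1 1 (1 - d1 / 2 - w1) (v1 _ (by rw [hq]; unfold Fp rv X9; simp; try norm_num))
    (by rw [ha, hq, hpdef]; unfold pp rv X9; rw [hd3]; simp; ring)
  have k2 := key1 2 (1 - d2 / 2 + w2) (v1 _ (by rw [hq]; unfold Fp rv X9; simp; try norm_num))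
    (by rw [ha, hq, hpdef]; unfold pp rv X9; rw [hd3]; simp; ring)
  have k3 := key1 3 (1 - d2 / 2 - w2) (v1 _ (by rw [hq]; unfold Fp rv X9; simp; try norm_num))
    (by rw [ha, hq, hpdef]; unfold pp rv X9; rw [hd3]; simp; ring)
  have k4 := key1 4 (1 - d3 / 2 + w3) (v1 _ (by rw [hq]; unfold Fp rv X9; simp; try norm_num))
    (by rw [ha, hq, hpdef]; unfold pp rv X9; rw [hd3]; simp; ring)
  have k5 := key1 5 (1 - d3 / 2 - w3) (v1 _ (by rw [hq]; unfold Fp rv X9; simp; try norm_num))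
    (by rw [ha, hq, hpdef]; unfold pp rv X9; rw [hd3]; simp; ring)
  have k6 := key2 6 (1 + d1) (v2 _ (by rw [hq]; unfold Fp rv X9; simp; try norm_num))
    (by rw [ha, hq, hpdef]; unfold pp rv X9; rw [hd3]; simp; ring)
  have k7 := key2 7 (1 + d2) (v2 _ (by rw [hq]; unfold Fp rv X9; simp; try norm_num))
    (by rw [ha, hq, hpdef]; unfold pp rv X9; rw [hd3]; simp; ring)
  have k8 := key2 8 (1 + d3) (v2 _ (by rw [hq]; unfold Fp rv X9; simp; try norm_num))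
    (by rw [ha, hq, hpdef]; unfold pp rv X9; rw [hd3]; simp; ring)
  rw [sumx9', k0, k1, k2, k3, k4, k5, k6, k7, k8] at h2
  linarith

end Pool.Agent.V7H99
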