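import Pool.Agent.V7H99.Bd
import Pool.Agent.V7H99.Lc2

/-!
# Local minimality of the face-centred cubic form
-/

set_option autoImplicit false

open Matrix

namespace Pool.Agent.V7H99

open Pool.Agent.K1H99.FCC (N0 rv cc PD PD_Fp Fp pp dt dt_pp rad rad_pos dt_pos rad_cube rad_Fp rad_Fp_pos)

lemma x38 {t : ℝ} (ht : 38 / 10 ≤ t) : Real.exp (-t) ≤ 224 / 10000 := by
  have h1 : Real.exp (-t) ≤ Real.exp (-(38 / 10)) := Real.exp_le_exp.2 (by linarith)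
  refine h1.trans (exp_neg_le_of (by norm_num) ?_)
  refine le_trans ?_ (Real.sum_le_exp_of_nonneg (by norm_num) 16)
  norm_num [Finset.sum_range_succ, Nat.factorial]

lemma x44 : 12277 / 1000000 ≤ Real.exp (-(44 / 10)) := by
  have h1 : Real.exp (44 / 10) = Real.exp 1 ^ 4 * Real.exp (4 / 10) := by
    rw [← Real.exp_nat_mul, ← Real.exp_add]
    norm_num
  have h2 : Real.exp (4 / 10) ≤ 149183 / 100000 := by
    refine (Real.exp_bound' (by norm_num) (by norm_num) (n := 8) (by norm_num)).trans ?_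
    norm_num [Finset.sum_range_succ, Nat.factorial]
  have h3 : Real.exp 1 ^ 4 ≤ (27182819 / 10000000) ^ 4 := by
    have := Real.exp_one_lt_d9
    gcongr
    linarith
  have h4 : Real.exp (44 / 10) ≤ (27182819 / 10000000) ^ 4 * (149183 / 100000) := by
    rw [h1]
    exact mul_le_mul h3 h2 (Real.exp_pos _).le (by norm_num)
  rw [Real.exp_neg, le_inv_comm₀ (by norm_num) (Real.exp_pos _)]
  refine h4.trans ?_
  norm_num

lemma xlo {t : ℝ} (ht : t ≤ 44 / 10) :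
    12277 / 1000000 * (1 + (44 / 10 - t) + (44 / 10 - t) ^ 2 / 2) ≤ Real.exp (-t) := by
  have h1 : Real.exp (-t) = Real.exp (-(44 / 10)) * Real.exp (44 / 10 - t) := by
    rw [← Real.exp_add]
    congr 1
    ring
  rw [h1]
  have h2 := Real.quadratic_le_exp_of_nonneg (x := 44 / 10 - t) (by linarith)
  have h3 : 0 ≤ 1 + (44 / 10 - t) + (44 / 10 - t) ^ 2 / 2 := by
    have : 0 ≤ 44 / 10 - t := by linarith
    positivity
  exact mul_le_mul x44 h2 h3 (Real.exp_pos _).le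

lemma abs_key {a b c : ℝ} (h1 : a + b + c = 0) (h2 : a ^ 2 + b ^ 2 + c ^ 2 ≤ 1 / 64) :
    |a| ≤ 1021 / 10000 := by
  have hc : c = -a - b := by linarith
  rw [hc] at h2
  apply abs_le_of_sq_le_sq _ (by norm_num)
  nlinarith [sq_nonneg (a + 2 * b)]

lemma abs_key2 {a : ℝ} (ha : a ^ 2 ≤ 1 / 42) : |a| ≤ 1544 / 10000 := by
  apply abs_le_of_sq_le_sq _ (by norm_num)
  linarith

/-- **local minimality** -/
theorem loc_main {d1 d2 d3 w1 w2 w3 : ℝ} (hd : d1 + d2 + d3 = 0)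
    (hS : d1 ^ 2 + d2 ^ 2 + d3 ^ 2 ≤ 1 / 70) (hW : w1 ^ 2 + w2 ^ 2 + w3 ^ 2 ≤ 1 / 44)
    (hp : PD (pp d1 d2 d3 w1 w2 w3)) {t : ℝ} (ht : 38 / 10 ≤ t) :
    Tt t + 1 / 100 * ((d1 ^ 2 + d2 ^ 2 + d3 ^ 2) + (w1 ^ 2 + w2 ^ 2 + w3 ^ 2)) ≤
      Gs (pp d1 d2 d3 w1 w2 w3) t := by
  have ht0 : 0 < t := by linarith
  set p := pp d1 d2 d3 w1 w2 w3 with hpdef
  have hr : 0 < rad p := rad_pos (dt_pos hp)
  have hF := rad_Fp_pos
  set ρ := rad Fp / rad p with hρ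
  have hρ0 : 0 < ρ := by rw [hρ]; positivity
  have hg := gs_loc hd hp hρ ht0
  rw [← hpdef] at hg
  -- the determinant
  set Δ := (1 + d1) * (1 + d2) * (1 + d3) + 2 * (w1 * w2 * w3) - (1 + d1) * w1 ^ 2 -
      (1 + d2) * w2 ^ 2 - (1 + d3) * w3 ^ 2 with hΔ
  have hdt : dt p = 4 * Δ := by rw [hpdef, dt_pp]
  have hρ3 : ρ ^ 3 * Δ = 1 := by
    have h1 := rad_cube (dt_pos hp).le
    have h2 : Δ = dt p / 4 := by rw [hdt]; ring
    rw [h2, hρ, div_pow, rad_Fp, h1]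
    have h3 := dt_pos hp
    field_simp
  set S := d1 ^ 2 + d2 ^ 2 + d3 ^ 2 with hSd
  set W := w1 ^ 2 + w2 ^ 2 + w3 ^ 2 with hWd
  have hS0 : 0 ≤ S := by rw [hSd]; positivity
  have hW0 : 0 ≤ W := by rw [hWd]; positivity
  have B := b_bound hd hSd (by linarith)
  have Mu := m_bound hWd (by linarith)
  have Eb := e_bound hd hSd (by linarith) hWd
  have hΔe : Δ = 1 - S / 2 + d1 * d2 * d3 + 2 * (w1 * w2 * w3) - W -
      (d1 * w1 ^ 2 + d2 * w2 ^ 2 + d3 * w3 ^ 2) := by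
    have h3 : d3 = -d1 - d2 := by linarith
    rw [hΔ, hSd, hWd, h3]
    ring
  rw [abs_le] at B Mu Eb
  have hΔ1 : Δ ≤ 1 := by rw [hΔe]; linarith
  have hΔ2 : 96621 / 100000 ≤ Δ := by rw [hΔe]; linarith
  have hΔ0 : 0 < Δ := by linarith
  have hρ1 : 1 ≤ ρ := by
    by_contra hc
    push Not at hc
    have h1 : ρ ^ 3 < 1 := pow_lt_one₀ hρ0.le hc (by norm_num)
    have h2 : ρ ^ 3 * Δ ≤ ρ ^ 3 * 1 := mul_le_mul_of_nonneg_left hΔ1 (by positivity)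
    linarith
  have hρ2 : ρ ≤ 1012 / 1000 := by
    by_contra hc
    push Not at hc
    have h1 : (1012 / 1000 : ℝ) ^ 3 < ρ ^ 3 := pow_lt_pow_left₀ hc (by norm_num) (by norm_num)
    have h2 : ρ ^ 3 * (96621 / 100000) ≤ ρ ^ 3 * Δ :=
      mul_le_mul_of_nonneg_left hΔ2 (by positivity)
    rw [hρ3] at h2
    norm_num at h1 h2
    linarith
  -- normalised variables
  set h := ρ - 1 with hh
  have h0 : 0 ≤ h := by rw [hh]; linarith
  have hρh : ρ = 1 + h := by rw [hh]; ring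
  set s := (ρ * d1) ^ 2 + (ρ * d2) ^ 2 + (ρ * d3) ^ 2 with hs
  set q := (ρ * w1) ^ 2 + (ρ * w2) ^ 2 + (ρ * w3) ^ 2 with hq
  have hsS : s = ρ ^ 2 * S := by rw [hs, hSd]; ring
  have hqW : q = ρ ^ 2 * W := by rw [hq, hWd]; ring
  have hρsq : ρ ^ 2 ≤ (1012 / 1000) ^ 2 := by gcongr
  have hρsq1 : 1 ≤ ρ ^ 2 := one_le_pow₀ hρ1
  have s0 : 0 ≤ s := by rw [hsS]; positivity
  have q0 : 0 ≤ q := by rw [hqW]; positivity
  have s1 : s ≤ 1 / 64 := by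
    rw [hsS]
    calc ρ ^ 2 * S ≤ (1012 / 1000) ^ 2 * (1 / 70) := mul_le_mul hρsq hS hS0 (by norm_num)
      _ ≤ 1 / 64 := by norm_num
  have q1 : q ≤ 1 / 42 := by
    rw [hqW]
    calc ρ ^ 2 * W ≤ (1012 / 1000) ^ 2 * (1 / 44) := mul_le_mul hρsq hW hW0 (by norm_num)
      _ ≤ 1 / 42 := by norm_num
  have hβ : ρ * d1 + ρ * d2 + ρ * d3 = 0 := by rw [← mul_add, ← mul_add, hd, mul_zero]
  have hb := b_bound hβ hs s1
  have hm := m_bound hq q1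
  have hE := e_bound hβ hs s1 hq
  set b := ρ * d1 * (ρ * d2) * (ρ * d3) with hbd
  set mu := ρ * w1 * (ρ * w2) * (ρ * w3) with hmd
  set E := ρ * d1 * (ρ * w1) ^ 2 + ρ * d2 * (ρ * w2) ^ 2 + ρ * d3 * (ρ * w3) ^ 2 with hEd
  have hrel : 3 * h + 3 * h ^ 2 + h ^ 3 = (1 + h) * (s / 2 + q) - b - 2 * mu + E := by
    have e1 : 3 * h + 3 * h ^ 2 + h ^ 3 = ρ ^ 3 - 1 := by rw [hρh]; ring
    have e2 : ρ ^ 3 - 1 = ρ ^ 3 - ρ ^ 3 * Δ := by rw [hρ3]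
    rw [e1, e2, ← hρh, hbd, hmd, hEd, hsS, hqW, hΔe]
    ring
  have hH := h_bound h0 s0 q0 s1 q1 hb hm hE hrel
  have hfin : 1 / 100 * (S + W) ≤ 1 / 100 * (s + q) := by
    rw [hsS, hqW]
    linarith [mul_nonneg (sub_nonneg.2 hρsq1) hS0, mul_nonneg (sub_nonneg.2 hρsq1) hW0]
  have hMt := mt_le (t := t) (by linarith)
  set x := Real.exp (-t) with hx
  have hx0 : 0 < x := Real.exp_pos _
  have hx1 : x ≤ 224 / 10000 := x38 ht
  have hthM : t * (ρ - 1) * Mt t ≤ t * h * (12 + 12 * x + 74 * x ^ 2) :=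
    mul_le_mul_of_nonneg_left hMt (by positivity)
  rcases le_total t 12 with ht12 | ht12
  · have hc := core1 ht ht12 hx0.le hx1 (fun h => xlo h) h0 s0 q0 s1 q1 hb hm hE hrel
    have hP : ∀ y, y ^ 2 / 2 - y ^ 3 / 6 ≤ ph y := by
      intro y
      have := exp_p3 y
      unfold ph
      linarith
    have a1 := hP (t * (ρ * (1 - d1 / 2 + w1) - 1))
    have a2 := hP (t * (ρ * (1 - d1 / 2 - w1) - 1))
    have a3 := hP (t * (ρ * (1 - d2 / 2 + w2) - 1))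
    have a4 := hP (t * (ρ * (1 - d2 / 2 - w2) - 1))
    have a5 := hP (t * (ρ * (1 - d3 / 2 + w3) - 1))
    have a6 := hP (t * (ρ * (1 - d3 / 2 - w3) - 1))
    have a7 := mul_le_mul_of_nonneg_left (hP (2 * t * (ρ * (1 + d1) - 1))) hx0.le
    have a8 := mul_le_mul_of_nonneg_left (hP (2 * t * (ρ * (1 + d2) - 1))) hx0.le
    have a9 := mul_le_mul_of_nonneg_left (hP (2 * t * (ρ * (1 + d3) - 1))) hx0.le
    have key : 2 * (((t * (ρ * (1 - d1 / 2 + w1) - 1)) ^ 2 / 2 -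
          (t * (ρ * (1 - d1 / 2 + w1) - 1)) ^ 3 / 6) +
        ((t * (ρ * (1 - d1 / 2 - w1) - 1)) ^ 2 / 2 - (t * (ρ * (1 - d1 / 2 - w1) - 1)) ^ 3 / 6) +
        ((t * (ρ * (1 - d2 / 2 + w2) - 1)) ^ 2 / 2 - (t * (ρ * (1 - d2 / 2 + w2) - 1)) ^ 3 / 6) +
        ((t * (ρ * (1 - d2 / 2 - w2) - 1)) ^ 2 / 2 - (t * (ρ * (1 - d2 / 2 - w2) - 1)) ^ 3 / 6) +
        ((t * (ρ * (1 - d3 / 2 + w3) - 1)) ^ 2 / 2 - (t * (ρ * (1 - d3 / 2 + w3) - 1)) ^ 3 / 6) +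
        ((t * (ρ * (1 - d3 / 2 - w3) - 1)) ^ 2 / 2 - (t * (ρ * (1 - d3 / 2 - w3) - 1)) ^ 3 / 6) +
        (x * ((2 * t * (ρ * (1 + d1) - 1)) ^ 2 / 2 - (2 * t * (ρ * (1 + d1) - 1)) ^ 3 / 6) +
        x * ((2 * t * (ρ * (1 + d2) - 1)) ^ 2 / 2 - (2 * t * (ρ * (1 + d2) - 1)) ^ 3 / 6) +
        x * ((2 * t * (ρ * (1 + d3) - 1)) ^ 2 / 2 - (2 * t * (ρ * (1 + d3) - 1)) ^ 3 / 6))) =
        t ^ 2 * (1 / 2 + 4 * x) * s + 2 * t ^ 2 * q + t ^ 2 * h ^ 2 * (6 + 12 * x) -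
        2 * t ^ 3 * h ^ 3 - t ^ 3 / 2 * (h * s) + t ^ 3 / 4 * b - 2 * t ^ 3 * (h * q) + t ^ 3 * E -
        8 * t ^ 3 * x * (b + h * s + h ^ 3) := by
      have h3 : d3 = -d1 - d2 := by linarith
      rw [hs, hq, hbd, hEd, hh, h3]
      ring
    linarith
  · -- large values
    have c1 := abs_key (a := ρ * d1) hβ (by rw [← hs]; exact s1)
    have c2 := abs_key (a := ρ * d2) (b := ρ * d1) (c := ρ * d3) (by linarith) (by linarith)
    have c3 := abs_key (a := ρ * d3) (b := ρ * d1) (c := ρ * d2) (by linarith) (by linarith)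
    have m1 := abs_key2 (a := ρ * w1) (by linarith [sq_nonneg (ρ * w2), sq_nonneg (ρ * w3)])
    have m2 := abs_key2 (a := ρ * w2) (by linarith [sq_nonneg (ρ * w1), sq_nonneg (ρ * w3)])
    have m3 := abs_key2 (a := ρ * w3) (by linarith [sq_nonneg (ρ * w2), sq_nonneg (ρ * w1)])
    rw [abs_le] at c1 c2 c3 m1 m2 m3
    have hP : ∀ z, z ≤ 22 / 100 → (t * z) ^ 2 / (2 + 22 / 100 * t) ≤ ph (t * z) := by
      intro z hz
      have h9 := mul_le_mul_of_nonneg_left hz ht0.le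
      exact phi_ge (y := t * z) (Y := 22 / 100 * t) (by positivity) (by linarith)
    have hh12 := hH.2.1
    have a1 := hP (ρ * (1 - d1 / 2 + w1) - 1) (by linarith)
    have a2 := hP (ρ * (1 - d1 / 2 - w1) - 1) (by linarith)
    have a3 := hP (ρ * (1 - d2 / 2 + w2) - 1) (by linarith)
    have a4 := hP (ρ * (1 - d2 / 2 - w2) - 1) (by linarith)
    have a5 := hP (ρ * (1 - d3 / 2 + w3) - 1) (by linarith)
    have a6 := hP (ρ * (1 - d3 / 2 - w3) - 1) (by linarith)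
    have a7 := mul_nonneg hx0.le (ph_nonneg (2 * t * (ρ * (1 + d1) - 1)))
    have a8 := mul_nonneg hx0.le (ph_nonneg (2 * t * (ρ * (1 + d2) - 1)))
    have a9 := mul_nonneg hx0.le (ph_nonneg (2 * t * (ρ * (1 + d3) - 1)))
    set S2 := (ρ * (1 - d1 / 2 + w1) - 1) ^ 2 + (ρ * (1 - d1 / 2 - w1) - 1) ^ 2 +
      (ρ * (1 - d2 / 2 + w2) - 1) ^ 2 + (ρ * (1 - d2 / 2 - w2) - 1) ^ 2 +
      (ρ * (1 - d3 / 2 + w3) - 1) ^ 2 + (ρ * (1 - d3 / 2 - w3) - 1) ^ 2 with hS2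
    have hS2e : S2 = 6 * h ^ 2 + s / 2 + 2 * q := by
      have h3 : d3 = -d1 - d2 := by linarith
      rw [hS2, hs, hq, hh, h3]
      ring
    have hxs : x ≤ 1 / 20000 := by
      refine le_trans ?_ exp10
      rw [hx]
      exact Real.exp_le_exp.2 (by linarith)
    have hx2 : x ^ 2 ≤ x * (1 / 20000) := by
      rw [sq]
      exact mul_le_mul_of_nonneg_left hxs hx0.le
    have hM12 : Mt t ≤ 12001 / 1000 := by linarith
    have hc := core2 ht12 hM12 h0 s0 q0 hH.1 (S2 := S2) (by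
      have := sq_nonneg h
      rw [hS2e]
      linarith)
    have hsum : t ^ 2 * S2 / (2 + 22 / 100 * t) =
        (t * (ρ * (1 - d1 / 2 + w1) - 1)) ^ 2 / (2 + 22 / 100 * t) +
        (t * (ρ * (1 - d1 / 2 - w1) - 1)) ^ 2 / (2 + 22 / 100 * t) +
        (t * (ρ * (1 - d2 / 2 + w2) - 1)) ^ 2 / (2 + 22 / 100 * t) +
        (t * (ρ * (1 - d2 / 2 - w2) - 1)) ^ 2 / (2 + 22 / 100 * t) +
        (t * (ρ * (1 - d3 / 2 + w3) - 1)) ^ 2 / (2 + 22 / 100 * t) +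
        (t * (ρ * (1 - d3 / 2 - w3) - 1)) ^ 2 / (2 + 22 / 100 * t) := by
      rw [hS2]
      ring
    linarith

end Pool.Agent.V7H99
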