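import Pool.Agent.V7H99.Bg

/-!
# The local region of the body-centred cubic form
-/

set_option autoImplicit false

open Matrix

namespace Pool.Agent.V7H99

open Pool.Agent.K1H99.FCC (N0 rv nsq Qm qf af PD dt rad rad_pos rad_cube dt_pos Fp pp dt_pp
  pd_of_dt dt_smul rad_smul PD_Fp Fp_eq)

lemma qf_pp_vm (d1 d2 d3 w1 w2 w3 : ℝ) (y : Fin 3 → ℝ) : qf (pp d1 d2 d3 w1 w2 w3) (vm y) =
    (1 + d1) * (y 1 + y 2) ^ 2 + (1 + d2) * (y 0 + y 2) ^ 2 + (1 + d3) * (y 0 + y 1) ^ 2 +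
      2 * w3 * (y 1 + y 2) * (y 0 + y 2) + 2 * w2 * (y 1 + y 2) * (y 0 + y 1) +
      2 * w1 * (y 0 + y 2) * (y 0 + y 1) := by
  unfold qf pp vm
  simp
  ring

/-- the data of the dual form -/
lemma dual_data (p : Fin 6 → ℝ) {ν d1 d2 d3 w1 w2 w3 : ℝ}
    (e1 : ν * (1 + d1) = (p 1 * p 2 + p 1 * p 5 + p 2 * p 5 + (p 0 * p 2 + p 0 * p 4 + p 2 * p 4) +
      (p 0 * p 1 + p 0 * p 3 + p 1 * p 3) + (p 3 * p 4 + p 3 * p 5 + p 4 * p 5)) / 4 + p 0 * p 5)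
    (e2 : ν * (1 + d2) = (p 1 * p 2 + p 1 * p 5 + p 2 * p 5 + (p 0 * p 2 + p 0 * p 4 + p 2 * p 4) +
      (p 0 * p 1 + p 0 * p 3 + p 1 * p 3) + (p 3 * p 4 + p 3 * p 5 + p 4 * p 5)) / 4 + p 1 * p 4)
    (e3 : ν * (1 + d3) = (p 1 * p 2 + p 1 * p 5 + p 2 * p 5 + (p 0 * p 2 + p 0 * p 4 + p 2 * p 4) +
      (p 0 * p 1 + p 0 * p 3 + p 1 * p 3) + (p 3 * p 4 + p 3 * p 5 + p 4 * p 5)) / 4 + p 2 * p 3)
    (f3 : ν * w3 = (-(p 1 * p 2 + p 1 * p 5 + p 2 * p 5) - (p 0 * p 2 + p 0 * p 4 + p 2 * p 4) +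
      (p 0 * p 1 + p 0 * p 3 + p 1 * p 3) + (p 3 * p 4 + p 3 * p 5 + p 4 * p 5)) / 4)
    (f2 : ν * w2 = (-(p 1 * p 2 + p 1 * p 5 + p 2 * p 5) + (p 0 * p 2 + p 0 * p 4 + p 2 * p 4) -
      (p 0 * p 1 + p 0 * p 3 + p 1 * p 3) + (p 3 * p 4 + p 3 * p 5 + p 4 * p 5)) / 4)
    (f1 : ν * w1 = ((p 1 * p 2 + p 1 * p 5 + p 2 * p 5) - (p 0 * p 2 + p 0 * p 4 + p 2 * p 4) -
      (p 0 * p 1 + p 0 * p 3 + p 1 * p 3) + (p 3 * p 4 + p 3 * p 5 + p 4 * p 5)) / 4) :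
    (∀ y : Fin 3 → ℝ, af p y = ν * qf (pp d1 d2 d3 w1 w2 w3) (vm y)) ∧
      ν ^ 3 * dt (pp d1 d2 d3 w1 w2 w3) = dt p ^ 2 := by
  constructor
  · intro y
    rw [qf_pp_vm]
    have : ν * ((1 + d1) * (y 1 + y 2) ^ 2 + (1 + d2) * (y 0 + y 2) ^ 2 +
        (1 + d3) * (y 0 + y 1) ^ 2 +
        2 * w3 * (y 1 + y 2) * (y 0 + y 2) + 2 * w2 * (y 1 + y 2) * (y 0 + y 1) +
        2 * w1 * (y 0 + y 2) * (y 0 + y 1)) =
        (ν * (1 + d1)) * (y 1 + y 2) ^ 2 + (ν * (1 + d2)) * (y 0 + y 2) ^ 2 +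
        (ν * (1 + d3)) * (y 0 + y 1) ^ 2 +
        2 * (ν * w3) * (y 1 + y 2) * (y 0 + y 2) + 2 * (ν * w2) * (y 1 + y 2) * (y 0 + y 1) +
        2 * (ν * w1) * (y 0 + y 2) * (y 0 + y 1) := by ring
    rw [this, e1, e2, e3, f1, f2, f3]
    unfold af
    ring
  · rw [dt_pp]
    have : ν ^ 3 * (4 * ((1 + d1) * (1 + d2) * (1 + d3) + 2 * (w1 * w2 * w3) - (1 + d1) * w1 ^ 2 -
        (1 + d2) * w2 ^ 2 - (1 + d3) * w3 ^ 2)) =
        4 * ((ν * (1 + d1)) * (ν * (1 + d2)) * (ν * (1 + d3)) + 2 * ((ν * w1) * (ν * w2) * (ν * w3)) -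
        (ν * (1 + d1)) * (ν * w1) ^ 2 - (ν * (1 + d2)) * (ν * w2) ^ 2 -
        (ν * (1 + d3)) * (ν * w3) ^ 2) := by ring
    rw [this, e1, e2, e3, f1, f2, f3]
    unfold dt
    ring

/-- the theta series of the body-centred cubic form -/
lemma ps_Bp {t : ℝ} (ht : 0 < t) :
    Ps Bp t = (t / t0) ^ (-(3 / 2) : ℝ) * Ps Fp (t0 ^ 2 / t) := by
  obtain ⟨h1, h2⟩ := dual_data Bp (ν := 4) (d1 := 0) (d2 := 0) (d3 := 0) (w1 := 0) (w2 := 0)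
    (w3 := 0) (by unfold Bp; simp; norm_num) (by unfold Bp; simp; norm_num)
    (by unfold Bp; simp; norm_num) (by unfold Bp; simp; norm_num) (by unfold Bp; simp; norm_num)
    (by unfold Bp; simp; norm_num)
  rw [← Fp_eq] at h1 h2
  exact ps_dual PD_Bp (by norm_num) h1 (dt_pos PD_Fp) h2 ht

/-- the bounds for the off-diagonal entries -/
lemma w_bound {m a b c e f : ℝ} (hm : 0 < m) (ha : |a| ≤ 3 / 20 * m) (hb : |b| ≤ 3 / 20 * m)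
    (hc : |c| ≤ 3 / 20 * m) (hs : |a| + |e| ≤ 3 / 20 * m) (hf : f = -a * (2 * m - e) + b * c) :
    f ^ 2 ≤ (3225 / 10000 * m ^ 2) ^ 2 := by
  have h1 : |f| ≤ 3225 / 10000 * m ^ 2 := by
    rw [hf]
    have h2 : |b * c| ≤ (3 / 20 * m) * (3 / 20 * m) := by
      rw [abs_mul]
      exact mul_le_mul hb hc (abs_nonneg _) (by positivity)
    have h3 : |-a * (2 * m - e)| ≤ |a| * (2 * m + |e|) := by
      rw [abs_mul, abs_neg]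
      refine mul_le_mul_of_nonneg_left ?_ (abs_nonneg _)
      refine (abs_sub _ _).trans ?_
      rw [abs_of_pos (by positivity : 0 < 2 * m)]
    have h4 : |a| * (2 * m + |e|) ≤ 3 / 10 * m ^ 2 := by
      have a0 := abs_nonneg a
      have e0 := abs_nonneg e
      have h5 := mul_nonneg a0 (sub_nonneg.2 hs)
      have h6 := mul_nonneg hm.le (sub_nonneg.2 ha)
      have h7 := mul_nonneg a0 e0
      have h8 := mul_nonneg a0 (sub_nonneg.2 ha)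
      nlinarith only [h5, h6, h7, h8, sq_nonneg (|a|), sq_nonneg (3 / 20 * m - |a|)]
    calc |-a * (2 * m - e) + b * c| ≤ |-a * (2 * m - e)| + |b * c| := abs_add_le _ _
      _ ≤ 3 / 10 * m ^ 2 + (3 / 20 * m) * (3 / 20 * m) := add_le_add (h3.trans h4) h2
      _ = _ := by ring
  exact sq_le_sq' (abs_le.1 h1).1 (abs_le.1 h1).2

lemma e2_bound {b x y z : ℝ} (hb : 0 < b) (hx : |x| ≤ b) (hy : |y| ≤ b) (hz : |z| ≤ b)
    (h : x + y + z = 0) : x ^ 2 + y ^ 2 + z ^ 2 ≤ 2 * b ^ 2 := by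
  rw [abs_le] at hx hy hz
  have hz' : z = -x - y := by linarith
  have h1 : 0 ≤ (b - x) * (b - y) * (b - z) :=
    mul_nonneg (mul_nonneg (by linarith) (by linarith)) (by linarith)
  have h2 : 0 ≤ (b + x) * (b + y) * (b + z) :=
    mul_nonneg (mul_nonneg (by linarith) (by linarith)) (by linarith)
  have h3 : 0 ≤ b * (2 * b ^ 2 - (x ^ 2 + y ^ 2 + z ^ 2)) := by
    have e : b * (2 * b ^ 2 - (x ^ 2 + y ^ 2 + z ^ 2)) =
        (b - x) * (b - y) * (b - z) + (b + x) * (b + y) * (b + z) := by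
      rw [hz']
      ring
    rw [e]
    linarith
  have h4 := nonneg_of_mul_nonneg_right h3 hb
  linarith

lemma d_bound {m s d : ℝ} (hm : 0 < m) (h : |s| + |d| ≤ 3 / 20 * m) :
    (2 * m * s + (s ^ 2 - d ^ 2)) ^ 2 ≤ 4 * m ^ 2 * s ^ 2 + 1401 / 100000 * m ^ 4 := by
  have s0 := abs_nonneg s
  have d0 := abs_nonneg d
  have h1 : |s ^ 2 - d ^ 2| ≤ 9 / 400 * m ^ 2 := by
    rw [abs_le]
    rw [← sq_abs s, ← sq_abs d]
    have h2 := sub_nonneg.2 h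
    have h3 := mul_nonneg s0 h2
    have h4 := mul_nonneg d0 h2
    have h5 := mul_nonneg s0 d0
    have h6 := mul_nonneg hm.le h2
    constructor <;> nlinarith only [h3, h4, h5, h6, sq_nonneg (|s|), sq_nonneg (|d|)]
  have h2 : |s| ≤ 3 / 20 * m := by linarith
  have h3 : (2 * m * s + (s ^ 2 - d ^ 2)) ^ 2 =
      4 * m ^ 2 * s ^ 2 + 4 * m * (s * (s ^ 2 - d ^ 2)) + (s ^ 2 - d ^ 2) ^ 2 := by ring
  have h4 : s * (s ^ 2 - d ^ 2) ≤ (3 / 20 * m) * (9 / 400 * m ^ 2) := by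
    refine (le_abs_self _).trans ?_
    rw [abs_mul]
    exact mul_le_mul h2 h1 (abs_nonneg _) (by positivity)
  have h5 : (s ^ 2 - d ^ 2) ^ 2 ≤ (9 / 400 * m ^ 2) ^ 2 := sq_le_sq' (abs_le.1 h1).1 (abs_le.1 h1).2
  rw [h3]
  have h6 := mul_le_mul_of_nonneg_left h4 hm.le
  have h7 : m * (3 / 20 * m * (9 / 400 * m ^ 2)) = 27 / 8000 * m ^ 4 := by ring
  have h8 : (9 / 400 * m ^ 2) ^ 2 = 81 / 160000 * m ^ 4 := by ring
  have h9 := pow_pos hm 4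
  rw [h7] at h6
  rw [h8] at h5
  linarith

/-- the scale of the dual form -/
lemma nu_bound {m s1 s2 s3 d1 d2 d3 ν : ℝ} (hm0 : 0 < m) (hs : s1 + s2 + s3 = 0)
    (b1 : |s1| + |d1| ≤ 3 / 20 * m) (b2 : |s2| + |d2| ≤ 3 / 20 * m)
    (b3 : |s3| + |d3| ≤ 3 / 20 * m)
    (hν : ν = 4 * m ^ 2 - (s1 ^ 2 + s2 ^ 2 + s3 ^ 2) / 6 - (d1 ^ 2 + d2 ^ 2 + d3 ^ 2) / 3) :
    397 / 100 * m ^ 2 ≤ ν ∧ s1 ^ 2 + s2 ^ 2 + s3 ^ 2 ≤ 2 * (3 / 20 * m) ^ 2 := by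
  have a1 := abs_nonneg s1
  have a2 := abs_nonneg s2
  have a3 := abs_nonneg s3
  have a4 := abs_nonneg d1
  have a5 := abs_nonneg d2
  have a6 := abs_nonneg d3
  have hE := e2_bound (b := 3 / 20 * m) (by positivity) (show |s1| ≤ 3 / 20 * m by linarith)
    (show |s2| ≤ 3 / 20 * m by linarith) (show |s3| ≤ 3 / 20 * m by linarith) hs
  have hdd : ∀ d : ℝ, |d| ≤ 3 / 20 * m → d ^ 2 ≤ 9 / 400 * m ^ 2 := by
    intro d hd
    have := sq_le_sq' (abs_le.1 hd).1 (abs_le.1 hd).2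
    calc d ^ 2 ≤ (3 / 20 * m) ^ 2 := this
      _ = _ := by ring
  have g1 := hdd d1 (by linarith)
  have g2 := hdd d2 (by linarith)
  have g3 := hdd d3 (by linarith)
  refine ⟨?_, hE⟩
  have h1 : 2 * (3 / 20 * m) ^ 2 = 45 / 1000 * m ^ 2 := by ring
  rw [h1] at hE
  rw [hν]
  linarith

lemma hS_bound {m s1 s2 s3 d1 d2 d3 ν D1 D2 D3 : ℝ} (hm0 : 0 < m) (hs : s1 + s2 + s3 = 0)
    (b1 : |s1| + |d1| ≤ 3 / 20 * m) (b2 : |s2| + |d2| ≤ 3 / 20 * m)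
    (b3 : |s3| + |d3| ≤ 3 / 20 * m) (hν1 : 397 / 100 * m ^ 2 ≤ ν)
    (hE : s1 ^ 2 + s2 ^ 2 + s3 ^ 2 ≤ 2 * (3 / 20 * m) ^ 2)
    (x1 : ν * D1 = 2 * m * s1 + (s1 ^ 2 - d1 ^ 2) - (s1 ^ 2 + s2 ^ 2 + s3 ^ 2 - d1 ^ 2 -
      d2 ^ 2 - d3 ^ 2) / 3)
    (x2 : ν * D2 = 2 * m * s2 + (s2 ^ 2 - d2 ^ 2) - (s1 ^ 2 + s2 ^ 2 + s3 ^ 2 - d1 ^ 2 -
      d2 ^ 2 - d3 ^ 2) / 3)
    (x3 : ν * D3 = 2 * m * s3 + (s3 ^ 2 - d3 ^ 2) - (s1 ^ 2 + s2 ^ 2 + s3 ^ 2 - d1 ^ 2 -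
      d2 ^ 2 - d3 ^ 2) / 3) :
    D1 + D2 + D3 = 0 ∧ D1 ^ 2 + D2 ^ 2 + D3 ^ 2 ≤ 1 / 70 := by
  have hm2 : 0 < m ^ 2 := by positivity
  have hν0 : 0 < ν := by linarith
  have hν2 : (397 / 100 * m ^ 2) ^ 2 ≤ ν ^ 2 := pow_le_pow_left₀ (by positivity) hν1 2
  have hs3' : s3 = -s1 - s2 := by linarith
  constructor
  · have h : ν * (D1 + D2 + D3) = 0 := by
      rw [mul_add, mul_add, x1, x2, x3, hs3']
      ring
    rcases mul_eq_zero.1 h with h | h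
    · exact absurd h hν0.ne'
    · exact h
  · have h1 : ν ^ 2 * (D1 ^ 2 + D2 ^ 2 + D3 ^ 2) ≤ ν ^ 2 * (1 / 70) := by
      have h2 : ν ^ 2 * (D1 ^ 2 + D2 ^ 2 + D3 ^ 2) = (ν * D1) ^ 2 + (ν * D2) ^ 2 + (ν * D3) ^ 2 := by
        ring
      rw [h2, x1, x2, x3]
      have k1 := d_bound hm0 b1
      have k2 := d_bound hm0 b2
      have k3 := d_bound hm0 b3
      have k4 : ∀ a b c u : ℝ, u = (a + b + c) / 3 → (a - u) ^ 2 + (b - u) ^ 2 + (c - u) ^ 2 ≤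
          a ^ 2 + b ^ 2 + c ^ 2 := by
        intro a b c u hu
        have e : (a - u) ^ 2 + (b - u) ^ 2 + (c - u) ^ 2 = a ^ 2 + b ^ 2 + c ^ 2 - 3 * u ^ 2 := by
          rw [hu]
          ring
        rw [e]
        linarith [sq_nonneg u]
      have k5 := k4 (2 * m * s1 + (s1 ^ 2 - d1 ^ 2)) (2 * m * s2 + (s2 ^ 2 - d2 ^ 2))
        (2 * m * s3 + (s3 ^ 2 - d3 ^ 2)) ((s1 ^ 2 + s2 ^ 2 + s3 ^ 2 - d1 ^ 2 - d2 ^ 2 - d3 ^ 2) / 3)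
        (by rw [hs3']; ring)
      have k6 : 4 * m ^ 2 * (s1 ^ 2 + s2 ^ 2 + s3 ^ 2) ≤ 4 * m ^ 2 * (2 * (3 / 20 * m) ^ 2) :=
        mul_le_mul_of_nonneg_left hE (by positivity)
      have k7 := pow_pos hm0 4
      have k8 : 4 * m ^ 2 * (2 * (3 / 20 * m) ^ 2) = 18 / 100 * m ^ 4 := by ring
      have k9 : (397 / 100 * m ^ 2) ^ 2 = 157609 / 10000 * m ^ 4 := by ring
      rw [k8] at k6
      rw [k9] at hν2
      have k10 : 4 * m ^ 2 * (s1 ^ 2 + s2 ^ 2 + s3 ^ 2) =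
        4 * m ^ 2 * s1 ^ 2 + 4 * m ^ 2 * s2 ^ 2 + 4 * m ^ 2 * s3 ^ 2 := by ring
      rw [k10] at k6
      refine k5.trans ?_
      refine (add_le_add (add_le_add k1 k2) k3).trans ?_
      linarith only [k6, k7, hν2]
    exact le_of_mul_le_mul_left h1 (by positivity)

lemma hW_bound {m s1 s2 s3 d1 d2 d3 ν W1 W2 W3 : ℝ} (hm0 : 0 < m)
    (b1 : |s1| + |d1| ≤ 3 / 20 * m) (b2 : |s2| + |d2| ≤ 3 / 20 * m)
    (b3 : |s3| + |d3| ≤ 3 / 20 * m) (hν1 : 397 / 100 * m ^ 2 ≤ ν)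
    (y1 : ν * W1 = -d1 * (2 * m - s1) + d2 * d3)
    (y2 : ν * W2 = -d2 * (2 * m - s2) + d1 * d3)
    (y3 : ν * W3 = -d3 * (2 * m - s3) + d1 * d2) : W1 ^ 2 + W2 ^ 2 + W3 ^ 2 ≤ 1 / 44 := by
  have a1 := abs_nonneg s1
  have a2 := abs_nonneg s2
  have a3 := abs_nonneg s3
  have a4 := abs_nonneg d1
  have a5 := abs_nonneg d2
  have a6 := abs_nonneg d3
  have hm2 : 0 < m ^ 2 := by positivity
  have hν0 : 0 < ν := by linarith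
  have hν2 : (397 / 100 * m ^ 2) ^ 2 ≤ ν ^ 2 := pow_le_pow_left₀ (by positivity) hν1 2
  have h1 : ν ^ 2 * (W1 ^ 2 + W2 ^ 2 + W3 ^ 2) ≤ ν ^ 2 * (1 / 44) := by
    have h2 : ν ^ 2 * (W1 ^ 2 + W2 ^ 2 + W3 ^ 2) = (ν * W1) ^ 2 + (ν * W2) ^ 2 + (ν * W3) ^ 2 := by
      ring
    rw [h2]
    have k1 := w_bound hm0 (show |d1| ≤ 3 / 20 * m by linarith)
      (show |d2| ≤ 3 / 20 * m by linarith) (show |d3| ≤ 3 / 20 * m by linarith)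
      (show |d1| + |s1| ≤ 3 / 20 * m by linarith) y1
    have k2 := w_bound hm0 (show |d2| ≤ 3 / 20 * m by linarith)
      (show |d1| ≤ 3 / 20 * m by linarith) (show |d3| ≤ 3 / 20 * m by linarith)
      (show |d2| + |s2| ≤ 3 / 20 * m by linarith) y2
    have k3 := w_bound hm0 (show |d3| ≤ 3 / 20 * m by linarith)
      (show |d1| ≤ 3 / 20 * m by linarith) (show |d2| ≤ 3 / 20 * m by linarith)
      (show |d3| + |s3| ≤ 3 / 20 * m by linarith) y3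
    have k7 := pow_pos hm0 4
    have k8 : (3225 / 10000 * m ^ 2) ^ 2 = 10400625 / 100000000 * m ^ 4 := by ring
    have k9 : (397 / 100 * m ^ 2) ^ 2 = 157609 / 10000 * m ^ 4 := by ring
    rw [k8] at k1 k2 k3
    rw [k9] at hν2
    refine (add_le_add (add_le_add k1 k2) k3).trans ?_
    linarith only [k7, hν2]
  exact le_of_mul_le_mul_left h1 (by positivity)

/-- the dual form of a form in the local region -/
lemma dual_exists {p : Fin 6 → ℝ} {m s1 s2 s3 d1 d2 d3 : ℝ} (hm0 : 0 < m) (hs : s1 + s2 + s3 = 0)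
    (b1 : |s1| + |d1| ≤ 3 / 20 * m) (b2 : |s2| + |d2| ≤ 3 / 20 * m)
    (b3 : |s3| + |d3| ≤ 3 / 20 * m) (p0 : p 0 = m + s1 + d1) (p1 : p 1 = m + s2 + d2)
    (p2 : p 2 = m + s3 + d3) (p3 : p 3 = m + s3 - d3) (p4 : p 4 = m + s2 - d2)
    (p5 : p 5 = m + s1 - d1) :
    ∃ ν D1 D2 D3 W1 W2 W3 : ℝ, 0 < ν ∧
      (∀ y : Fin 3 → ℝ, af p y = ν * qf (pp D1 D2 D3 W1 W2 W3) (vm y)) ∧
      ν ^ 3 * dt (pp D1 D2 D3 W1 W2 W3) = dt p ^ 2 ∧ D1 + D2 + D3 = 0 ∧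
      D1 ^ 2 + D2 ^ 2 + D3 ^ 2 ≤ 1 / 70 ∧ W1 ^ 2 + W2 ^ 2 + W3 ^ 2 ≤ 1 / 44 := by
  obtain ⟨ν, hν⟩ : ∃ ν, ν = 4 * m ^ 2 - (s1 ^ 2 + s2 ^ 2 + s3 ^ 2) / 6 -
    (d1 ^ 2 + d2 ^ 2 + d3 ^ 2) / 3 := ⟨_, rfl⟩
  obtain ⟨hν1, hE⟩ := nu_bound hm0 hs b1 b2 b3 hν
  have hν0 : 0 < ν := by
    have : 0 < m ^ 2 := by positivity
    linarith
  have hsol : ∀ c : ℝ, ν * (c / ν) = c := fun c => by field_simp
  have hS := hS_bound hm0 hs b1 b2 b3 hν1 hE (hsol _) (hsol _) (hsol _)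
  have hW := hW_bound hm0 b1 b2 b3 hν1 (hsol _) (hsol _) (hsol _)
  have hs3' : s3 = -s1 - s2 := by linarith
  obtain ⟨haf, hdet⟩ := dual_data p (ν := ν)
    (d1 := (2 * m * s1 + (s1 ^ 2 - d1 ^ 2) - (s1 ^ 2 + s2 ^ 2 + s3 ^ 2 - d1 ^ 2 -
      d2 ^ 2 - d3 ^ 2) / 3) / ν)
    (d2 := (2 * m * s2 + (s2 ^ 2 - d2 ^ 2) - (s1 ^ 2 + s2 ^ 2 + s3 ^ 2 - d1 ^ 2 -
      d2 ^ 2 - d3 ^ 2) / 3) / ν)
    (d3 := (2 * m * s3 + (s3 ^ 2 - d3 ^ 2) - (s1 ^ 2 + s2 ^ 2 + s3 ^ 2 - d1 ^ 2 -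
      d2 ^ 2 - d3 ^ 2) / 3) / ν)
    (w1 := (-d1 * (2 * m - s1) + d2 * d3) / ν) (w2 := (-d2 * (2 * m - s2) + d1 * d3) / ν)
    (w3 := (-d3 * (2 * m - s3) + d1 * d2) / ν)
    (by rw [mul_add, hsol, p0, p1, p2, p3, p4, p5, hν, hs3']; ring)
    (by rw [mul_add, hsol, p0, p1, p2, p3, p4, p5, hν, hs3']; ring)
    (by rw [mul_add, hsol, p0, p1, p2, p3, p4, p5, hν, hs3']; ring)
    (by rw [hsol, p0, p1, p2, p3, p4, p5, hs3']; ring)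
    (by rw [hsol, p0, p1, p2, p3, p4, p5, hs3']; ring)
    (by rw [hsol, p0, p1, p2, p3, p4, p5, hs3']; ring)
  exact ⟨ν, _, _, _, _, _, _, hν0, haf, hdet, hS.1, hS.2, hW⟩

/-- the coordinates of a form in the local region -/
lemma coords {p : Fin 6 → ℝ} (hp : ∀ i, 0 ≤ p i) (hPD : PD p) (hL : LocB p) :
    ∃ m s1 s2 s3 d1 d2 d3 : ℝ, 0 < m ∧ s1 + s2 + s3 = 0 ∧ |s1| + |d1| ≤ 3 / 20 * m ∧
      |s2| + |d2| ≤ 3 / 20 * m ∧ |s3| + |d3| ≤ 3 / 20 * m ∧ p 0 = m + s1 + d1 ∧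
      p 1 = m + s2 + d2 ∧ p 2 = m + s3 + d3 ∧ p 3 = m + s3 - d3 ∧ p 4 = m + s2 - d2 ∧
      p 5 = m + s1 - d1 := by
  have l0 := hL 0
  have l1 := hL 1
  have l2 := hL 2
  have l3 := hL 3
  have l4 := hL 4
  have l5 := hL 5
  have l6 := hL 6
  have l7 := hL 7
  have l8 := hL 8
  have l9 := hL 9
  have l10 := hL 10
  have l11 := hL 11
  simp only [LB, Fin.sum_univ_six, Fin.isValue, Matrix.cons_val_zero, Matrix.cons_val_one,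
    Matrix.cons_val] at l0 l1 l2 l3 l4 l5 l6 l7 l8 l9 l10 l11
  have hdt := dt_pos hPD
  have q0 := hp 0
  have q1 := hp 1
  have q2 := hp 2
  have q3 := hp 3
  have q4 := hp 4
  have q5 := hp 5
  have hm0 : 0 < p 0 + p 1 + p 2 + p 3 + p 4 + p 5 := by
    rcases lt_or_ge 0 (p 0 + p 1 + p 2 + p 3 + p 4 + p 5) with h | h
    · exact h
    · exfalso
      have z0 : p 0 = 0 := by linarith only [h, q0, q1, q2, q3, q4, q5]
      have z1 : p 1 = 0 := by linarith only [h, q0, q1, q2, q3, q4, q5]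
      have z2 : p 2 = 0 := by linarith only [h, q0, q1, q2, q3, q4, q5]
      have z3 : p 3 = 0 := by linarith only [h, q0, q1, q2, q3, q4, q5]
      have z4 : p 4 = 0 := by linarith only [h, q0, q1, q2, q3, q4, q5]
      have z5 : p 5 = 0 := by linarith only [h, q0, q1, q2, q3, q4, q5]
      unfold dt at hdt
      rw [z0, z1, z2, z3, z4, z5] at hdt
      norm_num at hdt
  have key : ∀ x y m : ℝ, x ≤ m + 3 / 20 * m → m - 3 / 20 * m ≤ x → y ≤ m + 3 / 20 * m →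
      m - 3 / 20 * m ≤ y → |(x + y) / 2 - m| + |(x - y) / 2| ≤ 3 / 20 * m := by
    intro x y m h1 h2 h3 h4
    rcases abs_cases ((x + y) / 2 - m) with h | h <;>
      rcases abs_cases ((x - y) / 2) with h' | h' <;> linarith only [h1, h2, h3, h4, h, h']
  refine ⟨(p 0 + p 1 + p 2 + p 3 + p 4 + p 5) / 6,
    (p 0 + p 5) / 2 - (p 0 + p 1 + p 2 + p 3 + p 4 + p 5) / 6,
    (p 1 + p 4) / 2 - (p 0 + p 1 + p 2 + p 3 + p 4 + p 5) / 6,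
    (p 2 + p 3) / 2 - (p 0 + p 1 + p 2 + p 3 + p 4 + p 5) / 6,
    (p 0 - p 5) / 2, (p 1 - p 4) / 2, (p 2 - p 3) / 2, by linarith only [hm0], by ring,
    key _ _ _ ?_ ?_ ?_ ?_, key _ _ _ ?_ ?_ ?_ ?_, key _ _ _ ?_ ?_ ?_ ?_,
    by ring, by ring, by ring, by ring, by ring, by ring⟩
  · linarith only [l0]
  · linarith only [l1]
  · linarith only [l10]
  · linarith only [l11]
  · linarith only [l2]
  · linarith only [l3]
  · linarith only [l8]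
  · linarith only [l9]
  · linarith only [l4]
  · linarith only [l5]
  · linarith only [l6]
  · linarith only [l7]

/-- the body-centred cubic form minimises the sum in its local region -/
theorem bcc_ge {p : Fin 6 → ℝ} (hp : ∀ i, 0 ≤ p i) (hPD : PD p) (hL : LocB p) {t : ℝ}
    (ht : t0 ≤ t) (ht2 : t ≤ 41 / 10) : Gs Bp t ≤ Gs p t := by
  obtain ⟨m, s1, s2, s3, d1, d2, d3, hm0, hs, b1, b2, b3, p0, p1, p2, p3, p4, p5⟩ :=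
    coords hp hPD hL
  obtain ⟨ν, D1, D2, D3, W1, W2, W3, hν0, haf, hdet, hsum, hS, hW⟩ :=
    dual_exists hm0 hs b1 b2 b3 p0 p1 p2 p3 p4 p5
  have hq := pd_dual hPD hν0 haf
  have hqd := dt_pos hq
  have ht0 := t0_pos
  have htp : 0 < t := by linarith
  have hlo := t0_lo
  have ht' : 38 / 10 ≤ t0 ^ 2 / t := by
    rw [le_div_iff₀ htp]
    have h1 : (3958155 / 1000000 : ℝ) ^ 2 ≤ t0 ^ 2 := pow_le_pow_left₀ (by norm_num) hlo 2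
    have h2 : 38 / 10 * t ≤ 38 / 10 * (41 / 10) := by linarith
    norm_num at h1 h2
    linarith
  have hmain := loc_main hsum hS hW hq ht'
  have hnn : 0 ≤ 1 / 100 * ((D1 ^ 2 + D2 ^ 2 + D3 ^ 2) + (W1 ^ 2 + W2 ^ 2 + W3 ^ 2)) := by positivity
  have htp' : 0 < t0 ^ 2 / t := by positivity
  have hc : 0 < (t / t0) ^ (-(3 / 2) : ℝ) := Real.rpow_pos_of_pos (by positivity) _
  have r1 : Ps Bp t ≤ Ps p t := by
    rw [ps_Bp htp, ps_dual hPD hν0 haf hqd hdet htp]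
    refine mul_le_mul_of_nonneg_left ?_ hc.le
    rw [ps_eq PD_Fp htp', ps_eq hq htp']
    have r2 : Gs Fp (t0 ^ 2 / t) ≤ Gs (pp D1 D2 D3 W1 W2 W3) (t0 ^ 2 / t) := by
      have : Tt (t0 ^ 2 / t) = Gs Fp (t0 ^ 2 / t) := rfl
      linarith
    have := mul_le_mul_of_nonneg_left r2 (Real.exp_pos (-(t0 ^ 2 / t))).le
    linarith
  rw [ps_eq PD_Bp htp, ps_eq hPD htp] at r1
  have r3 : Real.exp (-t) * Gs Bp t ≤ Real.exp (-t) * Gs p t := by linarith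
  exact le_of_mul_le_mul_left r3 (Real.exp_pos _)

lemma gs_Bp_t0 : Gs Bp t0 = Tt t0 := by
  have h0 := t0_pos
  have h1 := ps_Bp h0
  rw [div_self h0.ne', Real.one_rpow, one_mul, sq, mul_div_assoc, div_self h0.ne', mul_one,
    ps_eq PD_Bp h0, ps_eq PD_Fp h0] at h1
  have h2 := Real.exp_pos (-t0)
  have h3 : Real.exp (-t0) * Gs Bp t0 = Real.exp (-t0) * Gs Fp t0 := by linarith
  exact mul_left_cancel₀ h2.ne' h3

/-- the local region of the body-centred cubic form -/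
theorem locB_sound (p : Fin 6 → ℝ) (hp : ∀ i, 0 ≤ p i) (hPD : PD p) (hL : LocB p) {t : ℝ}
    (ht : t0 < t) (ht2 : t ≤ 41 / 10) : Tt t < Gs p t :=
  (bcc_gt gs_Bp_t0 ht ht2).trans_le (bcc_ge hp hPD hL ht.le ht2)

end Pool.Agent.V7H99
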