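import Pool.Agent.V7H99.SdB

/-!
# Soundness of the leaves in the local regions
-/

set_option autoImplicit false

open Matrix

namespace Pool.Agent.V7H99

open Pool.Agent.K1H99.FCC (PD Fp frc_eq)

/-- the linear functionals describing the local region of the face-centred cubic form -/
def LF : Fin 10 → Fin 6 → ℝ :=
  ![![3, 3, -80, 0, 3, 3],
    ![3, 3, 0, -80, 3, 3],
    ![-57, 23, 0, 0, 23, 23],
    ![63, -17, 0, 0, -17, -17],
    ![23, -57, 0, 0, 23, 23],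
    ![-17, 63, 0, 0, -17, -17],
    ![23, 23, 0, 0, -57, 23],
    ![-17, -17, 0, 0, 63, -17],
    ![23, 23, 0, 0, 23, -57],
    ![-17, -17, 0, 0, -17, 63]]

/-- the local region of the face-centred cubic form -/
def LocF (p : Fin 6 → ℝ) : Prop := ∀ r, 0 ≤ ∑ k, LF r k * p k

/-- the linear functionals describing the local region of the body-centred cubic form -/
def LB : Fin 12 → Fin 6 → ℝ :=
  ![![-97, 23, 23, 23, 23, 23],
    ![103, -17, -17, -17, -17, -17],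
    ![23, -97, 23, 23, 23, 23],
    ![-17, 103, -17, -17, -17, -17],
    ![23, 23, -97, 23, 23, 23],
    ![-17, -17, 103, -17, -17, -17],
    ![23, 23, 23, -97, 23, 23],
    ![-17, -17, -17, 103, -17, -17],
    ![23, 23, 23, 23, -97, 23],
    ![-17, -17, -17, -17, 103, -17],
    ![23, 23, 23, 23, 23, -97],
    ![-17, -17, -17, -17, -17, 103]]

/-- the local region of the body-centred cubic form -/
def LocB (p : Fin 6 → ℝ) : Prop := ∀ r, 0 ≤ ∑ k, LB r k * p k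

lemma loc_sum {m : ℕ} (F : Fin m → Fin 6 → ℝ) (l : Fin 6 → ℝ) (v : Fin 6 → Fin 6 → ℝ)
    (hl : ∀ i, 0 ≤ l i) (hv : ∀ i, ∀ r, 0 ≤ ∑ k, F r k * v i k) :
    ∀ r, 0 ≤ ∑ k, F r k * (∑ i, l i • v i) k := by
  intro r
  have e : ∑ k, F r k * (∑ i, l i • v i) k = ∑ i, l i * ∑ k, F r k * v i k := by
    simp only [Finset.sum_apply, Pi.smul_apply, smul_eq_mul, Finset.mul_sum]
    rw [Finset.sum_comm]
    refine Finset.sum_congr rfl fun i _ => Finset.sum_congr rfl fun k _ => ?_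
    ring
  rw [e]
  exact Finset.sum_nonneg fun i _ => mul_nonneg (hl i) (hv i r)

lemma inF_spec {v : V} (h : inF v = true) : LocF (wv v) := by
  unfold inF at h
  simp only [frc_eq, Bool.and_eq_true, Nat.add_eq, Nat.mul_eq] at h
  obtain ⟨⟨⟨⟨⟨⟨⟨⟨⟨h0, h1⟩, h2⟩, h3⟩, h4⟩, h5⟩, h6⟩, h7⟩, h8⟩, h9⟩ := h
  have h0 := Nat.le_of_ble_eq_true h0
  have h1 := Nat.le_of_ble_eq_true h1
  have h2 := Nat.le_of_ble_eq_true h2
  have h3 := Nat.le_of_ble_eq_true h3
  have h4 := Nat.le_of_ble_eq_true h4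
  have h5 := Nat.le_of_ble_eq_true h5
  have h6 := Nat.le_of_ble_eq_true h6
  have h7 := Nat.le_of_ble_eq_true h7
  have h8 := Nat.le_of_ble_eq_true h8
  have h9 := Nat.le_of_ble_eq_true h9
  rify at h0 h1 h2 h3 h4 h5 h6 h7 h8 h9
  intro r
  fin_cases r <;> simp only [LF, wv, Fin.sum_univ_six, Fin.isValue, Fin.zero_eta, Fin.mk_one,
    Fin.reduceFinMk, Matrix.cons_val_zero, Matrix.cons_val_one, Matrix.cons_val] <;> linarith

lemma inB_spec {v : V} (h : inB v = true) : LocB (wv v) := by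
  unfold inB at h
  simp only [frc_eq, Bool.and_eq_true, Nat.add_eq, Nat.mul_eq] at h
  obtain ⟨⟨⟨⟨⟨⟨⟨⟨⟨⟨⟨h0, h1⟩, h2⟩, h3⟩, h4⟩, h5⟩, h6⟩, h7⟩, h8⟩, h9⟩, h10⟩, h11⟩ := h
  have h0 := Nat.le_of_ble_eq_true h0
  have h1 := Nat.le_of_ble_eq_true h1
  have h2 := Nat.le_of_ble_eq_true h2
  have h3 := Nat.le_of_ble_eq_true h3
  have h4 := Nat.le_of_ble_eq_true h4
  have h5 := Nat.le_of_ble_eq_true h5
  have h6 := Nat.le_of_ble_eq_true h6
  have h7 := Nat.le_of_ble_eq_true h7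
  have h8 := Nat.le_of_ble_eq_true h8
  have h9 := Nat.le_of_ble_eq_true h9
  have h10 := Nat.le_of_ble_eq_true h10
  have h11 := Nat.le_of_ble_eq_true h11
  rify at h0 h1 h2 h3 h4 h5 h6 h7 h8 h9 h10 h11
  intro r
  fin_cases r <;> simp only [LB, wv, Fin.sum_univ_six, Fin.isValue, Fin.zero_eta, Fin.mk_one,
    Fin.reduceFinMk, Matrix.cons_val_zero, Matrix.cons_val_one, Matrix.cons_val] <;> linarith

theorem leafC_sound {P : (Fin 6 → ℝ) → Prop}
    (hloc : ∀ p : Fin 6 → ℝ, (∀ i, 0 ≤ p i) → PD p → LocF p → P p)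
    (v0 v1 v2 v3 v4 v5 : V) (h : leafC v0 v1 v2 v3 v4 v5 = true) :
    Good P ![v0, v1, v2, v3, v4, v5] := by
  unfold leafC at h
  simp only [Bool.and_eq_true] at h
  obtain ⟨⟨⟨⟨⟨h0, h1⟩, h2⟩, h3⟩, h4⟩, h5⟩ := h
  intro l hl hp
  refine hloc _ (fun k => ?_) hp ?_
  · simp only [Finset.sum_apply, Pi.smul_apply, smul_eq_mul]
    exact Finset.sum_nonneg fun i _ => mul_nonneg (hl i) (wv_nonneg _ _)
  · refine loc_sum LF l _ hl fun i => ?_
    fin_cases i
    · exact inF_spec h0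
    · exact inF_spec h1
    · exact inF_spec h2
    · exact inF_spec h3
    · exact inF_spec h4
    · exact inF_spec h5

theorem leafD_sound {Pr : Par} {P : (Fin 6 → ℝ) → Prop}
    (hloc : Pr.fb = 1 → ∀ p : Fin 6 → ℝ, (∀ i, 0 ≤ p i) → PD p → LocB p → P p)
    (v0 v1 v2 v3 v4 v5 : V) (h : leafD Pr v0 v1 v2 v3 v4 v5 = true) :
    Good P ![v0, v1, v2, v3, v4, v5] := by
  unfold leafD at h
  simp only [Bool.and_eq_true] at h
  obtain ⟨⟨⟨⟨⟨⟨hf, h0⟩, h1⟩, h2⟩, h3⟩, h4⟩, h5⟩ := h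
  intro l hl hp
  refine hloc (Nat.eq_of_beq_eq_true hf) _ (fun k => ?_) hp ?_
  · simp only [Finset.sum_apply, Pi.smul_apply, smul_eq_mul]
    exact Finset.sum_nonneg fun i _ => mul_nonneg (hl i) (wv_nonneg _ _)
  · refine loc_sum LB l _ hl fun i => ?_
    fin_cases i
    · exact inB_spec h0
    · exact inB_spec h1
    · exact inB_spec h2
    · exact inB_spec h3
    · exact inB_spec h4
    · exact inB_spec h5

end Pool.Agent.V7H99
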