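import Pool.Agent.V7H99.Lc5
import Pool.Agent.V7H99.SdC

/-!
# The local region of the face-centred cubic form
-/

set_option autoImplicit false

open Matrix

namespace Pool.Agent.V7H99

open Pool.Agent.K1H99.FCC (N0 rv PD PD_Fp Fp pp dt rad qf dt_pp rad_pos dt_pos rad_cube Fp_eq
  dt_smul rad_smul pd_of_dt)

lemma vx_smul {c : ℝ} (hc : 0 < c) {p : Fin 6 → ℝ} (hp : ∀ i, 0 ≤ p i) (n : Fin 3 → ℤ) :
    vx (c • p) n = vx p n := by
  unfold vx
  rw [rad_smul hc.le hp]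
  have : qf (c • p) (rv n) = c * qf p (rv n) := by
    unfold qf
    simp only [Pi.smul_apply, smul_eq_mul]
    ring
  rw [this, mul_left_comm, mul_div_mul_left _ _ hc.ne']

lemma gs_smul {c : ℝ} (hc : 0 < c) {p : Fin 6 → ℝ} (hp : ∀ i, 0 ≤ p i) (t : ℝ) :
    Gs (c • p) t = Gs p t := by
  unfold Gs
  simp_rw [vx_smul hc hp]

lemma box_q {a x y : ℝ} (ha0 : 0 < a) (p2 : 0 ≤ x) (p3 : 0 ≤ y) (b2 : x ≤ 3 / 20 * a)
    (b3 : y ≤ 3 / 20 * a) : 2 / 3 * (x ^ 2 - x * y + y ^ 2) ≤ 1 / 70 * (a + (x + y) / 3) ^ 2 := by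
  nlinarith [mul_nonneg p2 (sub_nonneg.2 b2), mul_nonneg p3 (sub_nonneg.2 b3),
    mul_nonneg p2 p3, mul_nonneg (sub_nonneg.2 b2) (sub_nonneg.2 b3),
    mul_nonneg p2 (sub_nonneg.2 b3), mul_nonneg p3 (sub_nonneg.2 b2), mul_pos ha0 ha0,
    mul_nonneg ha0.le (sub_nonneg.2 b2), mul_nonneg ha0.le (sub_nonneg.2 b3)]

theorem locF_sound (p : Fin 6 → ℝ) (hp : ∀ i, 0 ≤ p i) (hPD : PD p) (hL : LocF p) {t : ℝ}
    (ht : 38 / 10 ≤ t) : Tt t < Gs p t ∨ ∃ c : ℝ, 0 < c ∧ p = c • Fp := by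
  have l0 := hL 0
  have l1 := hL 1
  have l2 := hL 2
  have l3 := hL 3
  have l4 := hL 4
  have l5 := hL 5
  have l6 := hL 6
  have l7 := hL 7
  have l8 := hL 8
  have l9 := hL 9
  simp only [LF, Fin.sum_univ_six, Fin.isValue, Matrix.cons_val_zero, Matrix.cons_val_one,
    Matrix.cons_val] at l0 l1 l2 l3 l4 l5 l6 l7 l8 l9
  have p2 := hp 2
  have p3 := hp 3
  -- the scale
  set a := (p 0 + p 1 + p 4 + p 5) / 4 with ha
  have hdt := dt_pos hPD
  have ha0 : 0 < a := by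
    rcases lt_or_ge 0 a with h | h
    · exact h
    · exfalso
      have q0 := hp 0
      have q1 := hp 1
      have q4 := hp 4
      have q5 := hp 5
      have z0 : p 0 = 0 := by linarith
      have z1 : p 1 = 0 := by linarith
      have z4 : p 4 = 0 := by linarith
      have z5 : p 5 = 0 := by linarith
      have z2 : p 2 = 0 := by linarith
      have z3 : p 3 = 0 := by linarith
      unfold dt at hdt
      rw [z0, z1, z2, z3, z4, z5] at hdt
      norm_num at hdt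
  set ν := a + (p 2 + p 3) / 3 with hν
  have hν0 : 0 < ν := by rw [hν]; linarith
  have haν : a ≤ ν := by rw [hν]; linarith
  set d1 := a / ν - 1 with hd1
  set d2 := (a + p 3) / ν - 1 with hd2
  set d3 := (a + p 2) / ν - 1 with hd3
  set w1 := (p 0 + p 5 - p 1 - p 4) / 4 / ν with hw1
  set w2 := (p 0 + p 1 - p 4 - p 5) / 4 / ν with hw2
  set w3 := (p 0 + p 4 - p 1 - p 5) / 4 / ν with hw3
  have e1 : ν * (1 + d1) = a := by rw [hd1]; field_simp; ring
  have e2 : ν * (1 + d2) = a + p 3 := by rw [hd2]; field_simp; ring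
  have e3 : ν * (1 + d3) = a + p 2 := by rw [hd3]; field_simp; ring
  have f1 : ν * w1 = (p 0 + p 5 - p 1 - p 4) / 4 := by rw [hw1]; field_simp
  have f2 : ν * w2 = (p 0 + p 1 - p 4 - p 5) / 4 := by rw [hw2]; field_simp
  have f3 : ν * w3 = (p 0 + p 4 - p 1 - p 5) / 4 := by rw [hw3]; field_simp
  have hd : d1 + d2 + d3 = 0 := by
    have h1 : ν * (d1 + d2 + d3) = 0 := by
      have : ν * (d1 + d2 + d3) = ν * (1 + d1) + ν * (1 + d2) + ν * (1 + d3) - 3 * ν := by ring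
      rw [this, e1, e2, e3, hν]
      ring
    rcases mul_eq_zero.1 h1 with h | h
    · exact absurd h hν0.ne'
    · exact h
  have hp' : p = ν • pp d1 d2 d3 w1 w2 w3 := by
    funext i
    unfold pp
    fin_cases i
    · show p 0 = ν * (1 + d1 + w1 + w2 + w3)
      have : ν * (1 + d1 + w1 + w2 + w3) = ν * (1 + d1) + ν * w1 + ν * w2 + ν * w3 := by ring
      rw [this, e1, f1, f2, f3, ha]
      ring
    · show p 1 = ν * (1 + d1 - w1 + w2 - w3)
      have : ν * (1 + d1 - w1 + w2 - w3) = ν * (1 + d1) - ν * w1 + ν * w2 - ν * w3 := by ring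
      rw [this, e1, f1, f2, f3, ha]
      ring
    · show p 2 = ν * (d3 - d1)
      have : ν * (d3 - d1) = ν * (1 + d3) - ν * (1 + d1) := by ring
      rw [this, e1, e3]
      ring
    · show p 3 = ν * (d2 - d1)
      have : ν * (d2 - d1) = ν * (1 + d2) - ν * (1 + d1) := by ring
      rw [this, e1, e2]
      ring
    · show p 4 = ν * (1 + d1 - w1 - w2 + w3)
      have : ν * (1 + d1 - w1 - w2 + w3) = ν * (1 + d1) - ν * w1 - ν * w2 + ν * w3 := by ring
      rw [this, e1, f1, f2, f3, ha]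
      ring
    · show p 5 = ν * (1 + d1 + w1 - w2 - w3)
      have : ν * (1 + d1 + w1 - w2 - w3) = ν * (1 + d1) + ν * w1 - ν * w2 - ν * w3 := by ring
      rw [this, e1, f1, f2, f3, ha]
      ring
  set P := pp d1 d2 d3 w1 w2 w3 with hP
  have hPe : P = ν⁻¹ • p := by rw [hp', smul_smul, inv_mul_cancel₀ hν0.ne', one_smul]
  have hPn : ∀ i, 0 ≤ P i := fun i => by
    rw [hPe]
    simp only [Pi.smul_apply, smul_eq_mul]
    exact mul_nonneg (inv_nonneg.2 hν0.le) (hp i)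
  have hPpd : PD P := by
    refine pd_of_dt hPn ?_
    rw [hPe, dt_smul]
    positivity
  have hG : Gs p t = Gs P t := by
    rw [hp']
    exact gs_smul hν0 hPn t
  have hS : d1 ^ 2 + d2 ^ 2 + d3 ^ 2 ≤ 1 / 70 := by
    have h1 : ν ^ 2 * (d1 ^ 2 + d2 ^ 2 + d3 ^ 2) = 2 / 3 * (p 2 ^ 2 - p 2 * p 3 + p 3 ^ 2) := by
      have : ν ^ 2 * (d1 ^ 2 + d2 ^ 2 + d3 ^ 2) = (ν * (1 + d1) - ν) ^ 2 + (ν * (1 + d2) - ν) ^ 2 +
        (ν * (1 + d3) - ν) ^ 2 := by ring
      rw [this, e1, e2, e3, hν]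
      ring
    have h2 : 2 / 3 * (p 2 ^ 2 - p 2 * p 3 + p 3 ^ 2) ≤ 1 / 70 * ν ^ 2 := by
      have b2 : p 2 ≤ 3 / 20 * a := by rw [ha]; linarith
      have b3 : p 3 ≤ 3 / 20 * a := by rw [ha]; linarith
      rw [hν]
      exact box_q ha0 p2 p3 b2 b3
    rw [← h1, mul_comm] at h2
    have h3 : 0 < ν ^ 2 := by positivity
    exact le_of_mul_le_mul_right h2 h3
  have hW : w1 ^ 2 + w2 ^ 2 + w3 ^ 2 ≤ 1 / 44 := by
    have h1 : ν ^ 2 * (w1 ^ 2 + w2 ^ 2 + w3 ^ 2) =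
        ((p 0 - a) ^ 2 + (p 1 - a) ^ 2 + (p 4 - a) ^ 2 + (p 5 - a) ^ 2) / 4 := by
      have : ν ^ 2 * (w1 ^ 2 + w2 ^ 2 + w3 ^ 2) = (ν * w1) ^ 2 + (ν * w2) ^ 2 + (ν * w3) ^ 2 := by
        ring
      rw [this, f1, f2, f3, ha]
      ring
    have key : ∀ y : ℝ, y - a ≤ 3 / 20 * a → -(3 / 20 * a) ≤ y - a →
        (y - a) ^ 2 ≤ (3 / 20 * a) ^ 2 := by
      intro y h1 h2
      exact sq_le_sq' h2 h1
    have k0 := key (p 0) (by rw [ha]; linarith) (by rw [ha]; linarith)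
    have k1 := key (p 1) (by rw [ha]; linarith) (by rw [ha]; linarith)
    have k4 := key (p 4) (by rw [ha]; linarith) (by rw [ha]; linarith)
    have k5 := key (p 5) (by rw [ha]; linarith) (by rw [ha]; linarith)
    have haa : a ^ 2 ≤ ν ^ 2 := by gcongr
    have h2 : ν ^ 2 * (w1 ^ 2 + w2 ^ 2 + w3 ^ 2) ≤ ν ^ 2 * (1 / 44) := by
      rw [h1]
      have h5 := sq_nonneg a
      linarith
    exact le_of_mul_le_mul_left h2 (by positivity)
  have hmain := loc_main hd hS hW hPpd ht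
  rw [← hP, ← hG] at hmain
  rcases lt_or_ge (Tt t) (Gs p t) with h | h
  · exact Or.inl h
  · right
    refine ⟨ν, hν0, ?_⟩
    have z1 : d1 = 0 := by
      have : d1 ^ 2 ≤ 0 := by linarith [sq_nonneg d2, sq_nonneg d3, sq_nonneg w1, sq_nonneg w2, sq_nonneg w3]
      exact pow_eq_zero_iff (two_ne_zero) |>.1 (le_antisymm this (sq_nonneg _))
    have z2 : d2 = 0 := by
      have : d2 ^ 2 ≤ 0 := by linarith [sq_nonneg d1, sq_nonneg d3, sq_nonneg w1, sq_nonneg w2, sq_nonneg w3]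
      exact pow_eq_zero_iff (two_ne_zero) |>.1 (le_antisymm this (sq_nonneg _))
    have z3 : d3 = 0 := by
      have : d3 ^ 2 ≤ 0 := by linarith [sq_nonneg d1, sq_nonneg d2, sq_nonneg w1, sq_nonneg w2, sq_nonneg w3]
      exact pow_eq_zero_iff (two_ne_zero) |>.1 (le_antisymm this (sq_nonneg _))
    have y1 : w1 = 0 := by
      have : w1 ^ 2 ≤ 0 := by linarith [sq_nonneg d2, sq_nonneg d3, sq_nonneg d1, sq_nonneg w2, sq_nonneg w3]
      exact pow_eq_zero_iff (two_ne_zero) |>.1 (le_antisymm this (sq_nonneg _))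
    have y2 : w2 = 0 := by
      have : w2 ^ 2 ≤ 0 := by linarith [sq_nonneg d2, sq_nonneg d3, sq_nonneg d1, sq_nonneg w1, sq_nonneg w3]
      exact pow_eq_zero_iff (two_ne_zero) |>.1 (le_antisymm this (sq_nonneg _))
    have y3 : w3 = 0 := by
      have : w3 ^ 2 ≤ 0 := by linarith [sq_nonneg d2, sq_nonneg d3, sq_nonneg d1, sq_nonneg w1, sq_nonneg w2]
      exact pow_eq_zero_iff (two_ne_zero) |>.1 (le_antisymm this (sq_nonneg _))
    rw [hp', hP, z1, z2, z3, y1, y2, y3, ← Fp_eq]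

end Pool.Agent.V7H99
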