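import Pool.Agent.V7H99.Ck
import Pool.Agent.K1H99.FCC.Snd

/-!
# Soundness of the checker: splitting
-/

set_option autoImplicit false

open Matrix

namespace Pool.Agent.V7H99

open Pool.Agent.K1H99.FCC (frc frz detN cbr frc_eq frz_ne cbr_spec PD dt rad qf rad_cube dt_nonneg rad_nonneg)

/-- the vertex as a real vector -/
def wv (w : V) : Fin 6 → ℝ := ![w.a, w.b, w.c, w.d, w.e, w.f]

/-- `g` is a lower bound for the cube root of the determinant -/
def Val (w : V) : Prop := w.g * w.g * w.g ≤ detN w.a w.b w.c w.d w.e w.f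

/-- the property holds on the cone over the vertices -/
def Good (P : (Fin 6 → ℝ) → Prop) (v : Fin 6 → V) : Prop := ∀ l : Fin 6 → ℝ, (∀ i, 0 ≤ l i) →
  PD (∑ i, l i • wv (v i)) → P (∑ i, l i • wv (v i))

lemma md_spec (v w : V) (k : V → Nat) (h : md v w k ≠ 0) :
    ∃ m, Val m ∧ (2:ℝ) • wv m = wv v + wv w ∧ md v w k = k m := by
  unfold md at h ⊢
  simp only [frc_eq] at h ⊢
  set c := (Nat.beq (Nat.mod (Nat.add v.a w.a) 2) 0 && Nat.beq (Nat.mod (Nat.add v.b w.b) 2) 0 &&
    Nat.beq (Nat.mod (Nat.add v.c w.c) 2) 0 && Nat.beq (Nat.mod (Nat.add v.d w.d) 2) 0 &&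
    Nat.beq (Nat.mod (Nat.add v.e w.e) 2) 0 && Nat.beq (Nat.mod (Nat.add v.f w.f) 2) 0) with hc
  cases hcc : c with
  | false => rw [hcc] at h; exact absurd rfl h
  | true =>
    rw [hcc] at hc
    have hc' := hc.symm
    simp only [Bool.and_eq_true] at hc'
    obtain ⟨⟨⟨⟨⟨ha, hb⟩, hcx⟩, hd⟩, he⟩, hf⟩ := hc'
    have ea : (v.a + w.a) % 2 = 0 := Nat.eq_of_beq_eq_true ha
    have eb : (v.b + w.b) % 2 = 0 := Nat.eq_of_beq_eq_true hb
    have ec : (v.c + w.c) % 2 = 0 := Nat.eq_of_beq_eq_true hcx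
    have ed : (v.d + w.d) % 2 = 0 := Nat.eq_of_beq_eq_true hd
    have ee : (v.e + w.e) % 2 = 0 := Nat.eq_of_beq_eq_true he
    have ef : (v.f + w.f) % 2 = 0 := Nat.eq_of_beq_eq_true hf
    have fa : 2 * ((v.a + w.a) / 2) = v.a + w.a := by omega
    have fb : 2 * ((v.b + w.b) / 2) = v.b + w.b := by omega
    have fc : 2 * ((v.c + w.c) / 2) = v.c + w.c := by omega
    have fd : 2 * ((v.d + w.d) / 2) = v.d + w.d := by omega
    have fe : 2 * ((v.e + w.e) / 2) = v.e + w.e := by omega
    have ff : 2 * ((v.f + w.f) / 2) = v.f + w.f := by omega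
    refine ⟨_, ?_, ?_, rfl⟩
    · exact cbr_spec _ _
    · funext i
      have ra : (2:ℝ) * (((v.a + w.a) / 2 : ℕ) : ℝ) = v.a + w.a := by exact_mod_cast fa
      have rb : (2:ℝ) * (((v.b + w.b) / 2 : ℕ) : ℝ) = v.b + w.b := by exact_mod_cast fb
      have rc : (2:ℝ) * (((v.c + w.c) / 2 : ℕ) : ℝ) = v.c + w.c := by exact_mod_cast fc
      have rd : (2:ℝ) * (((v.d + w.d) / 2 : ℕ) : ℝ) = v.d + w.d := by exact_mod_cast fd
      have re : (2:ℝ) * (((v.e + w.e) / 2 : ℕ) : ℝ) = v.e + w.e := by exact_mod_cast fe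
      have rf : (2:ℝ) * (((v.f + w.f) / 2 : ℕ) : ℝ) = v.f + w.f := by exact_mod_cast ff
      fin_cases i
      · exact ra
      · exact rb
      · exact rc
      · exact rd
      · exact re
      · exact rf

lemma good_split {P : (Fin 6 → ℝ) → Prop} (v : Fin 6 → V) (i j : Fin 6) (hij : i ≠ j) (m : V)
    (hm : (2:ℝ) • wv m = wv (v i) + wv (v j)) (h1 : Good P (Function.update v i m))
    (h2 : Good P (Function.update v j m)) : Good P v := by
  have key : ∀ (i j : Fin 6) (_ : i ≠ j) (_ : (2:ℝ) • wv m = wv (v i) + wv (v j))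
      (l : Fin 6 → ℝ), (∀ k, 0 ≤ l k) → l i ≤ l j → ∃ l' : Fin 6 → ℝ, (∀ k, 0 ≤ l' k) ∧
      ∑ k, l' k • wv (Function.update v i m k) = ∑ k, l k • wv (v k) := by
    intro i j hij hm l hl hle
    refine ⟨Function.update (Function.update l i (2 * l i)) j (l j - l i), fun k => ?_, ?_⟩
    · by_cases hkj : k = j
      · subst hkj
        rw [Function.update_self]
        linarith
      · rw [Function.update_of_ne hkj]
        by_cases hki : k = i
        · subst hki
          rw [Function.update_self]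
          linarith [hl k]
        · rw [Function.update_of_ne hki]
          exact hl k
    · have hji : j ∈ Finset.univ.erase i := Finset.mem_erase.2 ⟨hij.symm, Finset.mem_univ j⟩
      rw [← Finset.add_sum_erase _ _ (Finset.mem_univ i), ← Finset.add_sum_erase _ _ hji,
        ← Finset.add_sum_erase (a := i) _ (fun k => l k • wv (v k)) (Finset.mem_univ i),
        ← Finset.add_sum_erase _ (fun k => l k • wv (v k)) hji]
      rw [Function.update_self, Function.update_self, Function.update_of_ne hij.symm,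
        Function.update_of_ne hij, Function.update_self]
      have e1 : ∑ x ∈ (Finset.univ.erase i).erase j,
          Function.update (Function.update l i (2 * l i)) j (l j - l i) x •
            wv (Function.update v i m x) = ∑ x ∈ (Finset.univ.erase i).erase j, l x • wv (v x) := by
        refine Finset.sum_congr rfl fun x hx => ?_
        have hxj : x ≠ j := (Finset.mem_erase.1 hx).1
        have hxi : x ≠ i := (Finset.mem_erase.1 (Finset.mem_erase.1 hx).2).1
        rw [Function.update_of_ne hxj, Function.update_of_ne hxi, Function.update_of_ne hxi]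
      rw [e1, ← add_assoc, ← add_assoc]
      congr 1
      rw [mul_comm 2 (l i), mul_smul, hm, smul_add, sub_smul]
      abel
  intro l hl hp
  rcases le_total (l i) (l j) with h | h
  · obtain ⟨l', hl', e⟩ := key i j hij hm l hl h
    rw [← e] at hp ⊢
    exact h1 l' hl' hp
  · obtain ⟨l', hl', e⟩ := key j i hij.symm (by rw [hm, add_comm]) l hl h
    rw [← e] at hp ⊢
    exact h2 l' hl' hp

lemma bif_ne {b : Bool} {x : Nat} (h : (bif b then x else 0) ≠ 0) : b = true := by
  cases b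
  · exact absurd rfl h
  · rfl

/-- soundness of the recursion, given soundness of the leaves -/
theorem go_sound (Pr : Par) (P : (Fin 6 → ℝ) → Prop)
    (hA : ∀ (v0 v1 v2 v3 v4 v5 : V) (a : Nat), Val v0 → Val v1 → Val v2 → Val v3 → Val v4 →
      Val v5 → leafA Pr v0 v1 v2 v3 v4 v5 a = true → Good P ![v0, v1, v2, v3, v4, v5])
    (hB : ∀ (v0 v1 v2 v3 v4 v5 : V) (a : Nat), Val v0 → Val v1 → Val v2 → Val v3 → Val v4 →
      Val v5 → leafB Pr v0 v1 v2 v3 v4 v5 a = true → Good P ![v0, v1, v2, v3, v4, v5])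
    (hC : ∀ v0 v1 v2 v3 v4 v5 : V,
      leafC v0 v1 v2 v3 v4 v5 = true → Good P ![v0, v1, v2, v3, v4, v5])
    (hD : ∀ v0 v1 v2 v3 v4 v5 : V,
      leafD Pr v0 v1 v2 v3 v4 v5 = true → Good P ![v0, v1, v2, v3, v4, v5]) :
    ∀ (n : Nat) (v0 v1 v2 v3 v4 v5 : V) (code : Nat),
      Val v0 → Val v1 → Val v2 → Val v3 → Val v4 → Val v5 →
      go Pr n v0 v1 v2 v3 v4 v5 code ≠ 0 → Good P ![v0, v1, v2, v3, v4, v5] := by
  intro n
  induction n with
  | zero => intro v0 v1 v2 v3 v4 v5 code _ _ _ _ _ _ h; exact absurd rfl h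
  | succ n ih =>
    intro v0 v1 v2 v3 v4 v5 code h0 h1 h2 h3 h4 h5 h
    unfold go at h
    simp only [frc_eq] at h
    split at h
    · obtain ⟨m, hm, e1, e2⟩ := md_spec _ _ _ h
      rw [e2] at h
      obtain ⟨g1, h⟩ := frz_ne h
      refine good_split _ 0 1 (by decide) m e1 ?_ ?_
      · have e3 : Function.update ![v0, v1, v2, v3, v4, v5] 0 m = ![m, v1, v2, v3, v4, v5] := by
          funext t
          fin_cases t <;> rfl
        rw [e3]
        exact ih _ _ _ _ _ _ _ hm h1 h2 h3 h4 h5 g1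
      · have e3 : Function.update ![v0, v1, v2, v3, v4, v5] 1 m = ![v0, m, v2, v3, v4, v5] := by
          funext t
          fin_cases t <;> rfl
        rw [e3]
        exact ih _ _ _ _ _ _ _ h0 hm h2 h3 h4 h5 h
    · obtain ⟨m, hm, e1, e2⟩ := md_spec _ _ _ h
      rw [e2] at h
      obtain ⟨g1, h⟩ := frz_ne h
      refine good_split _ 0 2 (by decide) m e1 ?_ ?_
      · have e3 : Function.update ![v0, v1, v2, v3, v4, v5] 0 m = ![m, v1, v2, v3, v4, v5] := by
          funext t
          fin_cases t <;> rfl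
        rw [e3]
        exact ih _ _ _ _ _ _ _ hm h1 h2 h3 h4 h5 g1
      · have e3 : Function.update ![v0, v1, v2, v3, v4, v5] 2 m = ![v0, v1, m, v3, v4, v5] := by
          funext t
          fin_cases t <;> rfl
        rw [e3]
        exact ih _ _ _ _ _ _ _ h0 h1 hm h3 h4 h5 h
    · obtain ⟨m, hm, e1, e2⟩ := md_spec _ _ _ h
      rw [e2] at h
      obtain ⟨g1, h⟩ := frz_ne h
      refine good_split _ 0 3 (by decide) m e1 ?_ ?_
      · have e3 : Function.update ![v0, v1, v2, v3, v4, v5] 0 m = ![m, v1, v2, v3, v4, v5] := by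
          funext t
          fin_cases t <;> rfl
        rw [e3]
        exact ih _ _ _ _ _ _ _ hm h1 h2 h3 h4 h5 g1
      · have e3 : Function.update ![v0, v1, v2, v3, v4, v5] 3 m = ![v0, v1, v2, m, v4, v5] := by
          funext t
          fin_cases t <;> rfl
        rw [e3]
        exact ih _ _ _ _ _ _ _ h0 h1 h2 hm h4 h5 h
    · obtain ⟨m, hm, e1, e2⟩ := md_spec _ _ _ h
      rw [e2] at h
      obtain ⟨g1, h⟩ := frz_ne h
      refine good_split _ 0 4 (by decide) m e1 ?_ ?_
      · have e3 : Function.update ![v0, v1, v2, v3, v4, v5] 0 m = ![m, v1, v2, v3, v4, v5] := by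
          funext t
          fin_cases t <;> rfl
        rw [e3]
        exact ih _ _ _ _ _ _ _ hm h1 h2 h3 h4 h5 g1
      · have e3 : Function.update ![v0, v1, v2, v3, v4, v5] 4 m = ![v0, v1, v2, v3, m, v5] := by
          funext t
          fin_cases t <;> rfl
        rw [e3]
        exact ih _ _ _ _ _ _ _ h0 h1 h2 h3 hm h5 h
    · obtain ⟨m, hm, e1, e2⟩ := md_spec _ _ _ h
      rw [e2] at h
      obtain ⟨g1, h⟩ := frz_ne h
      refine good_split _ 0 5 (by decide) m e1 ?_ ?_
      · have e3 : Function.update ![v0, v1, v2, v3, v4, v5] 0 m = ![m, v1, v2, v3, v4, v5] := by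
          funext t
          fin_cases t <;> rfl
        rw [e3]
        exact ih _ _ _ _ _ _ _ hm h1 h2 h3 h4 h5 g1
      · have e3 : Function.update ![v0, v1, v2, v3, v4, v5] 5 m = ![v0, v1, v2, v3, v4, m] := by
          funext t
          fin_cases t <;> rfl
        rw [e3]
        exact ih _ _ _ _ _ _ _ h0 h1 h2 h3 h4 hm h
    · obtain ⟨m, hm, e1, e2⟩ := md_spec _ _ _ h
      rw [e2] at h
      obtain ⟨g1, h⟩ := frz_ne h
      refine good_split _ 1 2 (by decide) m e1 ?_ ?_
      · have e3 : Function.update ![v0, v1, v2, v3, v4, v5] 1 m = ![v0, m, v2, v3, v4, v5] := by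
          funext t
          fin_cases t <;> rfl
        rw [e3]
        exact ih _ _ _ _ _ _ _ h0 hm h2 h3 h4 h5 g1
      · have e3 : Function.update ![v0, v1, v2, v3, v4, v5] 2 m = ![v0, v1, m, v3, v4, v5] := by
          funext t
          fin_cases t <;> rfl
        rw [e3]
        exact ih _ _ _ _ _ _ _ h0 h1 hm h3 h4 h5 h
    · obtain ⟨m, hm, e1, e2⟩ := md_spec _ _ _ h
      rw [e2] at h
      obtain ⟨g1, h⟩ := frz_ne h
      refine good_split _ 1 3 (by decide) m e1 ?_ ?_
      · have e3 : Function.update ![v0, v1, v2, v3, v4, v5] 1 m = ![v0, m, v2, v3, v4, v5] := by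
          funext t
          fin_cases t <;> rfl
        rw [e3]
        exact ih _ _ _ _ _ _ _ h0 hm h2 h3 h4 h5 g1
      · have e3 : Function.update ![v0, v1, v2, v3, v4, v5] 3 m = ![v0, v1, v2, m, v4, v5] := by
          funext t
          fin_cases t <;> rfl
        rw [e3]
        exact ih _ _ _ _ _ _ _ h0 h1 h2 hm h4 h5 h
    · obtain ⟨m, hm, e1, e2⟩ := md_spec _ _ _ h
      rw [e2] at h
      obtain ⟨g1, h⟩ := frz_ne h
      refine good_split _ 1 4 (by decide) m e1 ?_ ?_
      · have e3 : Function.update ![v0, v1, v2, v3, v4, v5] 1 m = ![v0, m, v2, v3, v4, v5] := by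
          funext t
          fin_cases t <;> rfl
        rw [e3]
        exact ih _ _ _ _ _ _ _ h0 hm h2 h3 h4 h5 g1
      · have e3 : Function.update ![v0, v1, v2, v3, v4, v5] 4 m = ![v0, v1, v2, v3, m, v5] := by
          funext t
          fin_cases t <;> rfl
        rw [e3]
        exact ih _ _ _ _ _ _ _ h0 h1 h2 h3 hm h5 h
    · obtain ⟨m, hm, e1, e2⟩ := md_spec _ _ _ h
      rw [e2] at h
      obtain ⟨g1, h⟩ := frz_ne h
      refine good_split _ 1 5 (by decide) m e1 ?_ ?_
      · have e3 : Function.update ![v0, v1, v2, v3, v4, v5] 1 m = ![v0, m, v2, v3, v4, v5] := by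
          funext t
          fin_cases t <;> rfl
        rw [e3]
        exact ih _ _ _ _ _ _ _ h0 hm h2 h3 h4 h5 g1
      · have e3 : Function.update ![v0, v1, v2, v3, v4, v5] 5 m = ![v0, v1, v2, v3, v4, m] := by
          funext t
          fin_cases t <;> rfl
        rw [e3]
        exact ih _ _ _ _ _ _ _ h0 h1 h2 h3 h4 hm h
    · obtain ⟨m, hm, e1, e2⟩ := md_spec _ _ _ h
      rw [e2] at h
      obtain ⟨g1, h⟩ := frz_ne h
      refine good_split _ 2 3 (by decide) m e1 ?_ ?_
      · have e3 : Function.update ![v0, v1, v2, v3, v4, v5] 2 m = ![v0, v1, m, v3, v4, v5] := by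
          funext t
          fin_cases t <;> rfl
        rw [e3]
        exact ih _ _ _ _ _ _ _ h0 h1 hm h3 h4 h5 g1
      · have e3 : Function.update ![v0, v1, v2, v3, v4, v5] 3 m = ![v0, v1, v2, m, v4, v5] := by
          funext t
          fin_cases t <;> rfl
        rw [e3]
        exact ih _ _ _ _ _ _ _ h0 h1 h2 hm h4 h5 h
    · obtain ⟨m, hm, e1, e2⟩ := md_spec _ _ _ h
      rw [e2] at h
      obtain ⟨g1, h⟩ := frz_ne h
      refine good_split _ 2 4 (by decide) m e1 ?_ ?_
      · have e3 : Function.update ![v0, v1, v2, v3, v4, v5] 2 m = ![v0, v1, m, v3, v4, v5] := by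
          funext t
          fin_cases t <;> rfl
        rw [e3]
        exact ih _ _ _ _ _ _ _ h0 h1 hm h3 h4 h5 g1
      · have e3 : Function.update ![v0, v1, v2, v3, v4, v5] 4 m = ![v0, v1, v2, v3, m, v5] := by
          funext t
          fin_cases t <;> rfl
        rw [e3]
        exact ih _ _ _ _ _ _ _ h0 h1 h2 h3 hm h5 h
    · obtain ⟨m, hm, e1, e2⟩ := md_spec _ _ _ h
      rw [e2] at h
      obtain ⟨g1, h⟩ := frz_ne h
      refine good_split _ 2 5 (by decide) m e1 ?_ ?_
      · have e3 : Function.update ![v0, v1, v2, v3, v4, v5] 2 m = ![v0, v1, m, v3, v4, v5] := by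
          funext t
          fin_cases t <;> rfl
        rw [e3]
        exact ih _ _ _ _ _ _ _ h0 h1 hm h3 h4 h5 g1
      · have e3 : Function.update ![v0, v1, v2, v3, v4, v5] 5 m = ![v0, v1, v2, v3, v4, m] := by
          funext t
          fin_cases t <;> rfl
        rw [e3]
        exact ih _ _ _ _ _ _ _ h0 h1 h2 h3 h4 hm h
    · obtain ⟨m, hm, e1, e2⟩ := md_spec _ _ _ h
      rw [e2] at h
      obtain ⟨g1, h⟩ := frz_ne h
      refine good_split _ 3 4 (by decide) m e1 ?_ ?_
      · have e3 : Function.update ![v0, v1, v2, v3, v4, v5] 3 m = ![v0, v1, v2, m, v4, v5] := by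
          funext t
          fin_cases t <;> rfl
        rw [e3]
        exact ih _ _ _ _ _ _ _ h0 h1 h2 hm h4 h5 g1
      · have e3 : Function.update ![v0, v1, v2, v3, v4, v5] 4 m = ![v0, v1, v2, v3, m, v5] := by
          funext t
          fin_cases t <;> rfl
        rw [e3]
        exact ih _ _ _ _ _ _ _ h0 h1 h2 h3 hm h5 h
    · obtain ⟨m, hm, e1, e2⟩ := md_spec _ _ _ h
      rw [e2] at h
      obtain ⟨g1, h⟩ := frz_ne h
      refine good_split _ 3 5 (by decide) m e1 ?_ ?_
      · have e3 : Function.update ![v0, v1, v2, v3, v4, v5] 3 m = ![v0, v1, v2, m, v4, v5] := by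
          funext t
          fin_cases t <;> rfl
        rw [e3]
        exact ih _ _ _ _ _ _ _ h0 h1 h2 hm h4 h5 g1
      · have e3 : Function.update ![v0, v1, v2, v3, v4, v5] 5 m = ![v0, v1, v2, v3, v4, m] := by
          funext t
          fin_cases t <;> rfl
        rw [e3]
        exact ih _ _ _ _ _ _ _ h0 h1 h2 h3 h4 hm h
    · obtain ⟨m, hm, e1, e2⟩ := md_spec _ _ _ h
      rw [e2] at h
      obtain ⟨g1, h⟩ := frz_ne h
      refine good_split _ 4 5 (by decide) m e1 ?_ ?_
      · have e3 : Function.update ![v0, v1, v2, v3, v4, v5] 4 m = ![v0, v1, v2, v3, m, v5] := by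
          funext t
          fin_cases t <;> rfl
        rw [e3]
        exact ih _ _ _ _ _ _ _ h0 h1 h2 h3 hm h5 g1
      · have e3 : Function.update ![v0, v1, v2, v3, v4, v5] 5 m = ![v0, v1, v2, v3, v4, m] := by
          funext t
          fin_cases t <;> rfl
        rw [e3]
        exact ih _ _ _ _ _ _ _ h0 h1 h2 h3 h4 hm h
    · exact hA _ _ _ _ _ _ _ h0 h1 h2 h3 h4 h5 (bif_ne h)
    · exact hB _ _ _ _ _ _ _ h0 h1 h2 h3 h4 h5 (bif_ne h)
    · exact hC _ _ _ _ _ _ (bif_ne h)
    · exact hD _ _ _ _ _ _ (bif_ne h)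
    · exact absurd rfl h

lemma wv_nonneg (v : V) (k : Fin 6) : 0 ≤ wv v k := by
  unfold wv
  fin_cases k <;> exact Nat.cast_nonneg _

lemma dt_wv (v : V) : dt (wv v) = detN v.a v.b v.c v.d v.e v.f := by
  unfold dt wv detN
  simp [Nat.add_eq, Nat.mul_eq]
  ring

lemma rad_wv {v : V} (h : Val v) : (v.g : ℝ) ≤ rad (wv v) := by
  refine le_of_pow_le_pow_left₀ (three_ne_zero) (rad_nonneg (wv_nonneg v)) ?_
  rw [rad_cube (dt_nonneg (wv_nonneg v)), dt_wv]
  have h1 : ((v.g * v.g * v.g : ℕ) : ℝ) ≤ (detN v.a v.b v.c v.d v.e v.f : ℕ) := by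
    exact_mod_cast h
  push_cast at h1
  calc (v.g : ℝ) ^ 3 = v.g * v.g * v.g := by ring
    _ ≤ _ := h1

/-- decidable validity -/
def val (w : V) : Bool := Nat.ble (w.g * w.g * w.g) (detN w.a w.b w.c w.d w.e w.f)

lemma val_spec {w : V} (h : val w = true) : Val w := Nat.le_of_ble_eq_true h

/-- `m` is the midpoint -/
def isMid (v w m : V) : Bool := Nat.beq (2 * m.a) (v.a + w.a) && Nat.beq (2 * m.b) (v.b + w.b) &&
  Nat.beq (2 * m.c) (v.c + w.c) && Nat.beq (2 * m.d) (v.d + w.d) && Nat.beq (2 * m.e) (v.e + w.e) &&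
  Nat.beq (2 * m.f) (v.f + w.f)

lemma isMid_spec {v w m : V} (h : isMid v w m = true) : (2:ℝ) • wv m = wv v + wv w := by
  unfold isMid at h
  simp only [Bool.and_eq_true] at h
  obtain ⟨⟨⟨⟨⟨ha, hb⟩, hc⟩, hd⟩, he⟩, hf⟩ := h
  have ra : (2:ℝ) * m.a = v.a + w.a := by exact_mod_cast Nat.eq_of_beq_eq_true ha
  have rb : (2:ℝ) * m.b = v.b + w.b := by exact_mod_cast Nat.eq_of_beq_eq_true hb
  have rc : (2:ℝ) * m.c = v.c + w.c := by exact_mod_cast Nat.eq_of_beq_eq_true hc
  have rd : (2:ℝ) * m.d = v.d + w.d := by exact_mod_cast Nat.eq_of_beq_eq_true hd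
  have re : (2:ℝ) * m.e = v.e + w.e := by exact_mod_cast Nat.eq_of_beq_eq_true he
  have rf : (2:ℝ) * m.f = v.f + w.f := by exact_mod_cast Nat.eq_of_beq_eq_true hf
  funext i
  fin_cases i
  · exact ra
  · exact rb
  · exact rc
  · exact rd
  · exact re
  · exact rf

lemma split01 {P : (Fin 6 → ℝ) → Prop} {v0 v1 v2 v3 v4 v5 : V} (m : V)
    (hm : isMid v0 v1 m = true) (h1 : Good P ![m, v1, v2, v3, v4, v5]) (h2 : Good P ![v0, m, v2, v3, v4, v5]) :
    Good P ![v0, v1, v2, v3, v4, v5] := by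
  refine good_split _ 0 1 (by decide) m (isMid_spec hm) ?_ ?_
  · have e3 : Function.update ![v0, v1, v2, v3, v4, v5] 0 m = ![m, v1, v2, v3, v4, v5] := by
      funext t
      fin_cases t <;> rfl
    rw [e3]
    exact h1
  · have e3 : Function.update ![v0, v1, v2, v3, v4, v5] 1 m = ![v0, m, v2, v3, v4, v5] := by
      funext t
      fin_cases t <;> rfl
    rw [e3]
    exact h2

lemma split02 {P : (Fin 6 → ℝ) → Prop} {v0 v1 v2 v3 v4 v5 : V} (m : V)
    (hm : isMid v0 v2 m = true) (h1 : Good P ![m, v1, v2, v3, v4, v5]) (h2 : Good P ![v0, v1, m, v3, v4, v5]) :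
    Good P ![v0, v1, v2, v3, v4, v5] := by
  refine good_split _ 0 2 (by decide) m (isMid_spec hm) ?_ ?_
  · have e3 : Function.update ![v0, v1, v2, v3, v4, v5] 0 m = ![m, v1, v2, v3, v4, v5] := by
      funext t
      fin_cases t <;> rfl
    rw [e3]
    exact h1
  · have e3 : Function.update ![v0, v1, v2, v3, v4, v5] 2 m = ![v0, v1, m, v3, v4, v5] := by
      funext t
      fin_cases t <;> rfl
    rw [e3]
    exact h2

lemma split03 {P : (Fin 6 → ℝ) → Prop} {v0 v1 v2 v3 v4 v5 : V} (m : V)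
    (hm : isMid v0 v3 m = true) (h1 : Good P ![m, v1, v2, v3, v4, v5]) (h2 : Good P ![v0, v1, v2, m, v4, v5]) :
    Good P ![v0, v1, v2, v3, v4, v5] := by
  refine good_split _ 0 3 (by decide) m (isMid_spec hm) ?_ ?_
  · have e3 : Function.update ![v0, v1, v2, v3, v4, v5] 0 m = ![m, v1, v2, v3, v4, v5] := by
      funext t
      fin_cases t <;> rfl
    rw [e3]
    exact h1
  · have e3 : Function.update ![v0, v1, v2, v3, v4, v5] 3 m = ![v0, v1, v2, m, v4, v5] := by
      funext t
      fin_cases t <;> rfl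
    rw [e3]
    exact h2

lemma split04 {P : (Fin 6 → ℝ) → Prop} {v0 v1 v2 v3 v4 v5 : V} (m : V)
    (hm : isMid v0 v4 m = true) (h1 : Good P ![m, v1, v2, v3, v4, v5]) (h2 : Good P ![v0, v1, v2, v3, m, v5]) :
    Good P ![v0, v1, v2, v3, v4, v5] := by
  refine good_split _ 0 4 (by decide) m (isMid_spec hm) ?_ ?_
  · have e3 : Function.update ![v0, v1, v2, v3, v4, v5] 0 m = ![m, v1, v2, v3, v4, v5] := by
      funext t
      fin_cases t <;> rfl
    rw [e3]
    exact h1
  · have e3 : Function.update ![v0, v1, v2, v3, v4, v5] 4 m = ![v0, v1, v2, v3, m, v5] := by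
      funext t
      fin_cases t <;> rfl
    rw [e3]
    exact h2

lemma split05 {P : (Fin 6 → ℝ) → Prop} {v0 v1 v2 v3 v4 v5 : V} (m : V)
    (hm : isMid v0 v5 m = true) (h1 : Good P ![m, v1, v2, v3, v4, v5]) (h2 : Good P ![v0, v1, v2, v3, v4, m]) :
    Good P ![v0, v1, v2, v3, v4, v5] := by
  refine good_split _ 0 5 (by decide) m (isMid_spec hm) ?_ ?_
  · have e3 : Function.update ![v0, v1, v2, v3, v4, v5] 0 m = ![m, v1, v2, v3, v4, v5] := by
      funext t
      fin_cases t <;> rfl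
    rw [e3]
    exact h1
  · have e3 : Function.update ![v0, v1, v2, v3, v4, v5] 5 m = ![v0, v1, v2, v3, v4, m] := by
      funext t
      fin_cases t <;> rfl
    rw [e3]
    exact h2

lemma split12 {P : (Fin 6 → ℝ) → Prop} {v0 v1 v2 v3 v4 v5 : V} (m : V)
    (hm : isMid v1 v2 m = true) (h1 : Good P ![v0, m, v2, v3, v4, v5]) (h2 : Good P ![v0, v1, m, v3, v4, v5]) :
    Good P ![v0, v1, v2, v3, v4, v5] := by
  refine good_split _ 1 2 (by decide) m (isMid_spec hm) ?_ ?_
  · have e3 : Function.update ![v0, v1, v2, v3, v4, v5] 1 m = ![v0, m, v2, v3, v4, v5] := by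
      funext t
      fin_cases t <;> rfl
    rw [e3]
    exact h1
  · have e3 : Function.update ![v0, v1, v2, v3, v4, v5] 2 m = ![v0, v1, m, v3, v4, v5] := by
      funext t
      fin_cases t <;> rfl
    rw [e3]
    exact h2

lemma split13 {P : (Fin 6 → ℝ) → Prop} {v0 v1 v2 v3 v4 v5 : V} (m : V)
    (hm : isMid v1 v3 m = true) (h1 : Good P ![v0, m, v2, v3, v4, v5]) (h2 : Good P ![v0, v1, v2, m, v4, v5]) :
    Good P ![v0, v1, v2, v3, v4, v5] := by
  refine good_split _ 1 3 (by decide) m (isMid_spec hm) ?_ ?_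
  · have e3 : Function.update ![v0, v1, v2, v3, v4, v5] 1 m = ![v0, m, v2, v3, v4, v5] := by
      funext t
      fin_cases t <;> rfl
    rw [e3]
    exact h1
  · have e3 : Function.update ![v0, v1, v2, v3, v4, v5] 3 m = ![v0, v1, v2, m, v4, v5] := by
      funext t
      fin_cases t <;> rfl
    rw [e3]
    exact h2

lemma split14 {P : (Fin 6 → ℝ) → Prop} {v0 v1 v2 v3 v4 v5 : V} (m : V)
    (hm : isMid v1 v4 m = true) (h1 : Good P ![v0, m, v2, v3, v4, v5]) (h2 : Good P ![v0, v1, v2, v3, m, v5]) :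
    Good P ![v0, v1, v2, v3, v4, v5] := by
  refine good_split _ 1 4 (by decide) m (isMid_spec hm) ?_ ?_
  · have e3 : Function.update ![v0, v1, v2, v3, v4, v5] 1 m = ![v0, m, v2, v3, v4, v5] := by
      funext t
      fin_cases t <;> rfl
    rw [e3]
    exact h1
  · have e3 : Function.update ![v0, v1, v2, v3, v4, v5] 4 m = ![v0, v1, v2, v3, m, v5] := by
      funext t
      fin_cases t <;> rfl
    rw [e3]
    exact h2

lemma split15 {P : (Fin 6 → ℝ) → Prop} {v0 v1 v2 v3 v4 v5 : V} (m : V)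
    (hm : isMid v1 v5 m = true) (h1 : Good P ![v0, m, v2, v3, v4, v5]) (h2 : Good P ![v0, v1, v2, v3, v4, m]) :
    Good P ![v0, v1, v2, v3, v4, v5] := by
  refine good_split _ 1 5 (by decide) m (isMid_spec hm) ?_ ?_
  · have e3 : Function.update ![v0, v1, v2, v3, v4, v5] 1 m = ![v0, m, v2, v3, v4, v5] := by
      funext t
      fin_cases t <;> rfl
    rw [e3]
    exact h1
  · have e3 : Function.update ![v0, v1, v2, v3, v4, v5] 5 m = ![v0, v1, v2, v3, v4, m] := by
      funext t
      fin_cases t <;> rfl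
    rw [e3]
    exact h2

lemma split23 {P : (Fin 6 → ℝ) → Prop} {v0 v1 v2 v3 v4 v5 : V} (m : V)
    (hm : isMid v2 v3 m = true) (h1 : Good P ![v0, v1, m, v3, v4, v5]) (h2 : Good P ![v0, v1, v2, m, v4, v5]) :
    Good P ![v0, v1, v2, v3, v4, v5] := by
  refine good_split _ 2 3 (by decide) m (isMid_spec hm) ?_ ?_
  · have e3 : Function.update ![v0, v1, v2, v3, v4, v5] 2 m = ![v0, v1, m, v3, v4, v5] := by
      funext t
      fin_cases t <;> rfl
    rw [e3]
    exact h1
  · have e3 : Function.update ![v0, v1, v2, v3, v4, v5] 3 m = ![v0, v1, v2, m, v4, v5] := by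
      funext t
      fin_cases t <;> rfl
    rw [e3]
    exact h2

lemma split24 {P : (Fin 6 → ℝ) → Prop} {v0 v1 v2 v3 v4 v5 : V} (m : V)
    (hm : isMid v2 v4 m = true) (h1 : Good P ![v0, v1, m, v3, v4, v5]) (h2 : Good P ![v0, v1, v2, v3, m, v5]) :
    Good P ![v0, v1, v2, v3, v4, v5] := by
  refine good_split _ 2 4 (by decide) m (isMid_spec hm) ?_ ?_
  · have e3 : Function.update ![v0, v1, v2, v3, v4, v5] 2 m = ![v0, v1, m, v3, v4, v5] := by
      funext t
      fin_cases t <;> rfl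
    rw [e3]
    exact h1
  · have e3 : Function.update ![v0, v1, v2, v3, v4, v5] 4 m = ![v0, v1, v2, v3, m, v5] := by
      funext t
      fin_cases t <;> rfl
    rw [e3]
    exact h2

lemma split25 {P : (Fin 6 → ℝ) → Prop} {v0 v1 v2 v3 v4 v5 : V} (m : V)
    (hm : isMid v2 v5 m = true) (h1 : Good P ![v0, v1, m, v3, v4, v5]) (h2 : Good P ![v0, v1, v2, v3, v4, m]) :
    Good P ![v0, v1, v2, v3, v4, v5] := by
  refine good_split _ 2 5 (by decide) m (isMid_spec hm) ?_ ?_
  · have e3 : Function.update ![v0, v1, v2, v3, v4, v5] 2 m = ![v0, v1, m, v3, v4, v5] := by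
      funext t
      fin_cases t <;> rfl
    rw [e3]
    exact h1
  · have e3 : Function.update ![v0, v1, v2, v3, v4, v5] 5 m = ![v0, v1, v2, v3, v4, m] := by
      funext t
      fin_cases t <;> rfl
    rw [e3]
    exact h2

lemma split34 {P : (Fin 6 → ℝ) → Prop} {v0 v1 v2 v3 v4 v5 : V} (m : V)
    (hm : isMid v3 v4 m = true) (h1 : Good P ![v0, v1, v2, m, v4, v5]) (h2 : Good P ![v0, v1, v2, v3, m, v5]) :
    Good P ![v0, v1, v2, v3, v4, v5] := by
  refine good_split _ 3 4 (by decide) m (isMid_spec hm) ?_ ?_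
  · have e3 : Function.update ![v0, v1, v2, v3, v4, v5] 3 m = ![v0, v1, v2, m, v4, v5] := by
      funext t
      fin_cases t <;> rfl
    rw [e3]
    exact h1
  · have e3 : Function.update ![v0, v1, v2, v3, v4, v5] 4 m = ![v0, v1, v2, v3, m, v5] := by
      funext t
      fin_cases t <;> rfl
    rw [e3]
    exact h2

lemma split35 {P : (Fin 6 → ℝ) → Prop} {v0 v1 v2 v3 v4 v5 : V} (m : V)
    (hm : isMid v3 v5 m = true) (h1 : Good P ![v0, v1, v2, m, v4, v5]) (h2 : Good P ![v0, v1, v2, v3, v4, m]) :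
    Good P ![v0, v1, v2, v3, v4, v5] := by
  refine good_split _ 3 5 (by decide) m (isMid_spec hm) ?_ ?_
  · have e3 : Function.update ![v0, v1, v2, v3, v4, v5] 3 m = ![v0, v1, v2, m, v4, v5] := by
      funext t
      fin_cases t <;> rfl
    rw [e3]
    exact h1
  · have e3 : Function.update ![v0, v1, v2, v3, v4, v5] 5 m = ![v0, v1, v2, v3, v4, m] := by
      funext t
      fin_cases t <;> rfl
    rw [e3]
    exact h2

lemma split45 {P : (Fin 6 → ℝ) → Prop} {v0 v1 v2 v3 v4 v5 : V} (m : V)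
    (hm : isMid v4 v5 m = true) (h1 : Good P ![v0, v1, v2, v3, m, v5]) (h2 : Good P ![v0, v1, v2, v3, v4, m]) :
    Good P ![v0, v1, v2, v3, v4, v5] := by
  refine good_split _ 4 5 (by decide) m (isMid_spec hm) ?_ ?_
  · have e3 : Function.update ![v0, v1, v2, v3, v4, v5] 4 m = ![v0, v1, v2, v3, m, v5] := by
      funext t
      fin_cases t <;> rfl
    rw [e3]
    exact h1
  · have e3 : Function.update ![v0, v1, v2, v3, v4, v5] 5 m = ![v0, v1, v2, v3, v4, m] := by
      funext t
      fin_cases t <;> rfl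
    rw [e3]
    exact h2

end Pool.Agent.V7H99
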