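import Pool.Agent.V7H99.An

/-!
# Soundness of the leaves of type A
-/

set_option autoImplicit false

open Matrix

namespace Pool.Agent.V7H99

open Pool.Agent.K1H99.FCC (N0 rv nsq Qm qf PD dt rad rad_pos rad_cube dt_pos Fp
  rad_sum qf_nonneg rad_nonneg dt_nonneg frc_eq)

/-- the linear form -/
def bl (B x : Fin 6 → ℝ) : ℝ :=
  B 0 * x 0 + (B 1 * x 1 + (B 2 * x 2 + (B 3 * x 3 + (B 4 * x 4 + B 5 * x 5))))

lemma bl_sum (B : Fin 6 → ℝ) (l : Fin 6 → ℝ) (v : Fin 6 → Fin 6 → ℝ) :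
    bl B (∑ i, l i • v i) = ∑ i, l i * bl B (v i) := by
  unfold bl
  simp only [Finset.sum_apply, Pi.smul_apply, smul_eq_mul, Fin.sum_univ_six]
  ring

/-- coefficients of the linear form -/
def BV (u : Fin 13 → ℝ) : Fin 6 → ℝ :=
  ![(u 0 + (u 1 + (u 5 + (u 6 + (u 8 + (u 9 + (u 10 + (u 11 + (4 * u 7))))))))),
    (u 0 + (u 2 + (u 4 + (u 6 + (u 7 + (u 9 + (u 10 + (u 12 + (4 * u 8))))))))),
    (u 0 + (u 3 + (u 4 + (u 5 + (u 7 + (u 8 + (u 11 + (u 12 + (4 * u 9))))))))),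
    (u 1 + (u 2 + (u 4 + (u 5 + (u 7 + (u 8 + (u 11 + (u 12 + (4 * u 10))))))))),
    (u 1 + (u 3 + (u 4 + (u 6 + (u 7 + (u 9 + (u 10 + (u 12 + (4 * u 11))))))))),
    (u 2 + (u 3 + (u 5 + (u 6 + (u 8 + (u 9 + (u 10 + (u 11 + (4 * u 12)))))))))]

lemma sumx13 (f : Fin 13 → ℝ) : ∑ i, f i = (f 0 + (f 1 + (f 2 + (f 3 + (f 4 + (f 5 + (f 6 + (f 7 + (f 8 + (f 9 + (f 10 + (f 11 + f 12)))))))))))) := by
  simp only [Fin.sum_univ_castSucc, Fin.sum_univ_zero, zero_add]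
  show _ = _
  simp only [← add_assoc]
  rfl

lemma bl_BV (u : Fin 13 → ℝ) (p : Fin 6 → ℝ) : bl (BV u) p = ∑ i, u i * qf p (rv (Xs i)) := by
  rw [sumx13]
  unfold bl BV qf rv Xs
  simp
  ring

lemma tv_spec {A1 A2 k1 k2 L0 L1 L2 L3 L4 L5 : Nat} {v : V}
    (h : tv A1 A2 k1 k2 L0 L1 L2 L3 L4 L5 v = true) :
    (k1:ℝ) * bl ![L0, L1, L2, L3, L4, L5] (wv v) ≤ A1 * v.g ∧
    (k2:ℝ) * bl ![L0, L1, L2, L3, L4, L5] (wv v) ≤ A2 * v.g := by
  unfold tv at h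
  simp only [frc_eq, Bool.and_eq_true, Nat.add_eq, Nat.mul_eq] at h
  have h1 := Nat.le_of_ble_eq_true h.1
  have h2 := Nat.le_of_ble_eq_true h.2
  rify at h1 h2
  unfold bl wv
  simp only [Matrix.cons_val]
  exact ⟨h1, h2⟩

lemma lA_spec {P : Par} {v0 v1 v2 v3 v4 v5 : V} {j0 j1 j2 j3 j4 j5 j6 j7 j8 j9 j10 j11 j12 : Nat}
    (h : lA P v0 v1 v2 v3 v4 v5 j0 j1 j2 j3 j4 j5 j6 j7 j8 j9 j10 j11 j12 = true) :
    ∃ (a1 a2 : Nat), P.fa = 1 ∧
      P.u1 + a1 = 10000 * (te P.ta j0 * j0 + (te P.ta j1 * j1 + (te P.ta j2 * j2 + (te P.ta j3 * j3 + (te P.ta j4 * j4 + (te P.ta j5 * j5 + (te P.ta j6 * j6 + (te P.ta j7 * j7 + (te P.ta j8 * j8 + (te P.ta j9 * j9 + (te P.ta j10 * j10 + (te P.ta j11 * j11 + te P.ta j12 * j12)))))))))))) +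
        P.m1 * (te P.ta j0 + (te P.ta j1 + (te P.ta j2 + (te P.ta j3 + (te P.ta j4 + (te P.ta j5 + (te P.ta j6 + (te P.ta j7 + (te P.ta j8 + (te P.ta j9 + (te P.ta j10 + (te P.ta j11 + te P.ta j12)))))))))))) ∧
      P.u2 + a2 = 10000 * (te P.ta j0 * j0 + (te P.ta j1 * j1 + (te P.ta j2 * j2 + (te P.ta j3 * j3 + (te P.ta j4 * j4 + (te P.ta j5 * j5 + (te P.ta j6 * j6 + (te P.ta j7 * j7 + (te P.ta j8 * j8 + (te P.ta j9 * j9 + (te P.ta j10 * j10 + (te P.ta j11 * j11 + te P.ta j12 * j12)))))))))))) +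
        P.m2 * (te P.ta j0 + (te P.ta j1 + (te P.ta j2 + (te P.ta j3 + (te P.ta j4 + (te P.ta j5 + (te P.ta j6 + (te P.ta j7 + (te P.ta j8 + (te P.ta j9 + (te P.ta j10 + (te P.ta j11 + te P.ta j12)))))))))))) ∧
      ∀ i, ((P.k1:ℝ) * bl (BV fun x => (te P.ta (![j0, j1, j2, j3, j4, j5, j6, j7, j8, j9, j10, j11, j12] x) : ℝ)) (wv (![v0, v1, v2, v3, v4, v5] i)) ≤
          1000000 * a1 * (![v0, v1, v2, v3, v4, v5] i).g) ∧
        ((P.k2:ℝ) * bl (BV fun x => (te P.ta (![j0, j1, j2, j3, j4, j5, j6, j7, j8, j9, j10, j11, j12] x) : ℝ)) (wv (![v0, v1, v2, v3, v4, v5] i)) ≤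
          1000000 * a2 * (![v0, v1, v2, v3, v4, v5] i).g) := by
  unfold lA at h
  simp only [frc_eq, Bool.and_eq_true, Nat.add_eq, Nat.mul_eq, Nat.sub_eq] at h
  obtain ⟨⟨⟨hu1, hu2⟩, hfa⟩, ⟨⟨⟨⟨⟨h0, h1⟩, h2⟩, h3⟩, h4⟩, h5⟩⟩ := h
  have hu1 := Nat.le_of_ble_eq_true hu1
  have hu2 := Nat.le_of_ble_eq_true hu2
  refine ⟨_, _, Nat.eq_of_beq_eq_true hfa, Nat.add_sub_of_le hu1, Nat.add_sub_of_le hu2, ?_⟩
  have e : (BV fun x => (te P.ta (![j0, j1, j2, j3, j4, j5, j6, j7, j8, j9, j10, j11, j12] x) : ℝ)) = ![(((te P.ta j0 + (te P.ta j1 + (te P.ta j5 + (te P.ta j6 + (te P.ta j8 + (te P.ta j9 + (te P.ta j10 + (te P.ta j11 + (4 * te P.ta j7))))))))) : ℕ) : ℝ),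
      (((te P.ta j0 + (te P.ta j2 + (te P.ta j4 + (te P.ta j6 + (te P.ta j7 + (te P.ta j9 + (te P.ta j10 + (te P.ta j12 + (4 * te P.ta j8))))))))) : ℕ) : ℝ),
      (((te P.ta j0 + (te P.ta j3 + (te P.ta j4 + (te P.ta j5 + (te P.ta j7 + (te P.ta j8 + (te P.ta j11 + (te P.ta j12 + (4 * te P.ta j9))))))))) : ℕ) : ℝ),
      (((te P.ta j1 + (te P.ta j2 + (te P.ta j4 + (te P.ta j5 + (te P.ta j7 + (te P.ta j8 + (te P.ta j11 + (te P.ta j12 + (4 * te P.ta j10))))))))) : ℕ) : ℝ),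
      (((te P.ta j1 + (te P.ta j3 + (te P.ta j4 + (te P.ta j6 + (te P.ta j7 + (te P.ta j9 + (te P.ta j10 + (te P.ta j12 + (4 * te P.ta j11))))))))) : ℕ) : ℝ),
      (((te P.ta j2 + (te P.ta j3 + (te P.ta j5 + (te P.ta j6 + (te P.ta j8 + (te P.ta j9 + (te P.ta j10 + (te P.ta j11 + (4 * te P.ta j12))))))))) : ℕ) : ℝ)] := by
    unfold BV
    push_cast
    simp only [Matrix.cons_val]
  rw [e]
  intro i
  fin_cases i
  · have := tv_spec h0
    push_cast at this ⊢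
    exact this
  · have := tv_spec h1
    push_cast at this ⊢
    exact this
  · have := tv_spec h2
    push_cast at this ⊢
    exact this
  · have := tv_spec h3
    push_cast at this ⊢
    exact this
  · have := tv_spec h4
    push_cast at this ⊢
    exact this
  · have := tv_spec h5
    push_cast at this ⊢
    exact this

lemma leafA_spec {P : Par} {v0 v1 v2 v3 v4 v5 : V} {a : Nat}
    (h : leafA P v0 v1 v2 v3 v4 v5 a = true) :
    P.fa = 1 ∧ ∃ (j : Fin 13 → Nat) (a1 a2 : ℝ), 0 ≤ a1 ∧ 0 ≤ a2 ∧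
      P.u1 + a1 = 10000 * ∑ x, (te P.ta (j x) : ℝ) * j x + P.m1 * ∑ x, (te P.ta (j x) : ℝ) ∧
      P.u2 + a2 = 10000 * ∑ x, (te P.ta (j x) : ℝ) * j x + P.m2 * ∑ x, (te P.ta (j x) : ℝ) ∧
      ∀ i, ((P.k1:ℝ) * bl (BV fun x => (te P.ta (j x) : ℝ)) (wv (![v0, v1, v2, v3, v4, v5] i)) ≤
          1000000 * a1 * (![v0, v1, v2, v3, v4, v5] i).g) ∧
        ((P.k2:ℝ) * bl (BV fun x => (te P.ta (j x) : ℝ)) (wv (![v0, v1, v2, v3, v4, v5] i)) ≤
          1000000 * a2 * (![v0, v1, v2, v3, v4, v5] i).g) := by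
  unfold leafA at h
  simp only [frc_eq] at h
  obtain ⟨a1, a2, hfa, h1, h2, h3⟩ := lA_spec h
  refine ⟨hfa, _, a1, a2, Nat.cast_nonneg _, Nat.cast_nonneg _, ?_, ?_, h3⟩
  · rw [sumx13, sumx13]
    have h4 := congrArg (Nat.cast (R := ℝ)) h1
    push_cast at h4
    simp only [Matrix.cons_val]
    exact h4
  · rw [sumx13, sumx13]
    have h4 := congrArg (Nat.cast (R := ℝ)) h2
    push_cast at h4
    simp only [Matrix.cons_val]
    exact h4

/-- validity of the constants used by the leaves of type A -/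
structure ParA (P : Par) (t1 t2 : ℝ) : Prop where
  tab : ∀ j, (te P.ta j : ℝ) ≤ 16777216 * Real.exp (3 - j / 32)
  m1 : (P.m1 : ℝ) = 320000 * (t1 - 2)
  m2 : (P.m2 : ℝ) = 320000 * (t2 - 2)
  k1 : (P.k1 : ℝ) = 320000 * 793701 * t1
  k2 : (P.k2 : ℝ) = 320000 * 793701 * t2
  u : ∀ t, t1 ≤ t → t ≤ t2 → ∀ a b : ℝ, (P.u1 : ℝ) ≤ 10000 * (a + b * t1) →
    (P.u2 : ℝ) ≤ 10000 * (a + b * t2) → 268435456 * Tt t < a + b * t

theorem leafA_sound {P : Par} {t1 t2 : ℝ} (ht1 : 0 < t1) (h12 : t1 ≤ t2)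
    (hP : P.fa = 1 → ParA P t1 t2)
    (v0 v1 v2 v3 v4 v5 : V) (a : Nat) (h0 : Val v0) (h1 : Val v1) (h2 : Val v2) (h3 : Val v3)
    (h4 : Val v4) (h5 : Val v5) (h : leafA P v0 v1 v2 v3 v4 v5 a = true) :
    Good (Want (Set.Icc t1 t2)) ![v0, v1, v2, v3, v4, v5] := by
  obtain ⟨hfa, j, a1, a2, ha1, ha2, e1, e2, hv⟩ := leafA_spec h
  have hP := hP hfa
  set v : Fin 6 → V := ![v0, v1, v2, v3, v4, v5] with hvd
  have hval : ∀ i, Val (v i) := by
    intro i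
    fin_cases i
    · exact h0
    · exact h1
    · exact h2
    · exact h3
    · exact h4
    · exact h5
  intro l hl hp t ht _
  left
  set p := ∑ i, l i • wv (v i) with hpdef
  have hd := dt_pos hp
  have hr := rad_pos hd
  have htpos : 0 < t := lt_of_lt_of_le ht1 ht.1
  have ht2 : 0 < t2 := lt_of_lt_of_le ht1 h12
  have hk := kk_pos
  have hklo := kk_lo
  -- the sums
  set w : Fin 13 → ℝ := fun x => (te P.ta (j x) : ℝ) with hw
  set L : ℝ := bl (BV w) p with hL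
  have hg : ∑ i, l i * ((v i).g : ℝ) ≤ rad p := by
    refine le_trans ?_ (rad_sum Finset.univ l (fun i => wv (v i)) hl fun i => wv_nonneg _)
    exact Finset.sum_le_sum fun i _ => mul_le_mul_of_nonneg_left (rad_wv (hval i)) (hl i)
  have hLs : L = ∑ i, l i * bl (BV w) (wv (v i)) := bl_sum _ _ _
  have key : ∀ (s a' : ℝ), 0 ≤ a' →
      (∀ i, 320000 * 793701 * s * bl (BV w) (wv (v i)) ≤ 1000000 * a' * (v i).g) →
      320000 * s * (L / (kk * rad p)) ≤ a' := by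
    intro s a' ha' hk'
    have s1 : 320000 * 793701 * s * L ≤ 1000000 * a' * ∑ i, l i * ((v i).g : ℝ) := by
      rw [hLs, Finset.mul_sum, Finset.mul_sum]
      refine Finset.sum_le_sum fun i _ => ?_
      have := mul_le_mul_of_nonneg_left (hk' i) (hl i)
      linarith
    have s2 := s1.trans (mul_le_mul_of_nonneg_left hg (by positivity))
    rw [← mul_div_assoc, div_le_iff₀ (by positivity)]
    have s3 : 1000000 * a' * rad p ≤ 793701 * kk * (a' * rad p) := by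
      have := mul_le_mul_of_nonneg_right hklo (mul_nonneg ha' hr.le)
      linarith
    linarith
  have b1 := key t1 a1 ha1 (fun i => by have := (hv i).1; rwa [hP.k1] at this)
  have b2 := key t2 a2 ha2 (fun i => by have := (hv i).2; rwa [hP.k2] at this)
  set y : ℝ := L / (kk * rad p) with hy
  set W1 : ℝ := ∑ x, w x * j x with hW1
  set W0 : ℝ := ∑ x, w x with hW0
  have hT := hP.u t ht.1 ht.2 (W1 - 64 * W0) (32 * W0 - 32 * y)
    (by rw [hP.m1] at e1; linarith) (by rw [hP.m2] at e2; linarith)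
  have hG := gs_ge hp htpos
  have hx : ∀ i, w i * (1 + ((j i : ℝ) / 32 - 3) - t * (vx p (Xs i) - 1)) ≤
      16777216 * Real.exp (-(t * (vx p (Xs i) - 1))) := by
    intro i
    have h1 := tang (w := w i / 16777216) (s := (j i : ℝ) / 32 - 3) (by positivity)
      (by
        rw [div_le_iff₀ (by norm_num)]
        have := hP.tab (j i)
        rw [show -((j i : ℝ) / 32 - 3) = 3 - (j i : ℝ) / 32 by ring]
        linarith) (t * (vx p (Xs i) - 1))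
    calc _ = 16777216 * (w i / 16777216 * (1 + ((j i : ℝ) / 32 - 3) - t * (vx p (Xs i) - 1))) := by
          ring
      _ ≤ _ := mul_le_mul_of_nonneg_left h1 (by norm_num)
  have hsum : ∑ i, w i * (1 + ((j i : ℝ) / 32 - 3) - t * (vx p (Xs i) - 1)) =
      W1 / 32 + (t - 2) * W0 - t * y := by
    have e : ∀ i, w i * (1 + ((j i : ℝ) / 32 - 3) - t * (vx p (Xs i) - 1)) =
        (w i * j i) / 32 + (t - 2) * w i - t * ((w i * qf p (rv (Xs i))) / (kk * rad p)) := by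
      intro i
      unfold vx
      ring
    simp_rw [e]
    rw [Finset.sum_sub_distrib, Finset.sum_add_distrib, ← Finset.sum_div, ← Finset.mul_sum,
      ← Finset.mul_sum, ← Finset.sum_div, ← bl_BV]
  have hfin := Finset.sum_le_sum fun i (_ : i ∈ Finset.univ) => hx i
  rw [hsum, ← Finset.mul_sum] at hfin
  linarith

end Pool.Agent.V7H99
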