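import Pool.Agent.V7H99.En
import Pool.Agent.V7H99.SdC

/-!
# The slices of the parameter range
-/

set_option autoImplicit false

namespace Pool.Agent.V7H99

open Pool.Agent.K1H99.FCC (PD Fp)

/-- a chunk of the certificate -/
def chk (Pr : Par) (v0 v1 v2 v3 v4 v5 : V) (code : Nat) : Bool :=
  val v0 && val v1 && val v2 && val v3 && val v4 && val v5 &&
    Nat.beq (go Pr 60 v0 v1 v2 v3 v4 v5 code) 1

theorem chk_sound {Pr : Par} {I : Set ℝ} {t1 : ℝ} (ht1 : 38 / 10 ≤ t1) (hI : ∀ t ∈ I, t1 ≤ t)
    (hA : Pr.fa = 1 → ∃ t2, t1 ≤ t2 ∧ I = Set.Icc t1 t2 ∧ ParA Pr t1 t2) (hB : ParB Pr t1)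
    (hD : Pr.fb = 1 → ∀ t ∈ I, t ≤ 41 / 10) (v0 v1 v2 v3 v4 v5 : V) (code : Nat)
    (h : chk Pr v0 v1 v2 v3 v4 v5 code = true) : Good (Want I) ![v0, v1, v2, v3, v4, v5] := by
  have ht0 : 0 < t1 := by linarith
  unfold chk at h
  simp only [Bool.and_eq_true] at h
  obtain ⟨⟨⟨⟨⟨⟨h0, h1⟩, h2⟩, h3⟩, h4⟩, h5⟩, h6⟩ := h
  have h7 := Nat.eq_of_beq_eq_true h6
  refine go_sound Pr (Want I) ?_ ?_ ?_ ?_ 60 v0 v1 v2 v3 v4 v5 code (val_spec h0) (val_spec h1)
    (val_spec h2) (val_spec h3) (val_spec h4) (val_spec h5) (by rw [h7]; exact one_ne_zero)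
  · intro w0 w1 w2 w3 w4 w5 a g0 g1 g2 g3 g4 g5 hl
    have hfa : Pr.fa = 1 := (leafA_spec hl).1
    obtain ⟨t2, h12, hII, hP⟩ := hA hfa
    rw [hII]
    exact leafA_sound ht0 h12 (fun _ => hP) w0 w1 w2 w3 w4 w5 a g0 g1 g2 g3 g4 g5 hl
  · intro w0 w1 w2 w3 w4 w5 a g0 g1 g2 g3 g4 g5 hl
    exact leafB_sound ent_ok ht0 hB hI w0 w1 w2 w3 w4 w5 a g0 g1 g2 g3 g4 g5 hl
  · intro w0 w1 w2 w3 w4 w5 hl
    exact leafC_sound (fun p hp hPD hL t ht _ => locF_sound p hp hPD hL (ht1.trans (hI t ht)))
      w0 w1 w2 w3 w4 w5 hl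
  · intro w0 w1 w2 w3 w4 w5 hl
    exact leafD_sound (fun hfb p hp hPD hL t ht h0 =>
      Or.inl (locB_sound p hp hPD hL h0 (hD hfb t ht))) w0 w1 w2 w3 w4 w5 hl

/-- the bound for the sum of the face-centred cubic form at a point -/
lemma tt_bd {t1 E T : ℝ} (h37 : 37 / 10 ≤ t1) (_hE0 : 0 ≤ E) (hE : Real.exp (-t1) ≤ E)
    (hT : 12 + 6 * E + 24 * E ^ 2 + 13 * E ^ 3 ≤ T) : ∀ t, t1 ≤ t → Tt t < T := by
  intro t ht
  have h1 := tt_lt (h37.trans ht)
  have h2 : Real.exp (-t) ≤ E := (Real.exp_le_exp.2 (by linarith)).trans hE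
  have h3 := Real.exp_pos (-t)
  have h4 : Real.exp (-t) ^ 2 ≤ E ^ 2 := pow_le_pow_left₀ h3.le h2 2
  have h5 : Real.exp (-t) ^ 3 ≤ E ^ 3 := pow_le_pow_left₀ h3.le h2 3
  linarith

/-- convexity -/
lemma exp_chord (k : ℕ) {t1 t2 l t E1 E2 : ℝ} (hl0 : 0 ≤ l) (hl1 : l ≤ 1)
    (ht : t = (1 - l) * t1 + l * t2) (h1 : Real.exp (-t1) ≤ E1) (h2 : Real.exp (-t2) ≤ E2) :
    Real.exp (-t) ^ k ≤ (1 - l) * E1 ^ k + l * E2 ^ k := by
  have h := convexOn_exp.2 (Set.mem_univ (-((k : ℝ) * t1))) (Set.mem_univ (-((k : ℝ) * t2)))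
    (sub_nonneg.2 hl1) hl0 (by ring : (1 - l) + l = 1)
  simp only [smul_eq_mul] at h
  have e : ∀ s : ℝ, Real.exp (-((k : ℝ) * s)) = Real.exp (-s) ^ k := by
    intro s
    rw [← Real.exp_nat_mul]
    congr 1
    ring
  have e2 : (1 - l) * -((k : ℝ) * t1) + l * -((k : ℝ) * t2) = -((k : ℝ) * t) := by
    rw [ht]
    ring
  rw [e2, e, e, e] at h
  refine h.trans ?_
  have h3 : Real.exp (-t1) ^ k ≤ E1 ^ k := pow_le_pow_left₀ (Real.exp_pos _).le h1 k
  have h4 : Real.exp (-t2) ^ k ≤ E2 ^ k := pow_le_pow_left₀ (Real.exp_pos _).le h2 k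
  have h5 : 0 ≤ 1 - l := by linarith
  gcongr

/-- the affine majorant -/
lemma tt_aff {t1 t2 E1 E2 U1 U2 : ℝ} (h37 : 37 / 10 ≤ t1) (h12 : t1 < t2)
    (h1 : Real.exp (-t1) ≤ E1) (h2 : Real.exp (-t2) ≤ E2)
    (hU1 : 2684354560000 * (12 + 6 * E1 + 24 * E1 ^ 2 + 13 * E1 ^ 3) ≤ U1)
    (hU2 : 2684354560000 * (12 + 6 * E2 + 24 * E2 ^ 2 + 13 * E2 ^ 3) ≤ U2) :
    ∀ t, t1 ≤ t → t ≤ t2 → ∀ a b : ℝ, U1 ≤ 10000 * (a + b * t1) → U2 ≤ 10000 * (a + b * t2) →
      268435456 * Tt t < a + b * t := by
  intro t ht ht' a b ha hb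
  obtain ⟨l, hl⟩ : ∃ l, l = (t - t1) / (t2 - t1) := ⟨_, rfl⟩
  have hpos : 0 < t2 - t1 := by linarith
  have hl0 : 0 ≤ l := by rw [hl]; exact div_nonneg (by linarith) hpos.le
  have hl1 : l ≤ 1 := by rw [hl, div_le_one hpos]; linarith
  have hlt : l * (t2 - t1) = t - t1 := by rw [hl]; field_simp
  have hte : t = (1 - l) * t1 + l * t2 := by linarith
  have k1 := exp_chord 1 hl0 hl1 hte h1 h2
  have k2 := exp_chord 2 hl0 hl1 hte h1 h2
  have k3 := exp_chord 3 hl0 hl1 hte h1 h2
  simp only [pow_one] at k1
  have h := tt_lt (h37.trans ht)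
  have m1 := mul_le_mul_of_nonneg_left (hU1.trans ha) (sub_nonneg.2 hl1)
  have m2 := mul_le_mul_of_nonneg_left (hU2.trans hb) hl0
  have h9 : a + b * t = (1 - l) * (a + b * t1) + l * (a + b * t2) := by rw [hte]; ring
  rw [h9]
  linarith

/-- lower bounds for logarithms -/
lemma log_ge_of {c T : ℝ} (hT : 0 < T) (hc0 : 0 ≤ c) (hc1 : c ≤ 1)
    (h : ∑ m ∈ Finset.range 12, c ^ m / m.factorial + c ^ 12 * (12 + 1) / (Nat.factorial 12 * 12) ≤
      32 / T) : c ≤ Real.log (32 / T) := by
  rw [Real.le_log_iff_exp_le (by positivity)]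
  refine le_trans ?_ h
  have := Real.exp_bound' hc0 hc1 (n := 12) (by norm_num)
  simpa using this

lemma ex39581 : Real.exp (-(39581 / 10000)) ≤ 1909936864 / 100000000000 := by
  refine exp_ub 24 (by norm_num) (by norm_num) ?_
  norm_num [Finset.sum_range_succ, Nat.factorial]

lemma ex41000 : Real.exp (-(41000 / 10000)) ≤ 16572675402 / 1000000000000 := by
  refine exp_ub 25 (by norm_num) (by norm_num) ?_
  norm_num [Finset.sum_range_succ, Nat.factorial]

lemma ex45000 : Real.exp (-(45000 / 10000)) ≤ 111089965383 / 10000000000000 := by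
  refine exp_ub 26 (by norm_num) (by norm_num) ?_
  norm_num [Finset.sum_range_succ, Nat.factorial]

lemma ex55000 : Real.exp (-(55000 / 10000)) ≤ 4086771439 / 1000000000000 := by
  refine exp_ub 27 (by norm_num) (by norm_num) ?_
  norm_num [Finset.sum_range_succ, Nat.factorial]

lemma ex75000 : Real.exp (-(75000 / 10000)) ≤ 5530843702 / 10000000000000 := by
  refine exp_ub 32 (by norm_num) (by norm_num) ?_
  norm_num [Finset.sum_range_succ, Nat.factorial]

lemma ex110000 : Real.exp (-(110000 / 10000)) ≤ 16701701 / 1000000000000 := by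
  refine exp_ub 35 (by norm_num) (by norm_num) ?_
  norm_num [Finset.sum_range_succ, Nat.factorial]

/-- constants of slice 0 -/
def pr0 : Par := ⟨TA, 117980176958517936128, 0x9205bc01a36e2f0000000000000000009205bc01a36e2f0000000000000000009205bc01a36e2f0000000000000000009205bc01a36e2f0000000000000000009205bc01a36e2f0000000000000000009205bc01a36e2f0000000000000000009205bc01a36e2f0000000000000000009205bc01a36e2f0000000000000000009205bc01a36e2f0000000000000000009205bc01a36e2f0000000000000000009205bc01a36e2f0000000000000000009205bc01a36e2f0000000000000000009205bc01a36e2f0, 33, 626592, 672000, 32543615866299, 32497029602687, 1005295336992, 1041335712000, 39581, 16283880, 1, 1⟩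

/-- slice 0 -/
def I0 : Set ℝ := Set.Icc (39581 / 10000) (41000 / 10000)

lemma pb0 : ParB pr0 (39581 / 10000) := by
  refine ⟨by unfold pr0; norm_num, 12123441646360 / 1000000000000, by norm_num, ?_, ?_⟩
  · exact tt_bd (by norm_num) (by norm_num) ex39581 (by norm_num)
  · have h := log_ge_of (c := 16283880 / 16777216) (T := 12123441646360 / 1000000000000) (by norm_num) (by norm_num)
      (by norm_num) (by norm_num [Finset.sum_range_succ, Nat.factorial])
    show ((16283880 : ℕ) : ℝ) ≤ _
    push_cast
    linarith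

lemma pa0 : ParA pr0 (39581 / 10000) (41000 / 10000) where
  tab := tab_all
  m1 := by unfold pr0; norm_num
  m2 := by unfold pr0; norm_num
  k1 := by unfold pr0; norm_num
  k2 := by unfold pr0; norm_num
  u := by
    have e1 : ((pr0.u1 : ℕ) : ℝ) = 32543615866299 := by unfold pr0; norm_num
    have e2 : ((pr0.u2 : ℕ) : ℝ) = 32497029602687 := by unfold pr0; norm_num
    rw [e1, e2]
    exact tt_aff (by norm_num) (by norm_num) ex39581 ex41000 (by norm_num) (by norm_num)

theorem gd0 {v0 v1 v2 v3 v4 v5 : V} (code : Nat)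
    (h : chk pr0 v0 v1 v2 v3 v4 v5 code = true) : Good (Want I0) ![v0, v1, v2, v3, v4, v5] :=
  chk_sound (t1 := 39581 / 10000) (by norm_num) (fun t ht => ht.1)
    (fun _ => ⟨41000 / 10000, by norm_num, rfl, pa0⟩)
    pb0 (fun _ t ht => ht.2.trans (by norm_num)) v0 v1 v2 v3 v4 v5 code h

/-- constants of slice 1 -/
def pr1 : Par := ⟨TA, 125914238076376317952, 0xe6666666666666000000000000000000e6666666666666000000000000000000e6666666666666000000000000000000e6666666666666000000000000000000e6666666666666000000000000000000e6666666666666000000000000000000e6666666666666000000000000000000e6666666666666000000000000000000e6666666666666000000000000000000e6666666666666000000000000000000e6666666666666000000000000000000e6666666666666000000000000000000e66666666666660, 42, 672000, 800000, 32497029602687, 32399176091009, 1041335712000, 1142929440000, 41000, 16307914, 1, 0⟩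

/-- slice 1 -/
def I1 : Set ℝ := Set.Icc (41000 / 10000) (45000 / 10000)

lemma pb1 : ParB pr1 (41000 / 10000) := by
  refine ⟨by unfold pr1; norm_num, 12106086910770 / 1000000000000, by norm_num, ?_, ?_⟩
  · exact tt_bd (by norm_num) (by norm_num) ex41000 (by norm_num)
  · have h := log_ge_of (c := 16307914 / 16777216) (T := 12106086910770 / 1000000000000) (by norm_num) (by norm_num)
      (by norm_num) (by norm_num [Finset.sum_range_succ, Nat.factorial])
    show ((16307914 : ℕ) : ℝ) ≤ _
    push_cast
    linarith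

lemma pa1 : ParA pr1 (41000 / 10000) (45000 / 10000) where
  tab := tab_all
  m1 := by unfold pr1; norm_num
  m2 := by unfold pr1; norm_num
  k1 := by unfold pr1; norm_num
  k2 := by unfold pr1; norm_num
  u := by
    have e1 : ((pr1.u1 : ℕ) : ℝ) = 32497029602687 := by unfold pr1; norm_num
    have e2 : ((pr1.u2 : ℕ) : ℝ) = 32399176091009 := by unfold pr1; norm_num
    rw [e1, e2]
    exact tt_aff (by norm_num) (by norm_num) ex41000 ex45000 (by norm_num) (by norm_num)

theorem gd1 {v0 v1 v2 v3 v4 v5 : V} (code : Nat)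
    (h : chk pr1 v0 v1 v2 v3 v4 v5 code = true) : Good (Want I1) ![v0, v1, v2, v3, v4, v5] :=
  chk_sound (t1 := 41000 / 10000) (by norm_num) (fun t ht => ht.1)
    (fun _ => ⟨45000 / 10000, by norm_num, rfl, pa1⟩)
    pb1 (fun h => absurd h (by decide)) v0 v1 v2 v3 v4 v5 code h

/-- constants of slice 2 -/
def pr2 : Par := ⟨TA, 146411904739973267456, 0x800000000000000000000000000000008000000000000000000000000000000080000000000000000000000000000000800000000000000000000000000000008000000000000000000000000000000080000000000000000000000000000000800000000000000000000000000000008000000000000000000000000000000080000000000000000000000000000000800000000000000000000000000000008000000000000000000000000000000080000000000000000000000000000000800000000000000, 64, 800000, 1120000, 32399176091009, 32279155162074, 1142929440000, 1396913760000, 45000, 16358509, 1, 0⟩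

/-- slice 2 -/
def I2 : Set ℝ := Set.Icc (45000 / 10000) (55000 / 10000)

lemma pb2 : ParB pr2 (45000 / 10000) := by
  refine ⟨by unfold pr2; norm_num, 12069633636997 / 1000000000000, by norm_num, ?_, ?_⟩
  · exact tt_bd (by norm_num) (by norm_num) ex45000 (by norm_num)
  · have h := log_ge_of (c := 16358509 / 16777216) (T := 12069633636997 / 1000000000000) (by norm_num) (by norm_num)
      (by norm_num) (by norm_num [Finset.sum_range_succ, Nat.factorial])
    show ((16358509 : ℕ) : ℝ) ≤ _
    push_cast
    linarith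

lemma pa2 : ParA pr2 (45000 / 10000) (55000 / 10000) where
  tab := tab_all
  m1 := by unfold pr2; norm_num
  m2 := by unfold pr2; norm_num
  k1 := by unfold pr2; norm_num
  k2 := by unfold pr2; norm_num
  u := by
    have e1 : ((pr2.u1 : ℕ) : ℝ) = 32399176091009 := by unfold pr2; norm_num
    have e2 : ((pr2.u2 : ℕ) : ℝ) = 32279155162074 := by unfold pr2; norm_num
    rw [e1, e2]
    exact tt_aff (by norm_num) (by norm_num) ex45000 ex55000 (by norm_num) (by norm_num)

theorem gd2 {v0 v1 v2 v3 v4 v5 : V} (code : Nat)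
    (h : chk pr2 v0 v1 v2 v3 v4 v5 code = true) : Good (Want I2) ![v0, v1, v2, v3, v4, v5] :=
  chk_sound (t1 := 45000 / 10000) (by norm_num) (fun t ht => ht.1)
    (fun _ => ⟨55000 / 10000, by norm_num, rfl, pa2⟩)
    pb2 (fun h => absurd h (by decide)) v0 v1 v2 v3 v4 v5 code h

/-- constants of slice 3 -/
def pr3 : Par := ⟨TA, 190335476161964933120, 0x800000000000000000000000000000008000000000000000000000000000000080000000000000000000000000000000800000000000000000000000000000008000000000000000000000000000000080000000000000000000000000000000800000000000000000000000000000008000000000000000000000000000000080000000000000000000000000000000800000000000000000000000000000008000000000000000000000000000000080000000000000000000000000000000800000000000000, 112, 1120000, 1760000, 32279155162074, 32221182480828, 1396913760000, 1904882400000, 55000, 16420775, 1, 0⟩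

/-- slice 3 -/
def I3 : Set ℝ := Set.Icc (55000 / 10000) (75000 / 10000)

lemma pb3 : ParB pr3 (55000 / 10000) := by
  refine ⟨by unfold pr3; norm_num, 12024922356782 / 1000000000000, by norm_num, ?_, ?_⟩
  · exact tt_bd (by norm_num) (by norm_num) ex55000 (by norm_num)
  · have h := log_ge_of (c := 16420775 / 16777216) (T := 12024922356782 / 1000000000000) (by norm_num) (by norm_num)
      (by norm_num) (by norm_num [Finset.sum_range_succ, Nat.factorial])
    show ((16420775 : ℕ) : ℝ) ≤ _
    push_cast
    linarith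

lemma pa3 : ParA pr3 (55000 / 10000) (75000 / 10000) where
  tab := tab_all
  m1 := by unfold pr3; norm_num
  m2 := by unfold pr3; norm_num
  k1 := by unfold pr3; norm_num
  k2 := by unfold pr3; norm_num
  u := by
    have e1 : ((pr3.u1 : ℕ) : ℝ) = 32279155162074 := by unfold pr3; norm_num
    have e2 : ((pr3.u2 : ℕ) : ℝ) = 32221182480828 := by unfold pr3; norm_num
    rw [e1, e2]
    exact tt_aff (by norm_num) (by norm_num) ex55000 ex75000 (by norm_num) (by norm_num)

theorem gd3 {v0 v1 v2 v3 v4 v5 : V} (code : Nat)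
    (h : chk pr3 v0 v1 v2 v3 v4 v5 code = true) : Good (Want I3) ![v0, v1, v2, v3, v4, v5] :=
  chk_sound (t1 := 55000 / 10000) (by norm_num) (fun t ht => ht.1)
    (fun _ => ⟨75000 / 10000, by norm_num, rfl, pa3⟩)
    pb3 (fun h => absurd h (by decide)) v0 v1 v2 v3 v4 v5 code h

/-- constants of slice 4 -/
def pr4 : Par := ⟨TA, 270862023768950177792, 0x800000000000000000000000000000008000000000000000000000000000000080000000000000000000000000000000800000000000000000000000000000008000000000000000000000000000000080000000000000000000000000000000800000000000000000000000000000008000000000000000000000000000000080000000000000000000000000000000800000000000000000000000000000008000000000000000000000000000000080000000000000000000000000000000800000000000000, 200, 1760000, 2880000, 32221182480828, 32212523737702, 1904882400000, 2793827520000, 75000, 16450934, 1, 0⟩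

/-- slice 4 -/
def I4 : Set ℝ := Set.Icc (75000 / 10000) (110000 / 10000)

lemma pb4 : ParB pr4 (75000 / 10000) := by
  refine ⟨by unfold pr4; norm_num, 12003325850077 / 1000000000000, by norm_num, ?_, ?_⟩
  · exact tt_bd (by norm_num) (by norm_num) ex75000 (by norm_num)
  · have h := log_ge_of (c := 16450934 / 16777216) (T := 12003325850077 / 1000000000000) (by norm_num) (by norm_num)
      (by norm_num) (by norm_num [Finset.sum_range_succ, Nat.factorial])
    show ((16450934 : ℕ) : ℝ) ≤ _
    push_cast
    linarith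

lemma pa4 : ParA pr4 (75000 / 10000) (110000 / 10000) where
  tab := tab_all
  m1 := by unfold pr4; norm_num
  m2 := by unfold pr4; norm_num
  k1 := by unfold pr4; norm_num
  k2 := by unfold pr4; norm_num
  u := by
    have e1 : ((pr4.u1 : ℕ) : ℝ) = 32221182480828 := by unfold pr4; norm_num
    have e2 : ((pr4.u2 : ℕ) : ℝ) = 32212523737702 := by unfold pr4; norm_num
    rw [e1, e2]
    exact tt_aff (by norm_num) (by norm_num) ex75000 ex110000 (by norm_num) (by norm_num)

theorem gd4 {v0 v1 v2 v3 v4 v5 : V} (code : Nat)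
    (h : chk pr4 v0 v1 v2 v3 v4 v5 code = true) : Good (Want I4) ![v0, v1, v2, v3, v4, v5] :=
  chk_sound (t1 := 75000 / 10000) (by norm_num) (fun t ht => ht.1)
    (fun _ => ⟨110000 / 10000, by norm_num, rfl, pa4⟩)
    pb4 (fun h => absurd h (by decide)) v0 v1 v2 v3 v4 v5 code h

/-- constants of slice 5 -/
def pr5 : Par := ⟨TA, 322106190427940978688, 0x800000000000000000000000000000008000000000000000000000000000000080000000000000000000000000000000800000000000000000000000000000008000000000000000000000000000000080000000000000000000000000000000800000000000000000000000000000008000000000000000000000000000000080000000000000000000000000000000800000000000000000000000000000008000000000000000000000000000000080000000000000000000000000000000800000000000000, 256, 2880000, 2880000, 32212523737702, 32212523737702, 2793827520000, 2793827520000, 110000, 16455443, 0, 0⟩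

/-- slice 5 -/
def I5 : Set ℝ := Set.Ici (110000 / 10000)

lemma pb5 : ParB pr5 (110000 / 10000) := by
  refine ⟨by unfold pr5; norm_num, 12000100216901 / 1000000000000, by norm_num, ?_, ?_⟩
  · exact tt_bd (by norm_num) (by norm_num) ex110000 (by norm_num)
  · have h := log_ge_of (c := 16455443 / 16777216) (T := 12000100216901 / 1000000000000) (by norm_num) (by norm_num)
      (by norm_num) (by norm_num [Finset.sum_range_succ, Nat.factorial])
    show ((16455443 : ℕ) : ℝ) ≤ _
    push_cast
    linarith

theorem gd5 {v0 v1 v2 v3 v4 v5 : V} (code : Nat)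
    (h : chk pr5 v0 v1 v2 v3 v4 v5 code = true) : Good (Want I5) ![v0, v1, v2, v3, v4, v5] :=
  chk_sound (t1 := 110000 / 10000) (by norm_num) (fun t ht => ht)
    (fun h => absurd h (by decide))
    pb5 (fun h => absurd h (by decide)) v0 v1 v2 v3 v4 v5 code h

end Pool.Agent.V7H99
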